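import Pool.Agent.MP_f5aac0_gt.Mg.Plan

/-!
Diagrams all of whose crossings are bridges or belong to separating double edges are elementary.
-/

namespace Pool.Agent.MP_f5aac0_gt

open Classical symmDiff

namespace Diagram

variable {D : Diagram}

def sd (c k : ZMod 4) : Bool := decide (k = 2 ∨ k = c + 2)

def Sep (c : ZMod 4) (e e' : Fin D.n) (χ : D.Dart → Bool) : Prop :=
  (∀ d, χ (D.edge d) = χ d) ∧ (∀ i, i ≠ e → i ≠ e' → ∀ k, χ (i, k) = χ (i, 0)) ∧
    ∀ x, x = e ∨ x = e' → ∀ k, χ (x, k) = xor (χ (x, 0)) (sd c k)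

def Exc (col : D.Dart → Bool) : Prop :=
  Col col ∧ ∀ e, (∃ c χ, (c = 1 ∨ c = 3) ∧ Sep c e e χ) ∨
    ∃ e', e ≠ e' ∧ col (e, 0) = col (e', 0) ∧ ∃ χ₁ χ₂, Sep 1 e e' χ₁ ∧ Sep 3 e e' χ₂

lemma bsum {M : Type} [AddCommGroup M] (f : D.Dart → M) (hf : ∀ d, f d + f (D.edge d) = 0)
    (Y : Finset (Fin D.n)) : ∑ i ∈ Y, ∑ k, f (i, k) =
      ∑ d ∈ Finset.univ.filter fun d : D.Dart => d.1 ∈ Y ∧ (D.edge d).1 ∉ Y, f d := by
  have h1 : ∑ i ∈ Y, ∑ k, f (i, k) = ∑ d ∈ Finset.univ.filter fun d : D.Dart => d.1 ∈ Y, f d := by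
    rw [← Finset.sum_product']
    congr 1
    ext d
    simp
  rw [h1, ← Finset.sum_filter_add_sum_filter_not _ fun d : D.Dart => (D.edge d).1 ∈ Y,
    Finset.filter_filter, Finset.filter_filter, Finset.sum_involution (fun d _ => D.edge d)
      (fun d _ => hf d) (fun d _ _ => D.edge_ne d) (fun d hd => by
        simpa [D.edge_edge, and_comm] using hd) (fun d _ => D.edge_edge d), zero_add]

lemma sum4 {M : Type} [AddCommMonoid M] (f : ZMod 4 → M) : ∑ k, f k = f 0 + f 1 + f 2 + f 3 :=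
  Fin.sum_univ_four f

lemma Sep.sum {c : ZMod 4} (hc : c = 1 ∨ c = 3) {e e' : Fin D.n} {χ : D.Dart → Bool}
    (h : Sep c e e' χ) (i : Fin D.n) : ∑ k, (if χ (i, k) then (1 : ZMod 2) else 0) = 0 := by
  by_cases hi : i = e ∨ i = e'
  · have : ∀ (b : Bool) (c : ZMod 4), c = 1 ∨ c = 3 →
      ∑ k, (if xor b (sd c k) then (1 : ZMod 2) else 0) = 0 := by decide
    exact (Finset.sum_congr rfl fun k _ => by rw [h.2.2 i hi k]).trans (this (χ (i, 0)) c hc)
  · push Not at hi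
    have : ∀ b : Bool, ∑ _k : ZMod 4, (if b then (1 : ZMod 2) else 0) = 0 := by decide
    exact (Finset.sum_congr rfl fun k _ => by rw [h.2.1 i hi.1 hi.2 k]).trans (this (χ (i, 0)))

/-- Restriction to a set of crossings closed under edges. -/
noncomputable def res (D : Diagram) (fr : ℕ) {m : ℕ} (ι : Fin m → Fin D.n)
    (hι : Function.Injective ι) (hcl : ∀ d : Fin m × ZMod 4, ∃ j, ι j = (D.edge (ι d.1, d.2)).1) :
    Diagram where
  n := m
  free := fr
  edge d := ((hcl d).choose, (D.edge (ι d.1, d.2)).2)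
  edge_edge d := by
    have h1 : (ι (hcl d).choose, (D.edge (ι d.1, d.2)).2) = D.edge (ι d.1, d.2) :=
      Prod.ext (hcl d).choose_spec rfl
    refine Prod.ext (hι ((hcl _).choose_spec.trans ?_)) ?_ <;> simp only [h1, D.edge_edge]
  edge_ne d h := D.edge_ne (ι d.1, d.2) (Prod.ext (by
    rw [← (hcl d).choose_spec]; exact congrArg (fun x => ι x.1) h) (congrArg Prod.snd h :))

lemma res_edge (fr : ℕ) {m : ℕ} (ι : Fin m → Fin D.n) (hι : Function.Injective ι)
    (hcl : ∀ d : Fin m × ZMod 4, ∃ j, ι j = (D.edge (ι d.1, d.2)).1) (d : Fin m × ZMod 4) :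
    D.edge (ι d.1, d.2) = (ι ((D.res fr ι hι hcl).edge d).1, ((D.res fr ι hι hcl).edge d).2) :=
  Prod.ext (hcl d).choose_spec.symm rfl

lemma Exc.res {col : D.Dart → Bool} (h : Exc col) (fr : ℕ) {m : ℕ} (ι : Fin m → Fin D.n)
    (hι : Function.Injective ι) (hcl : ∀ d : Fin m × ZMod 4, ∃ j, ι j = (D.edge (ι d.1, d.2)).1) :
    Exc (D := D.res fr ι hι hcl) fun d => col (ι d.1, d.2) := by
  have he := res_edge fr ι hι hcl
  have hs : ∀ c e e' χ, Sep c (ι e) (ι e') χ →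
      Sep (D := D.res fr ι hι hcl) c e e' fun d => χ (ι d.1, d.2) := fun c e e' χ g =>
    ⟨fun d => by simp only [← he, g.1], fun i h1 h2 => g.2.1 _ (hι.ne h1) (hι.ne h2),
      fun x hx => g.2.2 _ (hx.imp (congrArg ι) (congrArg ι))⟩
  refine ⟨⟨fun d => by simp only [← he, h.1.1], fun d => h.1.2 (ι d.1, d.2)⟩, fun e => ?_⟩
  rcases h.2 (ι e) with ⟨c, χ, hc, g⟩ | ⟨e', h1, h2, χ₁, χ₂, g1, g2⟩
  · exact Or.inl ⟨c, _, hc, hs c e e χ g⟩
  · obtain ⟨e', rfl⟩ : ∃ j, ι j = e' := by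
      by_contra g
      push Not at g
      have h3 := bsum (fun d => if χ₁ d && χ₂ d then (1 : ZMod 2) else 0) (fun d => by
        rw [g1.1, g2.1]; split_ifs <;> rfl) (Finset.univ.image ι)
      rw [Finset.sum_eq_single_of_mem (ι e) (by simp), Finset.filter_eq_empty_iff.2,
        Finset.sum_empty] at h3
      · have : ∀ b b' : Bool, ∑ k, (if xor b (sd 1 k) && xor b' (sd 3 k) then (1 : ZMod 2) else 0)
          ≠ 0 := by decide
        exact this _ _ ((Finset.sum_congr rfl fun k _ => by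
          rw [g1.2.2 _ (Or.inl rfl) k, g2.2.2 _ (Or.inl rfl) k]).symm.trans h3)
      · rintro ⟨i, k⟩ - ⟨h4, h5⟩
        obtain ⟨j, -, rfl⟩ := Finset.mem_image.1 h4
        obtain ⟨l, hl⟩ := hcl (j, k)
        exact h5 (Finset.mem_image.2 ⟨l, Finset.mem_univ _, hl⟩)
      · intro i hi hne
        obtain ⟨j, -, rfl⟩ := Finset.mem_image.1 hi
        have : ∀ b : Bool, ∑ _k : ZMod 4, (if b then (1 : ZMod 2) else 0) = 0 := by decide
        exact (Finset.sum_congr rfl fun k _ => by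
          rw [g1.2.1 _ hne (g j) k, g2.2.1 _ hne (g j) k]).trans (this _)
    exact Or.inr ⟨e', fun g => h1 (congrArg ι g), h2, _, _, hs 1 e e' χ₁ g1, hs 3 e e' χ₂ g2⟩

lemma Exc.union {col : D.Dart → Bool} (h : Exc col) (Y : Finset (Fin D.n))
    (hY : ∀ d, d.1 ∈ Y → (D.edge d).1 ∈ Y) :
    ∃ (D₁ D₂ : Diagram) (e : Fin D₁.n ⊕ Fin D₂.n ≃ Fin D.n), D.free = D₁.free + D₂.free ∧
      (∀ d, D.edge (e (Sum.inl d.1), d.2) = (e (Sum.inl (D₁.edge d).1), (D₁.edge d).2)) ∧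
      (∀ d, D.edge (e (Sum.inr d.1), d.2) = (e (Sum.inr (D₂.edge d).1), (D₂.edge d).2)) ∧
      (∀ i, i ∈ Y ↔ ∃ j, e (Sum.inl j) = i) ∧ (∀ i, i ∉ Y ↔ ∃ j, e (Sum.inr j) = i) ∧
      (∃ c, Exc (D := D₁) c) ∧ ∃ c, Exc (D := D₂) c := by
  let e : Fin (Fintype.card {i // i ∈ Y}) ⊕ Fin (Fintype.card {i // i ∉ Y}) ≃ Fin D.n :=
    ((Fintype.equivFin _).symm.sumCongr (Fintype.equivFin _).symm).trans (Equiv.sumCompl (· ∈ Y))
  have h1 : ∀ i, i ∈ Y ↔ ∃ j, e (Sum.inl j) = i := fun i =>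
    ⟨fun g => ⟨Fintype.equivFin _ ⟨i, g⟩, by simp [e]⟩, by
      rintro ⟨j, rfl⟩; exact ((Fintype.equivFin _).symm j).2⟩
  have h2 : ∀ i, i ∉ Y ↔ ∃ j, e (Sum.inr j) = i := fun i =>
    ⟨fun g => ⟨Fintype.equivFin _ ⟨i, g⟩, by simp [e]⟩, by
      rintro ⟨j, rfl⟩; exact ((Fintype.equivFin _).symm j).2⟩
  have i1 : Function.Injective fun j => e (Sum.inl j) := e.injective.comp Sum.inl_injective
  have i2 : Function.Injective fun j => e (Sum.inr j) := e.injective.comp Sum.inr_injective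
  have c1 : ∀ d : _ × ZMod 4, ∃ j, e (Sum.inl j) = (D.edge (e (Sum.inl d.1), d.2)).1 := fun d =>
    (h1 _).1 (hY _ ((h1 _).2 ⟨_, rfl⟩))
  have c2 : ∀ d : _ × ZMod 4, ∃ j, e (Sum.inr j) = (D.edge (e (Sum.inr d.1), d.2)).1 := fun d =>
    (h2 _).1 fun g => (h2 _).2 ⟨d.1, rfl⟩ (by simpa only [D.edge_edge] using hY _ g)
  exact ⟨D.res D.free _ i1 c1, D.res 0 _ i2 c2, e, rfl, res_edge _ _ i1 c1, res_edge _ _ i2 c2,
    h1, h2, ⟨_, h.res _ _ i1 c1⟩, _, h.res _ _ i2 c2⟩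

/-- Exchange the partners of two half-edges. -/
noncomputable def glue (D : Diagram) (x y : D.Dart) : Diagram where
  n := D.n
  free := D.free
  edge d := Equiv.swap x y (D.edge (Equiv.swap x y d))
  edge_edge d := by simp [D.edge_edge]
  edge_ne d h := D.edge_ne (Equiv.swap x y d) ((Equiv.swap x y).injective (by simpa using h))

lemma cut_elem {col : D.Dart → Bool} (h : Exc col)
    (ih : ∀ D' : Diagram, D'.n < D.n → (∃ c, Exc (D := D') c) → Elementary D')
    (Y : Finset (Fin D.n)) {i j : Fin D.n} (hi : i ∈ Y) (hj : j ∉ Y) {a a' : D.Dart}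
    (hb : ∀ d, d.1 ∈ Y → (D.edge d).1 ∉ Y → d = a ∨ d = a') : Elementary D := by
  have hn : ∀ (D₁ D₂ : Diagram) (e : Fin D₁.n ⊕ Fin D₂.n ≃ Fin D.n),
      (∀ i, i ∈ Y ↔ ∃ j, e (Sum.inl j) = i) → (∀ i, i ∉ Y ↔ ∃ j, e (Sum.inr j) = i) →
      D₁.n < D.n ∧ D₂.n < D.n := by
    intro D₁ D₂ e h1 h2
    have := Fintype.card_congr e
    simp only [Fintype.card_sum, Fintype.card_fin] at this
    have a := ((h1 i).1 hi).choose.pos
    have b := ((h2 j).1 hj).choose.pos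
    omega
  by_cases h0 : ∀ d, d.1 ∈ Y → (D.edge d).1 ∈ Y
  · obtain ⟨D₁, D₂, e, g1, g2, g3, g4, g5, g6, g7⟩ := h.union Y h0
    exact Elementary.union D₁ D₂ D ⟨g1, e, g2, g3⟩ (ih _ (hn _ _ e g4 g5).1 g6)
      (ih _ (hn _ _ e g4 g5).2 g7)
  let sg : D.Dart → ℤ := fun d => if col d then 1 else -1
  have h1 := bsum sg (fun d => by simp only [sg, h.1.1]; cases col d <;> rfl) Y
  rw [Finset.sum_eq_zero fun i _ => by
    have : ∀ b : Bool, ∑ k, (if xor b (par k) then (1 : ℤ) else -1) = 0 := by decide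
    exact (Finset.sum_congr rfl fun k _ => by simp only [sg, h.1.eq i k]).trans
      (this (col (i, 0)))] at h1
  have hsg : ∀ d, sg d ≠ 0 := fun d => by simp only [sg]; split_ifs <;> simp
  have key : ∀ a a', (∀ d, d.1 ∈ Y → (D.edge d).1 ∉ Y → d = a ∨ d = a') →
      a.1 ∈ Y ∧ (D.edge a).1 ∉ Y → a ≠ a' ∧ a'.1 ∈ Y ∧ (D.edge a').1 ∉ Y := by
    intro a a' hb ha
    by_contra g
    rw [Finset.sum_eq_single_of_mem a (by simpa using ha)] at h1
    · exact hsg a h1.symm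
    · intro d hd hne
      have hd' := (Finset.mem_filter.1 hd).2
      have := (hb d hd'.1 hd'.2).resolve_left hne
      subst this
      exact absurd ⟨hne.symm, hd'⟩ g
  obtain ⟨haa, ha, ha'⟩ : a ≠ a' ∧ (a.1 ∈ Y ∧ (D.edge a).1 ∉ Y) ∧ a'.1 ∈ Y ∧ (D.edge a').1 ∉ Y := by
    push Not at h0
    obtain ⟨d, hd⟩ := h0
    rcases hb d hd.1 hd.2 with rfl | rfl
    · exact ⟨(key _ _ hb hd).1, hd, (key _ _ hb hd).2⟩
    · have := key _ _ (fun d g g' => (hb d g g').symm) hd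
      exact ⟨this.1.symm, this.2, hd⟩
  have hF : (Finset.univ.filter fun d : D.Dart => d.1 ∈ Y ∧ (D.edge d).1 ∉ Y) = {a, a'} := by
    ext d
    simp only [Finset.mem_filter, Finset.mem_univ, true_and, Finset.mem_insert, Finset.mem_singleton]
    exact ⟨fun g => hb d g.1 g.2, fun g => g.elim (fun g => g ▸ ha) fun g => g ▸ ha'⟩
  rw [hF, Finset.sum_pair haa] at h1
  have hsw : ∀ (f : D.Dart → Bool), f a' = f (D.edge a) → ∀ d,
      f (Equiv.swap a' (D.edge a) d) = f d := fun f hf d => by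
    rw [Equiv.swap_apply_def]
    split_ifs with g1 g2
    · rw [g1, hf]
    · rw [g2, hf]
    · rfl
  have hc := hsw col (by
    rw [h.1.1]
    simp only [sg] at h1
    revert h1
    cases col a <;> cases col a' <;> simp)
  have hs : ∀ c e e' χ, c = 1 ∨ c = 3 → Sep (D := D) c e e' χ →
      Sep (D := D.glue a' (D.edge a)) c e e' χ := fun c e e' χ hc g => by
    have h2 := bsum (fun d => if χ d then (1 : ZMod 2) else 0) (fun d => by
      rw [g.1]; split_ifs <;> rfl) Y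
    rw [Finset.sum_eq_zero fun i _ => g.sum hc i, hF, Finset.sum_pair haa] at h2
    have h3 := hsw χ (by
      rw [g.1]
      revert h2
      cases χ a <;> cases χ a' <;> simp)
    exact ⟨fun d => (h3 _).trans ((g.1 _).trans (h3 d)), g.2⟩
  have h' : Exc (D := D.glue a' (D.edge a)) col :=
    ⟨⟨fun d => (hc _).trans ((h.1.1 _).trans (congrArg _ (hc d))), h.1.2⟩, fun e =>
      (h.2 e).imp (fun ⟨c, χ, g1, g2⟩ => ⟨c, χ, g1, hs c e e χ g1 g2⟩)
        fun ⟨e', g1, g2, χ₁, χ₂, g3, g4⟩ =>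
          ⟨e', g1, g2, χ₁, χ₂, hs 1 e e' χ₁ (Or.inl rfl) g3, hs 3 e e' χ₂ (Or.inr rfl) g4⟩⟩
  have inj := Function.Involutive.injective D.edge_edge
  have e1 : (D.glue a' (D.edge a)).edge a = a' := by
    simp only [glue]
    rw [Equiv.swap_apply_of_ne_of_ne haa (D.edge_ne a).symm, Equiv.swap_apply_right]
  have e2 : (D.glue a' (D.edge a)).edge (D.edge a) = D.edge a' := by
    simp only [glue]
    rw [Equiv.swap_apply_right, Equiv.swap_apply_of_ne_of_ne (D.edge_ne a') (inj.ne haa.symm)]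
  have e3 : ∀ d, d ≠ a → d ≠ a' → d ≠ D.edge a → d ≠ D.edge a' →
      (D.glue a' (D.edge a)).edge d = D.edge d := fun d g1 g2 g3 g4 => by
    simp only [glue]
    rw [Equiv.swap_apply_of_ne_of_ne g2 g3, Equiv.swap_apply_of_ne_of_ne
      (fun g => g4 (by rw [← g, D.edge_edge])) (inj.ne g1)]
  obtain ⟨D₁, D₂, e, g1, g2, g3, g4, g5, g6, g7⟩ := h'.union Y (fun d hd => by
    by_cases f1 : d = a
    · rw [f1, e1]; exact ha'.1
    by_cases f2 : d = a'
    · have := (D.glue a' (D.edge a)).edge_edge a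
      rw [e1] at this
      rw [f2, this]; exact ha.1
    rw [e3 d f1 f2 (fun g => ha.2 (g ▸ hd)) (fun g => ha'.2 (g ▸ hd))]
    by_contra g
    exact (hb d hd g).elim f1 f2)
  obtain ⟨a₁, ha₁⟩ := (g4 a.1).1 ha.1
  obtain ⟨b₁, hb₁⟩ := (g5 _).1 ha.2
  have ea : (e (Sum.inl a₁), a.2) = a := Prod.ext ha₁ rfl
  have eb : (e (Sum.inr b₁), (D.edge a).2) = D.edge a := Prod.ext hb₁ rfl
  have ea' := g2 (a₁, a.2)
  have eb' := g3 (b₁, (D.edge a).2)
  rw [ea, e1] at ea'
  rw [eb, e2] at eb'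
  have j1 : ∀ d d' : D₁.Dart, d ≠ d' → (e (Sum.inl d.1), d.2) ≠ (e (Sum.inl d'.1), d'.2) :=
    fun d d' g f => g (Prod.ext (Sum.inl_injective (e.injective (congrArg Prod.fst f)))
      (congrArg Prod.snd f :))
  have j2 : ∀ d d' : D₂.Dart, d ≠ d' → (e (Sum.inr d.1), d.2) ≠ (e (Sum.inr d'.1), d'.2) :=
    fun d d' g f => g (Prod.ext (Sum.inr_injective (e.injective (congrArg Prod.fst f)))
      (congrArg Prod.snd f :))
  refine Elementary.sum D₁ D₂ D ⟨g1, e, (a₁, a.2), (b₁, (D.edge a).2),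
    (congrArg D.edge ea).trans eb.symm, (congrArg D.edge ea'.symm).trans eb', fun d f1 f2 => ?_, fun d f1 f2 => ?_⟩ (ih _ (hn _ _ e g4 g5).1 g6)
    (ih _ (hn _ _ e g4 g5).2 g7)
  · have hd := (g4 _).2 ⟨d.1, rfl⟩
    exact (e3 _ (fun g => j1 _ _ f1 (g.trans ea.symm)) (fun g => j1 _ _ f2 (g.trans ea'))
      (fun g => ha.2 (g ▸ hd)) (fun g => ha'.2 (g ▸ hd))).symm.trans (g2 d)
  · have hd := (g5 _).2 ⟨d.1, rfl⟩
    exact (e3 _ (fun g => hd (by have := ha.1; rwa [← g] at this))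
      (fun g => hd (by have := ha'.1; rwa [← g] at this)) (fun g => j2 _ _ f1 (g.trans eb.symm))
      (fun g => j2 _ _ f2 (g.trans eb'))).symm.trans (g3 d)

theorem Exc.elementary (D : Diagram) (h : ∃ c, Exc (D := D) c) : Elementary D := by
  induction hn : D.n using Nat.strong_induction_on generalizing D with
  | _ m ih =>
  obtain ⟨col, h⟩ := h
  by_contra hE
  have prime : ∀ (Y : Finset (Fin D.n)) (j : Fin D.n) (a a' : D.Dart), j ∉ Y →
      (∀ d, d.1 ∈ Y → (D.edge d).1 ∉ Y → d = a ∨ d = a') → ∀ i, i ∉ Y := fun Y j a a' hj hb i hi =>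
    hE (cut_elem h (fun D' g g' => ih _ (hn ▸ g) D' g' rfl) Y hi hj hb)
  rcases Nat.eq_zero_or_pos D.n with h0 | h0
  · exact hE (Elementary.unlink D h0)
  have back : ∀ d x : D.Dart, D.edge d = x → d = D.edge x := fun d x g => by rw [← g, D.edge_edge]
  have e : Fin D.n := ⟨0, h0⟩
  rcases h.2 e with ⟨c, χ, hc, g⟩ | ⟨e', h1, h2, χ₁, χ₂, g1, g2⟩
  · have h1 : ∀ i, i = e := by
      intro i
      by_contra hi
      obtain ⟨k, l, hk⟩ : ∃ k l, ∀ x, xor (χ (e, 0)) (sd c x) = χ (i, 0) → x = k ∨ x = l := by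
        have : ∀ (c : ZMod 4) (b t : Bool), c = 1 ∨ c = 3 →
          ∃ k l, ∀ x, xor b (sd c x) = t → x = k ∨ x = l := by decide
        exact this c _ _ hc
      refine prime (Finset.univ.filter fun j => j ≠ e ∧ χ (j, 0) = χ (i, 0)) e (D.edge (e, k))
        (D.edge (e, l)) (by simp) (fun d f1 f2 => ?_) i (by simp [hi])
      simp only [Finset.mem_filter, Finset.mem_univ, true_and, not_and] at f1 f2
      have f3 : χ (D.edge d) = χ (i, 0) := (g.1 d).trans ((g.2.1 _ f1.1 f1.1 _).trans f1.2)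
      have f4 : (D.edge d).1 = e := by
        by_contra f
        exact f2 f ((g.2.1 _ f f _).symm.trans f3)
      have f5 : D.edge d = (e, (D.edge d).2) := Prod.ext f4 rfl
      rw [f5, g.2.2 e (Or.inl rfl)] at f3
      exact (hk _ f3).imp (fun f => back _ _ (Prod.ext f4 f)) fun f => back _ _ (Prod.ext f4 f)
    refine hE (Elementary.kink D c (by simpa using Fintype.card_eq_one_iff.2 ⟨e, h1⟩) hc fun d => ?_)
    have f1 := g.1 d
    have f2 := D.edge_ne d
    generalize D.edge d = w at *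
    obtain ⟨i, k⟩ := d
    obtain ⟨j, l⟩ := w
    obtain rfl := h1 i
    obtain rfl := h1 j
    rw [g.2.2 _ (Or.inl rfl), g.2.2 _ (Or.inl rfl) k] at f1
    have : ∀ (c k l : ZMod 4) (b : Bool), c = 1 ∨ c = 3 → xor b (sd c l) = xor b (sd c k) →
      l ≠ k → l = c - k := by decide
    rw [this c k l _ hc f1 fun f => f2 (by rw [f])]
  · have uniq : ∀ (b b' t t' : Bool), ∃ k, ∀ x, xor b (sd 1 x) = t → xor b' (sd 3 x) = t' →
      x = k := by decide
    have h3 : ∀ i, i = e ∨ i = e' := by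
      intro i
      by_contra hi
      push Not at hi
      obtain ⟨k, hk⟩ := uniq (χ₁ (e, 0)) (χ₂ (e, 0)) (χ₁ (i, 0)) (χ₂ (i, 0))
      obtain ⟨l, hl⟩ := uniq (χ₁ (e', 0)) (χ₂ (e', 0)) (χ₁ (i, 0)) (χ₂ (i, 0))
      refine prime (Finset.univ.filter fun j => j ≠ e ∧ j ≠ e' ∧ χ₁ (j, 0) = χ₁ (i, 0) ∧
        χ₂ (j, 0) = χ₂ (i, 0)) e (D.edge (e, k)) (D.edge (e', l)) (by simp) (fun d f1 f2 => ?_) i
        (by simp [hi])
      simp only [Finset.mem_filter, Finset.mem_univ, true_and, not_and] at f1 f2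
      have f3 : χ₁ (D.edge d) = χ₁ (i, 0) := (g1.1 d).trans ((g1.2.1 _ f1.1 f1.2.1 _).trans f1.2.2.1)
      have f3' : χ₂ (D.edge d) = χ₂ (i, 0) := (g2.1 d).trans ((g2.2.1 _ f1.1 f1.2.1 _).trans f1.2.2.2)
      have f4 : (D.edge d).1 = e ∨ (D.edge d).1 = e' := by
        by_contra f
        push Not at f
        exact f2 f.1 f.2 ((g1.2.1 _ f.1 f.2 _).symm.trans f3) ((g2.2.1 _ f.1 f.2 _).symm.trans f3')
      rcases f4 with f4 | f4
      · have f5 : D.edge d = (e, (D.edge d).2) := Prod.ext f4 rfl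
        rw [f5, g1.2.2 e (Or.inl rfl)] at f3
        rw [f5, g2.2.2 e (Or.inl rfl)] at f3'
        exact Or.inl (back _ _ (hk _ f3 f3' ▸ f5))
      · have f5 : D.edge d = (e', (D.edge d).2) := Prod.ext f4 rfl
        rw [f5, g1.2.2 e' (Or.inr rfl)] at f3
        rw [f5, g2.2.2 e' (Or.inr rfl)] at f3'
        exact Or.inr (back _ _ (hl _ f3 f3' ▸ f5))
    have h4 : ∀ k, ∃ l, D.edge (e, k) = (e', l) ∧
        xor (χ₁ (e', 0)) (sd 1 l) = xor (χ₁ (e, 0)) (sd 1 k) ∧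
        xor (χ₂ (e', 0)) (sd 3 l) = xor (χ₂ (e, 0)) (sd 3 k) := by
      intro k
      have f1 := g1.1 (e, k)
      have f1' := g2.1 (e, k)
      have f2 := D.edge_ne (e, k)
      generalize D.edge (e, k) = w at *
      obtain ⟨j, l⟩ := w
      rw [g1.2.2 _ (h3 j), g1.2.2 _ (Or.inl rfl) k] at f1
      rw [g2.2.2 _ (h3 j), g2.2.2 _ (Or.inl rfl) k] at f1'
      rcases h3 j with rfl | rfl
      · obtain ⟨x, hx⟩ := uniq (χ₁ (j, 0)) (χ₂ (j, 0)) _ _
        exact absurd (by rw [hx l f1 f1', hx k rfl rfl]) f2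
      · exact ⟨l, rfl, f1, f1'⟩
    obtain ⟨c, c1, c2, c3⟩ := h4 0
    have hc : c = 1 ∨ c = 3 := by
      have := h.1.1 (e, 0)
      rw [c1, h.1.eq, h2] at this
      have h5 : ∀ (b : Bool) (c : ZMod 4), xor b (par c) = !b → c = 1 ∨ c = 3 := by decide
      exact h5 _ _ this
    have h5 : ∀ k, D.edge (e, k) = (e', c - k) := by
      intro k
      obtain ⟨l, f1, f2, f3⟩ := h4 k
      have : ∀ (c k l : ZMod 4) (x₁ x₂ y₁ y₂ : Bool), c = 1 ∨ c = 3 →
        xor y₁ (sd 1 c) = xor x₁ (sd 1 0) → xor y₂ (sd 3 c) = xor x₂ (sd 3 0) →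
        xor y₁ (sd 1 l) = xor x₁ (sd 1 k) → xor y₂ (sd 3 l) = xor x₂ (sd 3 k) → l = c - k := by
        decide
      rw [f1, this c k l _ _ _ _ hc c2 c3 f2 f3]
    refine hE (Elementary.hopf D c ?_ hc ?_)
    · refine (Finset.card_fin D.n).symm.trans (Eq.trans ?_ (Finset.card_pair h1))
      congr 1
      ext i
      simpa using h3 i
    · rintro ⟨i, k⟩
      rcases h3 i with rfl | rfl
      · rw [h5]
        exact ⟨h1.symm, rfl⟩
      · have := back _ _ (h5 (c - k))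
        rw [sub_sub_cancel] at this
        rw [← this]
        exact ⟨h1, rfl⟩

end Diagram

end Pool.Agent.MP_f5aac0_gt

/-!
Order two torsion for diagrams with a homogeneously adequate state.
-/

namespace Pool.Agent.MP_f5aac0_gt

open Classical symmDiff

lemma summand {A B C : Type} [AddCommGroup A] [AddCommGroup B] [AddCommGroup C]
    (f : A →+ B) (g : B →+ C) (x : A) (y : B) (ψ : B →+ ZMod 2) (hy : g y = 0)
    (hx : f x = 2 • y) (h0 : ∀ a, ψ (f a) = 0) (h1 : ψ y = 1) : HasZ2 f g := by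
  let N := f.range.addSubgroupOf g.ker
  let φ : (g.ker ⧸ N) →+ ZMod 2 := QuotientAddGroup.lift N (ψ.comp g.ker.subtype) (by
    rintro z ⟨a, ha⟩
    exact (congrArg ψ ha).symm.trans (h0 a))
  let t : g.ker ⧸ N := QuotientAddGroup.mk' N ⟨y, hy⟩
  have ht : (2 : ℤ) • t = 0 := by
    rw [← map_zsmul]
    exact (QuotientAddGroup.eq_zero_iff _).2 ⟨x, hx.trans (by simp [two_smul])⟩
  let s : ZMod 2 →+ (g.ker ⧸ N) := ZMod.lift 2 ⟨zmultiplesHom _ t, ht⟩
  have hs : ∀ a, φ (s a) = a := by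
    intro a
    obtain ⟨m, rfl⟩ := ZMod.intCast_surjective a
    have : s m = m • t := ZMod.lift_coe 2 ⟨zmultiplesHom _ t, ht⟩ m
    rw [this, map_zsmul]
    have : φ t = 1 := h1
    simp [this]
  refine ⟨s.range, φ.ker, ⟨?_, ?_⟩,
    ⟨(AddMonoidHom.ofInjective (Function.LeftInverse.injective hs)).symm⟩⟩
  · rw [AddSubgroup.disjoint_def]
    rintro _ ⟨a, rfl⟩ h
    rw [← hs a, AddMonoidHom.mem_ker.1 h, map_zero]
  · rw [codisjoint_iff, eq_top_iff]
    intro z _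
    exact AddSubgroup.mem_sup.2 ⟨s (φ z), ⟨_, rfl⟩, z - s (φ z), by simp [hs], by simp⟩

namespace Diagram

variable {D : Diagram} {col : D.Dart → Bool} (h : Col col)

lemma jn_cross (S : Finset (Fin D.n)) (R : Setoid D.Arc) (hR : ∀ a b, D.sc S a b → R a b)
    (i : Fin D.n) (k : ZMod 4) : R (Sum.inl (i, k))
      (if sd (if i ∈ S then 3 else 1) k then D.q i else D.p i) := by
  have hk : ∀ k c : ZMod 4, c = 1 ∨ c = 3 → (k = 0 ∧ sd c k = false) ∨ (k = 2 ∧ sd c k = true) ∨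
    (c - k = 0 ∧ sd c k = false) ∨ (c - k = 2 ∧ sd c k = true) := by decide
  have a := hR _ _ (sc_smooth S (i, k))
  rcases hk k (if i ∈ S then 3 else 1) (by split_ifs <;> simp) with g | g | g | g <;> rw [g.2]
  · rw [g.1]; exact R.refl _
  · rw [g.1]; exact R.refl _
  · simp only [smooth, g.1] at a; exact a
  · simp only [smooth, g.1] at a; exact a

lemma sep_of {S : Finset (Fin D.n)} {e e' : Fin D.n} (h1 : e ∈ S ↔ e' ∈ S)
    (h2 : (toSys h).Par S e e') (h3 : ¬ (toSys h).Jn S {e, e'}ᶜ (D.p e) (D.q e)) :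
    ∃ χ, Sep (if e ∈ S then 3 else 1) e e' χ := by
  generalize hJ : (toSys h).Jn S {e, e'}ᶜ = J at h3
  have hR : ∀ a b, D.sc S a b → J a b := fun a b g => hJ ▸ (toSys h).Jn_base _ g
  have hf : ∀ a b, J a b → decide (J (D.p e) a) = decide (J (D.p e) b) := fun a b g =>
    decide_eq_decide.2 ⟨fun g' => J.trans g' g, fun g' => J.trans g' (J.symm g)⟩
  refine ⟨fun d => decide (J (D.p e) (Sum.inl d)), fun d => (hf _ _ (hR _ _ (sc_edge S d))).symm,
    fun i g1 g2 k => ?_, fun x hx k => ?_⟩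
  · have : J (D.p i) (D.q i) := hJ ▸ (toSys h).Jn_edge S (by simp [g1, g2])
    refine (hf _ _ (jn_cross S J hR i k)).trans ?_
    split_ifs <;> first | rfl | exact (hf _ _ this).symm
  · have h4 : decide (J (D.p e) (D.q x)) = !decide (J (D.p e) (D.p x)) := by
      rcases hx with rfl | rfl
      · simp [h3]
      · rcases h2 with g | g
        · rw [← hf (D.p e) (D.p x) (hR _ _ g.1), ← hf (D.q e) (D.q x) (hR _ _ g.2)]
          simp [h3]
        · rw [← hf (D.p e) (D.q x) (hR _ _ g.1), ← hf (D.q e) (D.p x) (hR _ _ g.2)]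
          simp [h3]
    have h5 : (if x ∈ S then (3 : ZMod 4) else 1) = if e ∈ S then 3 else 1 := by
      rcases hx with rfl | rfl
      · rfl
      · simp only [h1]
    refine (hf _ _ (jn_cross S J hR x k)).trans ?_
    rw [h5]
    change _ = xor (decide (J (D.p e) (D.p x))) _
    cases sd (if e ∈ S then 3 else 1) k <;> simp [h4]

lemma good (hP : D.Planar) {S : Finset (Fin D.n)} (ha : D.Adequate S) (hh : D.Homogeneous S)
    (hE : ¬ Elementary D) : (toSys h).Good := by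
  by_contra g
  obtain ⟨t1, t2⟩ := tait h hP (Finset.univ.filter fun i => col (i, 0) = true) (by simp)
  have H : (toSys h).Hyp S := ⟨ha, hh, Sys.tpf_of t1 t2, g⟩
  refine hE (Exc.elementary D ⟨col, h, fun e => ?_⟩)
  rcases H.exc e with g | ⟨e', g1, g2, g3, g4⟩
  · obtain ⟨χ, g⟩ := sep_of h Iff.rfl (Sys.Par.refl S e) g
    exact Or.inl ⟨_, χ, by split_ifs <;> simp, g⟩
  · have h1 := H.type g2
    obtain ⟨χ, g5⟩ := sep_of h h1 g2 g3
    obtain ⟨χ', g6⟩ := sep_of h (by simp [Finset.mem_symmDiff, h1]) (Sys.two_par H.had g1 g2) g4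
    refine Or.inr ⟨e', g1, ?_, ?_⟩
    · have a := t1.par (H.had e) g2
      have b := t2.par (H.had e) g2
      simp only [Finset.mem_symmDiff, Finset.mem_compl, Finset.mem_filter, Finset.mem_univ,
        true_and, ← h1] at a b
      revert a b
      by_cases he : e ∈ S <;> cases col (e, 0) <;> cases col (e', 0) <;> simp [he]
    · by_cases he : e ∈ S
      · exact ⟨χ', χ, by simpa [Finset.mem_symmDiff, he] using g6, by simpa [he] using g5⟩
      · exact ⟨χ, χ', by simpa [he] using g5, by simpa [Finset.mem_symmDiff, he] using g6⟩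

end Diagram

open Diagram in
theorem main (D : Diagram) (hP : D.Planar) (o : D.Orientation) (S : Finset (Fin D.n))
    (ha : D.Adequate S) (hh : D.Homogeneous S) (hE : ¬ Elementary D) :
    ∃ i j : ℤ, HasZ2 (dif o (i - 1) i j) (dif o i (i + 1) j) := by
  obtain ⟨col, h⟩ := exists_col hP o
  obtain ⟨d, x, y, ψ, hd, hdd, h1, h2, h3⟩ : ∃ (d : (D.Enh → ℤ) →ₗ[ℤ] (D.Enh → ℤ))
      (x y : D.Enh → ℤ) (ψ : (D.Enh → ℤ) →ₗ[ℤ] ZMod 2), (∀ v z, d v z = ∑ w, D.coef w z * v w) ∧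
      (∀ v, d (d v) = 0) ∧ d x = 2 • y ∧ (∀ v, ψ (d v) = 0) ∧ ψ y = 1 := by
    obtain ⟨x, y, ψ, h1⟩ := (good h hP ha hh hE).bock
    exact ⟨(toSys h).d, x, y, ψ, fun v z => Finset.sum_congr
      (congrArg (fun i => @Finset.univ D.Enh i) (Subsingleton.elim _ _)) fun _ _ => rfl,
      (toSys h).d_d, h1⟩
  have hc : ∀ w z : D.Enh, D.coef w z ≠ 0 → hdeg o z = hdeg o w + 1 ∧ qdeg o z = qdeg o w := by
    intro w z g
    obtain ⟨i, -, g⟩ := Finset.exists_ne_zero_of_sum_ne_zero g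
    have g1 : (toSys h).Inc i w z := by
      by_contra g1
      exact g (if_neg g1)
    obtain ⟨g2, g3⟩ := g1.deg
    change (D.circles z true : ℤ) - D.circles z false + 1 =
      (D.circles w true : ℤ) - D.circles w false at g3
    simp only [hdeg, qdeg, g2]
    omega
  let ext : ∀ i j, Chain o i j →ₗ[ℤ] (D.Enh → ℤ) := fun i j =>
    { toFun v z := if g : hdeg o z = i ∧ qdeg o z = j then v ⟨z, g⟩ else 0
      map_add' v w := funext fun z => by simp only [Pi.add_apply]; split_ifs <;> simp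
      map_smul' c v := funext fun z => by simp only [Pi.smul_apply]; split_ifs <;> simp }
  have hdif : ∀ i i' j (v : D.Enh → ℤ) (z : {x : D.Enh // hdeg o x = i' ∧ qdeg o x = j}),
      i' = i + 1 → dif o i i' j (fun w => v w.1) z = d v z.1 := by
    intro i i' j v z e
    rw [hd]
    simp only [dif, LinearMap.toAddMonoidHom_coe, Matrix.mulVecLin_apply, Matrix.mulVec, dotProduct]
    rw [← Finset.sum_subtype (Finset.univ.filter fun w => hdeg o w = i ∧ qdeg o w = j) (by simp)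
      fun w => D.coef w z.1 * v w]
    refine Finset.sum_subset (Finset.subset_univ _) fun w _ hw => mul_eq_zero_of_left ?_ _
    by_contra g
    have := hc w z.1 g
    have := z.2
    exact hw (Finset.mem_filter.2 ⟨Finset.mem_univ _, by omega, by omega⟩)
  obtain ⟨t, -, ht⟩ : ∃ t ∈ Finset.univ.image fun z : D.Enh => (hdeg o z, qdeg o z),
      ψ (ext t.1 t.2 fun w => y w.1) ≠ 0 := by
    apply Finset.exists_ne_zero_of_sum_ne_zero
    rw [← map_sum]
    have : ∑ t ∈ Finset.univ.image fun z : D.Enh => (hdeg o z, qdeg o z),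
        (ext t.1 t.2 fun w => y w.1) = y := by
      funext z
      rw [Finset.sum_apply, Finset.sum_eq_single_of_mem (hdeg o z, qdeg o z)
        (Finset.mem_image_of_mem (fun z : D.Enh => (hdeg o z, qdeg o z)) (Finset.mem_univ z))]
      · exact dif_pos ⟨rfl, rfl⟩
      · exact fun t _ g => dif_neg fun g' => g (Prod.ext g'.1.symm g'.2.symm)
    rw [this, h3]
    decide
  refine ⟨t.1, t.2, summand _ _ (fun w => x w.1) (fun w => y w.1) (ψ ∘ₗ ext t.1 t.2).toAddMonoidHom ?_ ?_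
    (fun a => ?_) ?_⟩
  · funext z
    rw [hdif _ _ _ _ _ rfl]
    have := congrFun (hdd x) z.1
    rw [h1, map_nsmul] at this
    simpa using this
  · funext z
    rw [hdif _ _ _ _ _ (by omega), h1]
    rfl
  · rw [← h2 (ext _ _ a), LinearMap.toAddMonoidHom_coe, LinearMap.comp_apply]
    congr 1
    funext z
    have e : a = fun w => ext _ _ a w.1 := funext fun w => by simp [ext, w.2]
    by_cases g : hdeg o z = t.1 ∧ qdeg o z = t.2
    · rw [← hdif (t.1 - 1) t.1 t.2 _ ⟨z, g⟩ (by omega), ← e]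
      exact dif_pos g
    · rw [hd, Finset.sum_eq_zero]
      · exact dif_neg g
      · intro w _
        by_cases g' : hdeg o w = t.1 - 1 ∧ qdeg o w = t.2
        · refine mul_eq_zero_of_left ?_ _
          by_contra g''
          have := hc w z g''
          exact g ⟨by omega, by omega⟩
        · exact mul_eq_zero_of_right _ (dif_neg g')
  · have : ∀ a : ZMod 2, a ≠ 0 → a = 1 := by decide
    exact this _ ht

end Pool.Agent.MP_f5aac0_gt
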