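import Pool.Agent.MP_f5aac0_gt.Core
import Pool.Agent.MP_f5aac0_gt.Defs

-- part MP_f5aac0_gt.Three
section

/-!
The four configurations of A-edges that force a non-zero pairing: an odd cycle, an even cycle,
three parallel edges, two interleaved pairs of parallel edges.
-/

namespace Pool.Agent.MP_f5aac0_gt

open Classical symmDiff

/-- Two pairs that are matched after one join but not before differ by the joined pair. -/
lemma jn1_cross {A : Type} {R : Setoid A} {p q x y x' y' : A} (hx : Jn1 R p q x x')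
    (hy : Jn1 R p q y y') (hxy : ¬ Jn1 R p q x y) (h : ¬ (R x x' ∧ R y y')) (f : A → ZMod 2)
    (hf : ∀ a b, R a b → f a = f b) : f x + f y + (f x' + f y') = f p + f q := by
  have h2 : ∀ a b c : ZMod 2, a + c + (b + c) = a + b := by decide
  have h3 : ∀ a b c : ZMod 2, c + a + (c + b) = a + b := by decide
  have J := (jn1 R p q).iseqv
  have hpq : Jn1 R p q p q := Or.inr (Or.inl ⟨R.refl _, R.refl _⟩)
  have key : ∀ a a', (R a p ∧ R q a') ∨ (R a q ∧ R p a') → Jn1 R p q a p ∧ f a + f a' = f p + f q := by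
    rintro a a' (g | g)
    · exact ⟨Or.inl g.1, by rw [hf _ _ g.1, hf _ _ g.2]⟩
    · exact ⟨J.trans (Or.inl g.1) (J.symm hpq), by rw [hf _ _ g.1, hf _ _ g.2, add_comm]⟩
  rcases hx with hx | hx <;> rcases hy with hy | hy
  · exact absurd ⟨hx, hy⟩ h
  · rw [hf _ _ hx, h3, (key _ _ hy).2]
  · rw [hf _ _ hy, h2, (key _ _ hx).2]
  · exact absurd (J.trans (key _ _ hx).1 (J.symm (key _ _ hy).1)) hxy

namespace Sys

variable {n : ℕ} {A : Type} {Y : Sys n A} {S₀ : Finset (Fin n)} {r : A}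

variable (Y) in
def Par (S : Finset (Fin n)) (i j : Fin n) : Prop := Y.Joins S j (Y.p i) (Y.q i)

lemma Par.refl (S : Finset (Fin n)) (i : Fin n) : Y.Par S i i := Y.joins_pq S i

lemma Par.symm {S : Finset (Fin n)} {i j : Fin n} (h : Y.Par S i j) : Y.Par S j i :=
  h.elim (fun h => Or.inl ⟨(Y.P S).symm h.1, (Y.P S).symm h.2⟩)
    (fun h => Or.inr ⟨(Y.P S).symm h.2, (Y.P S).symm h.1⟩)

lemma Joins.par {S : Finset (Fin n)} {i j : Fin n} {a b : A} (g : Y.Joins S i a b)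
    (h : Y.Par S i j) : Y.Joins S j a b :=
  g.elim (fun g => Joins.congr Y h ((Y.P S).symm g.1) ((Y.P S).symm g.2))
    (fun g => (Joins.symm Y h).congr Y ((Y.P S).symm g.1) ((Y.P S).symm g.2))

lemma Par.trans {S : Finset (Fin n)} {i j k : Fin n} (h : Y.Par S i j) (g : Y.Par S j k) :
    Y.Par S i k := Joins.par h g

lemma jn1_par {S : Finset (Fin n)} {i j : Fin n} (hi : ¬ Y.P S (Y.p i) (Y.q i)) :
    Jn1 (Y.P S) (Y.p j) (Y.q j) (Y.p i) (Y.q i) ↔ Y.Par S i j := by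
  unfold Jn1 Par Joins
  simp only [hi, false_or]
  exact or_congr (and_congr_right' ⟨(Y.P S).symm, (Y.P S).symm⟩)
    (and_congr_right' ⟨(Y.P S).symm, (Y.P S).symm⟩)

lemma Par.jn1 {S : Finset (Fin n)} {i j : Fin n} (h : Y.Par S i j) {R : Setoid A}
    (hR : ∀ a b, Y.P S a b → R a b) {a b : A} (g : Jn1 R (Y.p i) (Y.q i) a b) :
    Jn1 R (Y.p j) (Y.q j) a b :=
  Jn1_le (R' := MP_f5aac0_gt.jn1 R (Y.p j) (Y.q j)) (fun _ _ g => Or.inl g)
    (Or.inr (h.imp (fun h => ⟨hR _ _ h.1, R.symm (hR _ _ h.2)⟩)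
      (fun h => ⟨hR _ _ h.1, R.symm (hR _ _ h.2)⟩))) g

lemma Par.fun {S : Finset (Fin n)} {i j : Fin n} (h : Y.Par S i j) (f : A → ZMod 2)
    (hf : ∀ a b, Y.P S a b → f a = f b) : f (Y.p i) + f (Y.q i) = f (Y.p j) + f (Y.q j) :=
  h.elim (fun h => by rw [hf _ _ h.1, hf _ _ h.2]) (fun h => by rw [hf _ _ h.1, hf _ _ h.2, add_comm])

lemma Par.jn {S F : Finset (Fin n)} {i j : Fin n} (h : Y.Par S i j) (hj : j ∈ F) :
    Y.Jn S F (Y.p i) (Y.p j) :=
  h.elim (fun h => Y.Jn_base _ h.1)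
    (fun h => (Y.Jn _ _).trans (Y.Jn_base _ h.1) ((Y.Jn _ _).symm (Y.Jn_edge _ hj)))

/-- After one merge, the loops are the parallel edges. -/
lemma loop_par {S : Finset (Fin n)} (had : Y.Adequate S) (i j : Fin n) :
    Y.P (S ∆ {j}) (Y.p i) (Y.q i) ↔ Y.Par S i j := by
  rw [Y.flip_merge (had j), jn1_par (had i)]

lemma loop_par' {S : Finset (Fin n)} (had : Y.Adequate S) (i : Fin n) {j : Fin n} (hj : j ∉ S) :
    Y.P (insert j S) (Y.p i) (Y.q i) ↔ Y.Par S i j := by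
  rw [← flip_notMem hj, loop_par had]

variable (Y) in
def Ev (S Z : Finset (Fin n)) : Prop :=
  ∀ f : A → ZMod 2, (∀ a b, Y.P S a b → f a = f b) → ∑ i ∈ Z, (f (Y.p i) + f (Y.q i)) = 0

lemma sdiff_insert' {S : Finset (Fin n)} {i : Fin n} (hi : i ∉ S₀) :
    insert i S \ S₀ = insert i (S \ S₀) := Finset.insert_sdiff_of_notMem _ hi

lemma sum_tr (S : Finset (Fin n)) (T : Multiset A) (𝓕 : Set (Finset (Fin n))) (I : Finset (Fin n))
    (h1 : ∀ i, (i ∉ S ∧ ¬ Y.P S (Y.p i) (Y.q i) ∧ insert i S ∈ 𝓕) ↔ i ∈ I) (h2 : ∀ i ∈ I, ¬ Y.Jn S₀ S (Y.p i) (Y.q i))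
    (h3 : ∀ f : A → ZMod 2, (∀ a b, Y.Jn S₀ S a b → f a = f b) →
      ∑ i ∈ I, (f (Y.p i) + f (Y.q i)) = 0) :
    ∑ i, (if (i ∉ S ∧ ¬ Y.P S (Y.p i) (Y.q i) ∧ insert i S ∈ 𝓕) ∧
      Tr (Y.Jn S₀ (insert i S)) (fun _ => True) T then (1 : ZMod 2) else 0) = 0 := by
  refine (Finset.sum_subset (Finset.subset_univ I) fun i _ hi => if_neg fun g =>
    hi ((h1 i).1 g.1)).symm.trans ?_
  refine (Finset.sum_congr rfl fun i hi => (if_congr (and_iff_right ((h1 i).2 hi)) rfl rfl).trans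
    (tr_join (Y.Jn_insert S₀ S i) (h2 i hi) T)).trans ?_
  split_ifs
  · exact h3 (fun a => if Hit (Y.Jn S₀ S) T a then 0 else 1) fun a b g => if_congr
      ⟨fun g' => g'.congr g, fun g' => g'.congr ((Y.Jn _ _).symm g)⟩ rfl rfl
  · simp

namespace Lab

variable [Fintype A] (L : Y.Lab S₀ r) {α : Finset (Fin n) → ZMod 2}
  {lam : Finset (Fin n) → A → ZMod 2}

lemma sum_W (𝓕 : Set (Finset (Fin n))) (I : Finset (Fin n)) (x : Fin n → Y.Enh)
    (h1 : ∀ i ∈ I, L.W 𝓕 (x i) i)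
    (h2 : ∀ i y, L.W 𝓕 y i → L.zf α lam y ≠ 0 → i ∈ I ∧ y = x i) :
    ∑ i, ∑ y, (if L.W 𝓕 y i then L.zf α lam y else 0) = ∑ i ∈ I, L.zf α lam (x i) := by
  rw [← Finset.sum_subset (Finset.subset_univ I)]
  · refine Finset.sum_congr rfl fun i hi => ?_
    rw [Finset.sum_eq_single (x i), if_pos (h1 i hi)]
    · intro y _ hy
      rw [ite_eq_right_iff]
      intro g
      by_contra g'
      exact hy (h2 i y g g').2
    · simp
  · intro i _ hi
    refine Finset.sum_eq_zero fun y _ => ?_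
    rw [ite_eq_right_iff]
    intro g
    by_contra g'
    exact hi (h2 i y g g').1

omit [Fintype A] in
lemma enh_ext {x y : Y.Enh} (h : x.1.1 = y.1.1) (hx : ∀ a, ¬ Y.Jn S₀ S₀ᶜ r a → x.1.2 a = L.l a)
    (hy : ∀ a, ¬ Y.Jn S₀ S₀ᶜ r a → y.1.2 a = L.l a)
    (hK : ∀ a, Y.Jn S₀ S₀ᶜ r a → x.1.2 a = y.1.2 a) : x = y := by
  refine Subtype.ext (Prod.ext h (funext fun a => ?_))
  by_cases g : Y.Jn S₀ S₀ᶜ r a
  · exact hK a g
  · rw [hx a g, hy a g]

include L in
theorem good_odd (had : Y.Adequate S₀) (Z : Finset (Fin n)) (hZ : ∀ i ∈ Z, i ∉ S₀)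
    (hK : ∀ i ∈ Z, Y.Jn S₀ S₀ᶜ r (Y.p i)) (hE : Y.Ev S₀ Z) (hc : (Z.card : ZMod 2) = 1) :
    Y.Good := by
  have hKq : ∀ i ∈ Z, Y.Jn S₀ S₀ᶜ r (Y.q i) := fun i hi =>
    (Y.Jn _ _).trans (hK i hi) (Y.Jn_edge _ (Finset.mem_compl.2 (hZ i hi)))
  have hO : Y.Ok S₀ r S₀ := ⟨subset_rfl, fun i h h' => absurd h h'⟩
  have hD : Y.Dat S₀ r (fun S => if S = S₀ then 1 else 0) (fun _ _ => 0) := by
    refine ⟨fun S h => ?_, by simp, by simp, fun S => Finset.sum_eq_zero fun i hi => ?_, by simp⟩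
    · have : S = S₀ := by simpa using h
      exact this ▸ hO
    · split_ifs with h1 h2
      · simp
      · exact absurd (Finset.insert_erase hi ▸ Y.merge_pq (Finset.notMem_erase i S)
          (h2 ▸ had i)) h1
      · rfl
  have hmem : ∀ S i, S₀ ⊆ S → i ∉ S → (∃ e ∈ Z, insert i S = insert e S₀) → S = S₀ ∧ i ∈ Z := by
    rintro S i h1 h2 ⟨e, he, h3⟩
    have h4 : i = e := (Finset.mem_insert.1 (h3 ▸ Finset.mem_insert_self i S)).resolve_right
      fun g => h2 (h1 g)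
    subst h4
    exact ⟨by rw [← Finset.erase_insert h2, h3, Finset.erase_insert (hZ i he)], he⟩
  refine L.good_of had hD {S | ∃ e ∈ Z, S = insert e S₀} ?_ (fun S T hS => ?_) ?_
  · rintro S ⟨e, he, rfl⟩
    exact ⟨Finset.subset_insert _ _, fun i hi h => by
      rw [(Finset.mem_insert.1 hi).resolve_right h]; exact hK e he⟩
  · by_cases h : S = S₀
    · subst h
      exact sum_tr S T _ Z (fun i => ⟨fun g => (hmem S i hS g.1 g.2.2).2,
        fun hi => ⟨hZ i hi, had i, i, hi, rfl⟩⟩) (fun i hi g => had i (L.ab (Y.Jn_edge _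
          (Finset.mem_compl.2 (hZ i hi))) g)) fun f hf => hE f fun a b g => hf a b (Y.Jn_base _ g)
    · exact Finset.sum_eq_zero fun i _ => if_neg fun g => h (hmem S i hS g.1.1 g.1.2.2).1
  · rw [L.sum_W _ Z (fun _ => ⟨(S₀, L.l), L.l_inv⟩)]
    · rw [Finset.sum_congr rfl fun i _ => L.zf_zero hD (x := ⟨(S₀, L.l), L.l_inv⟩) hO
        (fun _ _ => rfl) L.lk]
      simpa using hc
    · intro i hi
      refine ⟨hZ i hi, ⟨i, hi, rfl⟩, fun _ _ => rfl, (L.lk _ (hK i hi)).trans (L.lk _ (hKq i hi)).symm,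
        ?_, fun a ha => ⟨a, (Y.Jn _ _).refl a, L.lk a ha⟩, fun a b _ g _ _ => ?_⟩
      · simp [L.lk _ (hK i hi), had i]
      · refine Y.Jn_ind (Y.P _) (fun _ _ => Y.merge_le (hZ i hi) (had i)) (fun j hj => ?_) g
        have : j = i := by
          have := Finset.mem_sdiff.1 hj
          exact (Finset.mem_insert.1 this.1).resolve_right this.2
        rw [this]
        exact Y.merge_pq (hZ i hi) (had i)
    · intro i y hW hz
      obtain ⟨h1, -, h2 | ⟨t, h2, -⟩⟩ := L.zf_ne hD hz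
      · have h3 := hmem _ i h1.1 hW.1 hW.2.1
        exact ⟨h3.2, L.enh_ext h3.1 hW.2.2.1 (fun _ _ => rfl) fun a ha =>
          (h2.2 a ha).trans (L.lk a ha).symm⟩
      · exact absurd rfl h2

include L in
theorem good_even (had : Y.Adequate S₀) (Z : Finset (Fin n)) (hZ : ∀ i ∈ Z, i ∉ S₀)
    (hK : ∀ i ∈ Z, Y.Jn S₀ S₀ᶜ r (Y.p i)) (hE : Y.Ev S₀ Z)
    (hP : ∀ i ∈ Z, ∀ j ∈ Z, Y.Par S₀ i j → i = j) {e : Fin n} (he : e ∈ Z)
    (hc : (Z.card : ZMod 2) = 0) : Y.Good := by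
  have hKq : ∀ i ∈ Z, Y.Jn S₀ S₀ᶜ r (Y.q i) := fun i hi =>
    (Y.Jn _ _).trans (hK i hi) (Y.Jn_edge _ (Finset.mem_compl.2 (hZ i hi)))
  have hO : ∀ g, g ∉ S₀ → Y.Par S₀ g e → Y.Ok S₀ r (insert g S₀) := fun g _ h =>
    ⟨Finset.subset_insert _ _, fun i hi h' => by
      rw [(Finset.mem_insert.1 hi).resolve_right h']
      exact (Y.Jn _ _).trans (hK e he) ((Y.Jn _ _).symm (h.jn (Finset.mem_compl.2 (hZ e he))))⟩
  have hD : Y.Dat S₀ r (fun S => if ∃ g ∉ S₀, Y.Par S₀ g e ∧ S = insert g S₀ then 1 else 0)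
      (fun _ _ => 0) := by
    refine ⟨fun S h => ?_, by simp, by simp, fun S => ?_, by simp⟩
    · obtain ⟨g, h1, h2, rfl⟩ : ∃ g ∉ S₀, Y.Par S₀ g e ∧ S = insert g S₀ := by
        by_contra h'
        exact h (if_neg h')
      exact hO g h1 h2
    · by_cases h : ∃ i ∈ S, ¬ Y.P S (Y.p i) (Y.q i) ∧
          ∃ g ∉ S₀, Y.Par S₀ g e ∧ S.erase i = insert g S₀
      · obtain ⟨i, hi, h1, g, h2, h3, h4⟩ := h
        have hS : S = insert i (insert g S₀) := by rw [← h4, Finset.insert_erase hi]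
        have hi' : i ∉ insert g S₀ := h4 ▸ Finset.notMem_erase i S
        have hig : i ≠ g := fun e => hi' (e ▸ Finset.mem_insert_self _ _)
        have hi0 : i ∉ S₀ := fun e => hi' (Finset.mem_insert_of_mem e)
        have h5 : Y.Par S₀ i g := by
          rw [← loop_par' had i h2]
          by_contra h6
          exact h1 (hS ▸ Y.merge_pq hi' h6)
        have hg' : g ∉ insert i S₀ := by simp [h2, hig.symm]
        have h6 : ¬ Y.P S (Y.p g) (Y.q g) := by
          rw [hS, Finset.insert_comm]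
          exact Y.split_not hg' ((loop_par' had g hi0).2 h5.symm)
        have h7 : S.erase g = insert i S₀ := by
          rw [hS, Finset.insert_comm, Finset.erase_insert hg']
        rw [Finset.sum_eq_add_of_mem i g hi (by simp [hS]) hig, if_neg h1, if_neg h6,
          if_pos ⟨g, h2, h3, h4⟩, if_pos ⟨i, hi0, h5.trans h3, h7⟩]
        · decide
        · intro j hj hne
          have hj0 : j ∈ S₀ := by
            rw [hS] at hj
            simpa [hne.1, hne.2] using hj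
          split_ifs with h8 h9
          · simp
          · obtain ⟨g', _, _, h10⟩ := h9
            exact absurd (h10 ▸ Finset.mem_insert_of_mem hj0) (Finset.notMem_erase j S)
          · rfl
      · refine Finset.sum_eq_zero fun i hi => ?_
        split_ifs with h1 h2
        · simp
        · exact absurd ⟨i, hi, h1, h2⟩ h
        · rfl
  let 𝓕 : Set (Finset (Fin n)) := {S | S₀ ⊆ S ∧ S \ S₀ ⊆ Z ∧ (S \ S₀).card = 2}
  have hF : ∀ S ∈ 𝓕, Y.Ok S₀ r S := fun S hS =>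
    ⟨hS.1, fun i hi h => hK i (hS.2.1 (Finset.mem_sdiff.2 ⟨hi, h⟩))⟩
  have hmem : ∀ g ∉ S₀, ∀ i, i ∉ insert g S₀ →
      (insert i (insert g S₀) ∈ 𝓕 ↔ i ∈ Z ∧ g ∈ Z) := by
    intro g hg i hi
    have hig : i ≠ g := fun e => hi (e ▸ Finset.mem_insert_self _ _)
    have hi0 : i ∉ S₀ := fun e => hi (Finset.mem_insert_of_mem e)
    simp [𝓕, sdiff_insert' hi0, sdiff_insert' hg, Finset.insert_subset_iff, hig, hi0, hg,
      (Finset.subset_insert g S₀).trans (Finset.subset_insert i _)]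
  have hnl : ∀ g ∈ Z, ∀ i ∈ Z.erase g, i ∉ insert g S₀ ∧ ¬ Y.P (insert g S₀) (Y.p i) (Y.q i) := by
    intro g hg i hi
    rw [Finset.mem_erase] at hi
    exact ⟨by simp [hi.1, hZ i hi.2], fun h => hi.1 (hP i hi.2 g hg
      ((loop_par' had i (hZ g hg)).1 h))⟩
  refine L.good_of had hD 𝓕 hF (fun S T hS => ?_) ?_
  · by_cases h : ∃ g ∈ Z, S = insert g S₀
    · obtain ⟨g, hg, rfl⟩ := h
      refine sum_tr _ T _ (Z.erase g) (fun i => ⟨fun h => ?_, fun hi => ?_⟩) (fun i hi h => ?_)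
        fun f hf => ?_
      · exact Finset.mem_erase.2 ⟨fun e => h.1 (e ▸ Finset.mem_insert_self _ _),
          ((hmem g (hZ g hg) i h.1).1 h.2.2).1⟩
      · exact ⟨(hnl g hg i hi).1, (hnl g hg i hi).2,
          (hmem g (hZ g hg) i (hnl g hg i hi).1).2 ⟨Finset.mem_of_mem_erase hi, hg⟩⟩
      · have hi' := Finset.mem_of_mem_erase hi
        have hO' : Y.Ok S₀ r (insert g S₀) := ⟨Finset.subset_insert _ _, fun i hi h' => by
          rw [(Finset.mem_insert.1 hi).resolve_right h']; exact hK g hg⟩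
        refine (hnl g hg i hi).2 (Y.Jn_ind (Y.P _) (fun _ _ => Y.merge_le (hZ g hg) (had g))
          (fun j hj => ?_) (L.jK hO' (hK i hi') (hKq i hi') h))
        have := Finset.mem_sdiff.1 hj
        rw [(Finset.mem_insert.1 this.1).resolve_right this.2]
        exact Y.merge_pq (hZ g hg) (had g)
      · have h1 := hE f fun a b g' => hf a b (Y.Jn_base _ g')
        rw [← Finset.add_sum_erase Z _ hg, hf _ _ (Y.Jn_edge _ (Finset.mem_insert_self g S₀))] at h1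
        have h2 : ∀ a : ZMod 2, a + a = 0 := by decide
        rwa [h2, zero_add] at h1
    · refine Finset.sum_eq_zero fun i _ => if_neg ?_
      rintro ⟨⟨h1, -, -, h2, h3⟩, -⟩
      have hi0 : i ∉ S₀ := fun e => h1 (hS e)
      rw [sdiff_insert' hi0] at h2 h3
      rw [Finset.card_insert_of_notMem (by simp [h1])] at h3
      obtain ⟨g, hg⟩ := Finset.card_eq_one.1 (by omega : (S \ S₀).card = 1)
      refine h ⟨g, h2 (by simp [hg]), ?_⟩
      rw [← Finset.sdiff_union_of_subset hS, hg]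
      rfl
  · have hO' := hO e (hZ e he) (Par.refl _ _)
    let x : Y.Enh := ⟨(insert e S₀, L.l), fun a b h =>
      Jn1_le (R' := Setoid.ker L.l) L.l_inv ((L.lk _ (hK e he)).trans (L.lk _ (hKq e he)).symm)
        ((Y.merge_iff (hZ e he) (had e) a b).1 h)⟩
    rw [L.sum_W _ (Z.erase e) (fun _ => x)]
    · rw [Finset.sum_congr rfl fun i _ => L.zf_zero hD (x := x) hO' (fun _ _ => rfl) L.lk,
        if_pos ⟨e, hZ e he, Par.refl _ _, rfl⟩, Finset.sum_const, nsmul_eq_mul, mul_one]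
      rw [← Finset.card_erase_add_one he] at hc
      push_cast at hc
      revert hc
      generalize ((Z.erase e).card : ZMod 2) = a
      revert a
      decide
    · intro i hi
      have hi' := Finset.mem_of_mem_erase hi
      obtain ⟨h1, h2⟩ := hnl e he i hi
      refine ⟨h1, (hmem e (hZ e he) i h1).2 ⟨hi', he⟩, fun _ _ => rfl,
        (L.lk _ (hK i hi')).trans (L.lk _ (hKq i hi')).symm,
        ?_, fun a ha => ⟨a, (Y.Jn _ _).refl a, L.lk a ha⟩, fun a b _ g _ _ => ?_⟩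
      · simp [x, L.lk _ (hK i hi'), h2]
      · refine Y.Jn_ind (Y.P _) (fun _ _ h => Y.merge_le h1 h2 (Y.merge_le (hZ e he) (had e) h))
          (fun j hj => ?_) g
        have := Finset.mem_sdiff.1 hj
        rcases Finset.mem_insert.1 this.1 with h3 | h3
        · rw [h3]; exact Y.merge_pq h1 h2
        · rw [(Finset.mem_insert.1 h3).resolve_right this.2]
          exact Y.merge_le h1 h2 (Y.merge_pq (hZ e he) (had e))
    · intro i y hW hz
      obtain ⟨-, -, h2 | ⟨t, h2, -⟩⟩ := L.zf_ne hD hz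
      · obtain ⟨g, h3, h4, h5⟩ : ∃ g ∉ S₀, Y.Par S₀ g e ∧ y.1.1 = insert g S₀ := by
          by_contra h'
          exact h2.1 (if_neg h')
        have h6 := hW.1
        have h7 := hW.2.1
        rw [h5] at h6 h7
        have h8 := (hmem g h3 i h6).1 h7
        have h9 := hP g h8.2 e he h4
        subst h9
        exact ⟨Finset.mem_erase.2 ⟨fun e => h6 (e ▸ Finset.mem_insert_self _ _), h8.1⟩,
          L.enh_ext h5 hW.2.2.1 (fun _ _ => rfl) fun a ha => (h2.2 a ha).trans (L.lk a ha).symm⟩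
      · exact absurd rfl h2

end Lab

end Sys

end Pool.Agent.MP_f5aac0_gt

/-!
The cycle in cube degree two, and the configurations of parallel edges.
-/

namespace Pool.Agent.MP_f5aac0_gt

open Classical symmDiff

namespace Sys

variable {n : ℕ} {A : Type} {Y : Sys n A} {S₀ : Finset (Fin n)} {r : A}

variable (Y) in
/-- Three parallel edges bound three regions. -/
def TP : Prop := ∀ S i j k, i ∉ S → j ∉ S → k ∉ S → i ≠ j → i ≠ k → j ≠ k →
  ¬ Y.P S (Y.p i) (Y.q i) → Y.Par S k i → Y.Par S k j → Y.P (insert i (insert j S)) (Y.p k) (Y.q k)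

variable (Y S₀) in
def NoTri : Prop := ∀ a b c, a ∉ S₀ → b ∉ S₀ → c ∉ S₀ → ¬ Y.Par S₀ a b → ¬ Y.Par S₀ a c →
  ¬ Y.Par S₀ b c → ¬ Y.P (insert a (insert b S₀)) (Y.p c) (Y.q c)

lemma loop_comm {S : Finset (Fin n)} {i j : Fin n} (hi : i ∉ S) (hj : j ∉ S) (hij : i ≠ j)
    (a : Y.P S (Y.p i) (Y.q i)) (b : Y.P (insert i S) (Y.p j) (Y.q j)) :
    Y.P (insert j S) (Y.p i) (Y.q i) := by
  by_contra a'
  have hj' : j ∉ insert i S := by simp [hj, hij.symm]
  have hi' : i ∉ insert j S := by simp [hi, hij]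
  exact Y.split_not hi a (Y.split_le hj' b (Finset.insert_comm i j S ▸ Y.merge_pq hi' a'))

lemma pair_eq {e g e' g' : Fin n} (he : e ∉ S₀) (hg : g ∉ S₀) (heg : e ≠ g)
    (h : insert e (insert g S₀) = insert e' (insert g' S₀)) :
    (e = e' ∧ g = g') ∨ (e = g' ∧ g = e') := by
  have h1 : e ∈ insert e' (insert g' S₀) := h ▸ by simp
  have h2 : g ∈ insert e' (insert g' S₀) := h ▸ by simp
  simp only [Finset.mem_insert, he, hg, or_false] at h1 h2
  rcases h1 with rfl | rfl <;> rcases h2 with rfl | rfl <;> simp_all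

lemma Par.ne {e g : Fin n} (h : ¬ Y.Par S₀ e g) : e ≠ g := fun h' => h (h' ▸ Par.refl _ _)

variable (Y S₀) in
def parS : Setoid (Fin n) := ⟨Y.Par S₀, Par.refl S₀, Par.symm, Par.trans⟩

variable (Y S₀) in
noncomputable def bs (e₁ e : Fin n) : Fin n :=
  if Y.Par S₀ e e₁ then e₁ else (Quotient.mk (Y.parS S₀) e).out

lemma bs_par (e₁ e : Fin n) : Y.Par S₀ (Y.bs S₀ e₁ e) e := by
  unfold bs
  split_ifs with h
  · exact h.symm
  · exact Quotient.mk_out (s := Y.parS S₀) e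

lemma bs_congr (e₁ : Fin n) {e e' : Fin n} (h : Y.Par S₀ e e') : Y.bs S₀ e₁ e = Y.bs S₀ e₁ e' := by
  have h1 : Y.Par S₀ e e₁ ↔ Y.Par S₀ e' e₁ := ⟨h.symm.trans, h.trans⟩
  have h2 : Quotient.mk (Y.parS S₀) e = Quotient.mk (Y.parS S₀) e' := Quotient.sound h
  simp only [bs, h1, h2]

variable (Y S₀ r) in
noncomputable def eta (e₁ e : Fin n) (a : A) : ZMod 2 :=
  if Y.Jn S₀ S₀ᶜ r (Y.p e) ∧ e ≠ Y.bs S₀ e₁ e ∧
    Y.P (insert e (insert (Y.bs S₀ e₁ e) S₀)) a (Y.q (Y.bs S₀ e₁ e)) then 1 else 0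

variable (Y S₀ r) in
noncomputable def mu (e₁ e g : Fin n) : ZMod 2 :=
  Y.eta S₀ r e₁ g (Y.p (Y.bs S₀ e₁ e)) + Y.eta S₀ r e₁ g (Y.q (Y.bs S₀ e₁ e)) +
    (Y.eta S₀ r e₁ e (Y.p g) + Y.eta S₀ r e₁ e (Y.q g))

variable (Y S₀ r) in
noncomputable def lam2 (e₁ : Fin n) (S : Finset (Fin n)) (a : A) : ZMod 2 :=
  if S₀ ⊆ S ∧ (S \ S₀).card = 2 ∧ ∀ i ∈ S \ S₀, ∀ j ∈ S \ S₀, Y.Par S₀ i j then
    ∑ i ∈ S \ S₀, Y.eta S₀ r e₁ i a else 0

variable (Y S₀ r) in
noncomputable def al2 (e₁ : Fin n) (S : Finset (Fin n)) : ZMod 2 :=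
  if h : ∃ x : Fin n × Fin n, x.1 ∉ S₀ ∧ x.2 ∉ S₀ ∧ ¬ Y.Par S₀ x.1 x.2 ∧
    S = insert x.1 (insert x.2 S₀) then Y.mu S₀ r e₁ h.choose.1 h.choose.2 else 0

variable {e₁ : Fin n}

lemma sdiff_two {e g : Fin n} (he : e ∉ S₀) (hg : g ∉ S₀) : insert e (insert g S₀) \ S₀ = {e, g} := by
  rw [sdiff_insert' he, sdiff_insert' hg]
  simp

lemma sub_two (e g : Fin n) : S₀ ⊆ insert e (insert g S₀) :=
  (Finset.subset_insert g S₀).trans (Finset.subset_insert e _)

lemma lam2_par {e e' : Fin n} (he : e ∉ S₀) (he' : e' ∉ S₀) (hne : e ≠ e') (h : Y.Par S₀ e e')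
    (a : A) : Y.lam2 S₀ r e₁ (insert e (insert e' S₀)) a = Y.eta S₀ r e₁ e a + Y.eta S₀ r e₁ e' a := by
  unfold lam2
  rw [sdiff_two he he', if_pos, Finset.sum_pair hne]
  refine ⟨sub_two _ _, Finset.card_pair hne, ?_⟩
  simp [Par.refl, h, h.symm]

lemma lam2_np {e g : Fin n} (he : e ∉ S₀) (hg : g ∉ S₀) (h : ¬ Y.Par S₀ e g) (a : A) :
    Y.lam2 S₀ r e₁ (insert e (insert g S₀)) a = 0 := by
  unfold lam2
  rw [sdiff_two he hg, if_neg fun h' => h (h'.2.2 e (by simp) g (by simp))]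

lemma lam2_ne {S : Finset (Fin n)} {a : A} (h : Y.lam2 S₀ r e₁ S a ≠ 0) :
    ∃ e e', e ∉ S₀ ∧ e' ∉ S₀ ∧ e ≠ e' ∧ Y.Par S₀ e e' ∧ S = insert e (insert e' S₀) := by
  unfold lam2 at h
  rw [ne_eq, ite_eq_right_iff, Classical.not_imp] at h
  obtain ⟨⟨h1, h2, h3⟩, -⟩ := h
  obtain ⟨e, e', hne, h4⟩ := Finset.card_eq_two.1 h2
  have he : e ∈ S \ S₀ := by simp [h4]
  have he' : e' ∈ S \ S₀ := by simp [h4]
  refine ⟨e, e', (Finset.mem_sdiff.1 he).2, (Finset.mem_sdiff.1 he').2, hne, h3 e he e' he', ?_⟩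
  rw [← Finset.sdiff_union_of_subset h1, h4]
  simp

lemma al2_par {e e' : Fin n} (he : e ∉ S₀) (he' : e' ∉ S₀) (hne : e ≠ e') (h : Y.Par S₀ e e') :
    Y.al2 S₀ r e₁ (insert e (insert e' S₀)) = 0 := by
  refine dif_neg ?_
  rintro ⟨x, -, -, h1, h2⟩
  rcases pair_eq he he' hne h2 with ⟨rfl, rfl⟩ | ⟨rfl, rfl⟩
  · exact h1 h
  · exact h1 h.symm

lemma eta_K {e : Fin n} (hb : Y.bs S₀ e₁ e ∉ S₀) {a : A} (h : Y.eta S₀ r e₁ e a ≠ 0) :
    Y.Jn S₀ S₀ᶜ r (Y.p e) ∧ Y.Jn S₀ S₀ᶜ r a := by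
  unfold eta at h
  rw [ne_eq, ite_eq_right_iff, Classical.not_imp] at h
  obtain ⟨⟨h1, -, h2⟩, -⟩ := h
  have hb' := Finset.mem_compl.2 hb
  exact ⟨h1, (Y.Jn _ _).trans h1 ((Y.Jn _ _).trans ((bs_par e₁ e).symm.jn hb')
    ((Y.Jn _ _).trans (Y.Jn_edge _ hb') ((Y.Jn _ _).symm (P_A (sub_two _ _) _ _ h2))))⟩

/-- The two circles made by two parallel edges refine the circle made by one of them. -/
lemma two_iff (had : Y.Adequate S₀) {e e' : Fin n} (he : e ∉ S₀) (he' : e' ∉ S₀) (hne : e ≠ e')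
    (h : Y.Par S₀ e e') (a b : A) : Jn1 (Y.P S₀) (Y.p e) (Y.q e) a b ↔
      Jn1 (Y.P (insert e (insert e' S₀))) (Y.p e) (Y.q e) a b := by
  rw [← Y.split_iff (by simp [he, hne]) ((loop_par' had e he').2 h), Y.merge_iff he' (had e')]
  exact ⟨h.jn1 fun _ _ g => g, h.symm.jn1 fun _ _ g => g⟩

lemma two_not (had : Y.Adequate S₀) {e e' : Fin n} (he : e ∉ S₀) (he' : e' ∉ S₀) (hne : e ≠ e')
    (h : Y.Par S₀ e e') : ¬ Y.P (insert e (insert e' S₀)) (Y.p e) (Y.q e) :=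
  Y.split_not (by simp [he, hne]) ((loop_par' had e he').2 h)

/-- Two parallel edges `g, g'` that are separated by the pair `e, e'`. -/
lemma two_cross (had : Y.Adequate S₀) {e e' g g' : Fin n} (he : e ∉ S₀) (he' : e' ∉ S₀)
    (hne : e ≠ e') (h : Y.Par S₀ e e') (hg : Y.Par S₀ g g') (hge : ¬ Y.Par S₀ g e)
    (hs : ¬ Y.Par (insert e (insert e' S₀)) g g') (f : A → ZMod 2)
    (hf : ∀ a b, Y.P (insert e (insert e' S₀)) a b → f a = f b) :
    f (Y.p g) + f (Y.q g) + (f (Y.p g') + f (Y.q g')) = f (Y.p e) + f (Y.q e) := by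
  have h1 := fun a b (g : Y.P S₀ a b) => (two_iff had he he' hne h a b).1 (Or.inl g)
  have h2 := fun g' => hge ((jn1_par (had g)).1 ((two_iff had he he' hne h _ _).2 g'))
  rcases hg with hg | hg
  · exact jn1_cross (h1 _ _ hg.1) (h1 _ _ hg.2) h2 (fun g => hs (Or.inl g)) f hf
  · rw [add_comm (f (Y.p g'))]
    exact jn1_cross (h1 _ _ hg.1) (h1 _ _ hg.2) h2 (fun g => hs (Or.inr g)) f hf

lemma two_nl (had : Y.Adequate S₀) {e e' g : Fin n} (he : e ∉ S₀) (he' : e' ∉ S₀)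
    (hne : e ≠ e') (h : Y.Par S₀ e e') (hge : ¬ Y.Par S₀ g e) :
    ¬ Y.P (insert e (insert e' S₀)) (Y.p g) (Y.q g) := fun g' =>
  hge ((jn1_par (had g)).1 ((two_iff had he he' hne h _ _).2 (Or.inl g')))

namespace Lab

variable (L : Y.Lab S₀ r)

include L in
lemma par_type (had : Y.Adequate S₀) {i j : Fin n} (hi : i ∉ S₀) (h : Y.Par S₀ i j) : j ∉ S₀ :=
  fun hj => had i (L.ab (Y.Jn_edge _ (Finset.mem_compl.2 hi)) (Joins.jn Y h hj))

include L in
lemma sep_eq (had : Y.Adequate S₀) {e g : Fin n} (he : e ∉ S₀) (hg : g ∉ S₀)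
    (h : ¬ Y.Par S₀ e g) :
    Y.eta S₀ r e₁ e (Y.p g) + Y.eta S₀ r e₁ e (Y.q g) +
      (Y.eta S₀ r e₁ e (Y.p (Y.bs S₀ e₁ g)) + Y.eta S₀ r e₁ e (Y.q (Y.bs S₀ e₁ g))) =
    if (Y.Jn S₀ S₀ᶜ r (Y.p e) ∧ Y.Jn S₀ S₀ᶜ r (Y.p g)) ∧ (e ≠ Y.bs S₀ e₁ e ∧ g ≠ Y.bs S₀ e₁ g) ∧
      ¬ Y.P (insert e (insert (Y.bs S₀ e₁ g) (insert (Y.bs S₀ e₁ e) S₀))) (Y.p g) (Y.q g)
    then 1 else 0 := by
  have hpe := bs_par (Y := Y) (S₀ := S₀) e₁ e
  have hpg := bs_par (Y := Y) (S₀ := S₀) e₁ g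
  have hbe := L.par_type had he hpe.symm
  have hbg := L.par_type had hg hpg.symm
  have h2 : ∀ a : ZMod 2, a + a = 0 := by decide
  by_cases h1 : Y.Jn S₀ S₀ᶜ r (Y.p e) ∧ e ≠ Y.bs S₀ e₁ e
  swap
  · have : ∀ a, Y.eta S₀ r e₁ e a = 0 := fun a => if_neg fun g => h1 ⟨g.1, g.2.1⟩
    rw [if_neg fun g => h1 ⟨g.1.1, g.2.1.1⟩]
    simp [this]
  by_cases h3 : g = Y.bs S₀ e₁ g
  · rw [if_neg fun g => g.2.1.2 h3, ← h3, h2]
  by_cases h4 : Y.Jn S₀ S₀ᶜ r (Y.p g)
  swap
  · have h5 : ∀ a, Y.Jn S₀ S₀ᶜ a (Y.p g) → Y.eta S₀ r e₁ e a = 0 := fun a ha => by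
      by_contra g'
      exact h4 ((Y.Jn _ _).trans (eta_K hbe g').2 ha)
    have h6 := hpg.jn (Finset.mem_compl.2 hg)
    rw [if_neg fun g => h4 g.1.2, h5 _ ((Y.Jn _ _).refl _),
      h5 _ ((Y.Jn _ _).symm (Y.Jn_edge _ (Finset.mem_compl.2 hg))), h5 _ h6,
      h5 _ ((Y.Jn _ _).trans ((Y.Jn _ _).symm (Y.Jn_edge _ (Finset.mem_compl.2 hbg))) h6)]
    rfl
  have hf : ∀ a b, Y.P (insert (Y.bs S₀ e₁ e) (insert e S₀)) a b →
      Y.eta S₀ r e₁ e a = Y.eta S₀ r e₁ e b := fun a b g => by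
    rw [Finset.insert_comm] at g
    exact if_congr (and_congr_right' (and_congr_right'
      ⟨(Y.P _).trans ((Y.P _).symm g), (Y.P _).trans g⟩)) rfl rfl
  have hge : ¬ Y.Par S₀ g (Y.bs S₀ e₁ e) := fun g' => h (g'.trans hpe).symm
  have hge' : ¬ Y.Par S₀ (Y.bs S₀ e₁ g) (Y.bs S₀ e₁ e) := fun g' => hge (hpg.symm.trans g')
  have h5 : Y.P (insert e (insert (Y.bs S₀ e₁ g) (insert (Y.bs S₀ e₁ e) S₀))) (Y.p g) (Y.q g) ↔
      Y.Par (insert (Y.bs S₀ e₁ e) (insert e S₀)) g (Y.bs S₀ e₁ g) := by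
    rw [Finset.insert_comm e, Finset.insert_comm e, Y.merge_iff _
      (two_nl had hbe he h1.2.symm hpe hge'), jn1_par (two_nl had hbe he h1.2.symm hpe hge)]
    simp only [Finset.mem_insert, hbg, or_false, not_or]
    exact ⟨Par.ne hge', fun g' => h (g' ▸ hpg)⟩
  simp only [h1, h3, h4, h5, ne_eq, not_false_eq_true, true_and, and_self]
  split_ifs with h6
  · rw [h6.fun _ hf, h2]
  · rw [two_cross had hbe he h1.2.symm hpe hpg.symm hge h6 _ hf]
    have h7 := two_not had hbe he h1.2.symm hpe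
    rw [Finset.insert_comm] at h7
    unfold eta
    rw [if_neg fun g => h7 g.2.2, if_pos ⟨h1.1, h1.2, (Y.P _).refl _⟩, zero_add]

include L in
lemma mu_symm (had : Y.Adequate S₀) {e g : Fin n} (he : e ∉ S₀) (hg : g ∉ S₀)
    (h : ¬ Y.Par S₀ e g) : Y.mu S₀ r e₁ e g = Y.mu S₀ r e₁ g e := by
  have h1 := L.sep_eq (e₁ := e₁) had he hg h
  have h2 := L.sep_eq (e₁ := e₁) had hg he fun g => h g.symm
  have key : ∀ e g, e ∉ S₀ → g ∉ S₀ → ¬ Y.Par S₀ e g → e ≠ Y.bs S₀ e₁ e → g ≠ Y.bs S₀ e₁ g →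
      Y.P (insert e (insert (Y.bs S₀ e₁ g) (insert (Y.bs S₀ e₁ e) S₀))) (Y.p g) (Y.q g) →
      Y.P (insert g (insert (Y.bs S₀ e₁ e) (insert (Y.bs S₀ e₁ g) S₀))) (Y.p e) (Y.q e) := by
    intro e g he hg h h1 h2 h3
    have hpe := bs_par (Y := Y) (S₀ := S₀) e₁ e
    have hpg := bs_par (Y := Y) (S₀ := S₀) e₁ g
    have hbe := L.par_type had he hpe.symm
    have hbg := L.par_type had hg hpg.symm
    have h4 : ¬ Y.Par S₀ (Y.bs S₀ e₁ g) (Y.bs S₀ e₁ e) := fun g' =>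
      h (hpg.symm.trans (g'.trans hpe)).symm
    rw [Finset.insert_comm (Y.bs S₀ e₁ e)]
    refine loop_comm ?_ ?_ (Par.ne h) (Y.merge_le (by simp [hbg, Par.ne h4])
      (fun g' => h4 ((loop_par' had _ hbe).1 g')) ((loop_par' had e hbe).2 hpe.symm)) h3
    · simp only [Finset.mem_insert, he, h1, or_false]
      exact Par.ne fun g' => h (g'.trans hpg)
    · simp only [Finset.mem_insert, hg, h2, or_false, false_or]
      exact Par.ne fun g' => h (g'.trans hpe).symm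
  rw [if_congr (Q := (Y.Jn S₀ S₀ᶜ r (Y.p g) ∧ Y.Jn S₀ S₀ᶜ r (Y.p e)) ∧
    (g ≠ Y.bs S₀ e₁ g ∧ e ≠ Y.bs S₀ e₁ e) ∧
      ¬ Y.P (insert g (insert (Y.bs S₀ e₁ e) (insert (Y.bs S₀ e₁ g) S₀))) (Y.p e) (Y.q e))
    ⟨fun g' => ⟨g'.1.symm, g'.2.1.symm, fun g'' => g'.2.2
      (key g e hg he (fun g => h g.symm) g'.2.1.2 g'.2.1.1 g'')⟩,
    fun g' => ⟨g'.1.symm, g'.2.1.symm, fun g'' => g'.2.2 (key e g he hg h g'.2.1.2 g'.2.1.1 g'')⟩⟩
    rfl rfl, ← h2] at h1
  have h3 : ∀ a b c d : ZMod 2, a + b = c + d → d + a = b + c := by decide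
  exact h3 _ _ _ _ h1

include L in
lemma al2_np (had : Y.Adequate S₀) {e g : Fin n} (he : e ∉ S₀) (hg : g ∉ S₀)
    (h : ¬ Y.Par S₀ e g) : Y.al2 S₀ r e₁ (insert e (insert g S₀)) = Y.mu S₀ r e₁ e g := by
  have h1 : ∃ x : Fin n × Fin n, x.1 ∉ S₀ ∧ x.2 ∉ S₀ ∧ ¬ Y.Par S₀ x.1 x.2 ∧
    insert e (insert g S₀) = insert x.1 (insert x.2 S₀) := ⟨(e, g), he, hg, h, rfl⟩
  unfold al2
  rw [dif_pos h1]
  rcases pair_eq he hg (Par.ne h) h1.choose_spec.2.2.2 with ⟨h2, h3⟩ | ⟨h2, h3⟩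
  · rw [← h2, ← h3]
  · rw [← h2, ← h3, L.mu_symm had he hg h]

end Lab

end Sys

end Pool.Agent.MP_f5aac0_gt

/-!
Three parallel edges, and two interleaved pairs of parallel edges.
-/

namespace Pool.Agent.MP_f5aac0_gt

open Classical symmDiff

namespace Sys

variable {n : ℕ} {A : Type} {Y : Sys n A} {S₀ : Finset (Fin n)} {r : A} {e₁ : Fin n}

lemma tri_sum (t : Finset (Fin n) → Fin n → ZMod 2)
    (h0 : ∀ S i, t S i ≠ 0 → ∃ e g, e ∉ S₀ ∧ g ∉ S₀ ∧ e ≠ g ∧ S.erase i = insert e (insert g S₀))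
    (h : ∀ S a b c, a ∉ S₀ → b ∉ S₀ → c ∉ S₀ → a ≠ b → a ≠ c → b ≠ c →
      S.erase a = insert b (insert c S₀) → S.erase b = insert a (insert c S₀) →
      S.erase c = insert a (insert b S₀) → a ∈ S → b ∈ S → c ∈ S →
      (Y.Par S₀ a b ∨ (¬ Y.Par S₀ a c ∧ ¬ Y.Par S₀ b c)) → t S a + t S b + t S c = 0)
    (S : Finset (Fin n)) : ∑ i ∈ S, t S i = 0 := by
  by_cases h1 : ∃ i ∈ S, t S i ≠ 0
  swap
  · push Not at h1
    exact Finset.sum_eq_zero h1
  obtain ⟨a, ha, h1⟩ := h1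
  obtain ⟨b, c, hb, hc, hbc, h2⟩ := h0 S a h1
  have hS : S = insert a (insert b (insert c S₀)) := by rw [← h2, Finset.insert_erase ha]
  have h3 : a ∉ insert b (insert c S₀) := h2 ▸ Finset.notMem_erase a S
  simp only [Finset.mem_insert, not_or] at h3
  obtain ⟨hab, hac, ha0⟩ := h3
  have h4 : S.erase b = insert a (insert c S₀) := by
    rw [hS, Finset.insert_comm, Finset.erase_insert (by simp [hb, hbc, Ne.symm hab])]
  have h5 : S.erase c = insert a (insert b S₀) := by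
    rw [hS, Finset.insert_comm b, Finset.insert_comm a,
      Finset.erase_insert (by simp [hc, Ne.symm hbc, Ne.symm hac])]
  have hb' : b ∈ S := by simp [hS]
  have hc' : c ∈ S := by simp [hS]
  have h6 : ∑ i ∈ S, t S i = t S a + t S b + t S c := by
    rw [← Finset.sum_subset (s₁ := {a, b, c}) (by simp [Finset.insert_subset_iff, ha, hb', hc']),
      Finset.sum_insert (by simp [hab, hac]), Finset.sum_pair hbc, add_assoc]
    intro i hi hi'
    by_contra h7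
    obtain ⟨e, g, -, -, -, h8⟩ := h0 S i h7
    have h9 : i ∈ S₀ := by
      rw [hS] at hi
      simp only [Finset.mem_insert] at hi hi'
      simp only [Finset.mem_singleton] at hi'
      tauto
    exact Finset.notMem_erase i S (h8 ▸ sub_two e g h9)
  rw [h6]
  by_cases p1 : Y.Par S₀ a b
  · exact h S a b c ha0 hb hc hab hac hbc h2 h4 h5 ha hb' hc' (Or.inl p1)
  by_cases p2 : Y.Par S₀ a c
  · have := h S a c b ha0 hc hb hac hab hbc.symm (by rw [h2, Finset.insert_comm]) h5 h4 ha hc' hb'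
      (Or.inl p2)
    rw [← this]; ring
  by_cases p3 : Y.Par S₀ b c
  · have := h S b c a hb hc ha0 hbc (Ne.symm hab) (Ne.symm hac) (by rw [h4, Finset.insert_comm])
      (by rw [h5, Finset.insert_comm]) h2 hb' hc' ha (Or.inl p3)
    rw [← this]; ring
  · exact h S a b c ha0 hb hc hab hac hbc h2 h4 h5 ha hb' hc' (Or.inr ⟨p2, p3⟩)

lemma loop_erase {S : Finset (Fin n)} {i : Fin n} (hi : i ∈ S) :
    Y.P S (Y.p i) (Y.q i) ↔ ¬ Y.P (S.erase i) (Y.p i) (Y.q i) := by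
  rw [← Y.loop_iff (Finset.notMem_erase i S), Finset.insert_erase hi]

lemma al2_ne {S : Finset (Fin n)} (h : Y.al2 S₀ r e₁ S ≠ 0) : ∃ e g, e ∉ S₀ ∧ g ∉ S₀ ∧
    ¬ Y.Par S₀ e g ∧ S = insert e (insert g S₀) ∧ Y.mu S₀ r e₁ e g ≠ 0 := by
  unfold al2 at h
  split_ifs at h with h1
  · exact ⟨_, _, h1.choose_spec.1, h1.choose_spec.2.1, h1.choose_spec.2.2.1,
      h1.choose_spec.2.2.2, h⟩
  · exact absurd rfl h

lemma ok_two {e g : Fin n} (he : Y.Jn S₀ S₀ᶜ r (Y.p e)) (hg : Y.Jn S₀ S₀ᶜ r (Y.p g)) :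
    Y.Ok S₀ r (insert e (insert g S₀)) := ⟨sub_two _ _, fun i hi h => by
  simp only [Finset.mem_insert, h, or_false] at hi
  rcases hi with rfl | rfl <;> assumption⟩

lemma eta_bs {e : Fin n} (h : e = Y.bs S₀ e₁ e) (a : A) : Y.eta S₀ r e₁ e a = 0 :=
  if_neg fun g => g.2.1 h

lemma eta_inv {e : Fin n} {a b : A} (h : Y.P (insert e (insert (Y.bs S₀ e₁ e) S₀)) a b) :
    Y.eta S₀ r e₁ e a = Y.eta S₀ r e₁ e b :=
  if_congr (and_congr_right' (and_congr_right'
    ⟨(Y.P _).trans ((Y.P _).symm h), (Y.P _).trans h⟩)) rfl rfl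

namespace Lab

variable (L : Y.Lab S₀ r)

include L in
lemma eta_p (had : Y.Adequate S₀) {e : Fin n} (he : e ∉ S₀) :
    Y.eta S₀ r e₁ e (Y.p (Y.bs S₀ e₁ e)) = 0 := by
  refine if_neg fun g => ?_
  have hp := bs_par (Y := Y) (S₀ := S₀) e₁ e
  have := two_not had (L.par_type had he hp.symm) he g.2.1.symm hp
  rw [Finset.insert_comm] at this
  exact this g.2.2

include L in
lemma dat2 (had : Y.Adequate S₀) (hT : Y.TP) (hN : Y.NoTri S₀) :
    Y.Dat S₀ r (Y.al2 S₀ r e₁) (Y.lam2 S₀ r e₁) := by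
  have hb : ∀ e, e ∉ S₀ → Y.bs S₀ e₁ e ∉ S₀ := fun e he => L.par_type had he (bs_par e₁ e).symm
  have hq : ∀ e, e ∉ S₀ → Y.Jn S₀ S₀ᶜ r (Y.q e) → Y.Jn S₀ S₀ᶜ r (Y.p e) := fun e he h =>
    (Y.Jn _ _).trans h ((Y.Jn _ _).symm (Y.Jn_edge _ (Finset.mem_compl.2 he)))
  have hpar : ∀ e g, g ∉ S₀ → Y.Par S₀ e g → Y.Jn S₀ S₀ᶜ r (Y.p e) → Y.Jn S₀ S₀ᶜ r (Y.p g) :=
    fun e g hg h h' => (Y.Jn _ _).trans h' (h.jn (Finset.mem_compl.2 hg))
  have h2 : ∀ a : ZMod 2, a + a = 0 := by decide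
  have hne : ∀ a b : ZMod 2, a + b ≠ 0 → a ≠ 0 ∨ b ≠ 0 := by decide
  have key : ∀ S a b c, a ∉ S₀ → b ∉ S₀ → c ∉ S₀ → a ≠ b → a ≠ c → b ≠ c →
      S.erase a = insert b (insert c S₀) → S.erase b = insert a (insert c S₀) →
      S.erase c = insert a (insert b S₀) → a ∈ S → b ∈ S → c ∈ S →
      (Y.Par S₀ a b ∨ (¬ Y.Par S₀ a c ∧ ¬ Y.Par S₀ b c)) →
      (Y.Par S₀ a b ∧ Y.Par S₀ a c ∧ ¬ Y.P S (Y.p a) (Y.q a) ∧ ¬ Y.P S (Y.p b) (Y.q b) ∧
        ¬ Y.P S (Y.p c) (Y.q c)) ∨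
      (Y.Par S₀ a b ∧ ¬ Y.Par S₀ a c ∧ ¬ Y.P S (Y.p a) (Y.q a) ∧ ¬ Y.P S (Y.p b) (Y.q b) ∧
        Y.P S (Y.p c) (Y.q c)) ∨
      (¬ Y.Par S₀ a b ∧ ¬ Y.Par S₀ a c ∧ ¬ Y.Par S₀ b c ∧ Y.P S (Y.p a) (Y.q a) ∧
        Y.P S (Y.p b) (Y.q b) ∧ Y.P S (Y.p c) (Y.q c)) := by
    intro S a b c ha hb hc hab hac hbc e1 e2 e3 ma mb mc h
    rw [loop_erase ma, loop_erase mb, loop_erase mc, e1, e2, e3]
    by_cases p1 : Y.Par S₀ a b
    · by_cases p2 : Y.Par S₀ a c
      · exact Or.inl ⟨p1, p2, not_not.2 (hT _ b c a hb hc ha hbc hab.symm hac.symm (had b) p1 p2),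
          not_not.2 (hT _ a c b ha hc hb hac hab hbc.symm (had a) p1.symm (p1.symm.trans p2)),
          not_not.2 (hT _ a b c ha hb hc hab hac hbc (had a) p2.symm (p2.symm.trans p1))⟩
      · have k : ∀ a b, a ∉ S₀ → b ∉ S₀ → b ≠ c → Y.Par S₀ a b → ¬ Y.Par S₀ b c →
            Y.P (insert b (insert c S₀)) (Y.p a) (Y.q a) := fun a b ha hb hbc p1 p2 => by
          rw [Finset.insert_comm]
          exact Y.merge_le (by simp [hc, hbc.symm]) (fun g => p2 ((loop_par' had c hb).1 g).symm)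
            ((loop_par' had a hb).2 p1)
        exact Or.inr (Or.inl ⟨p1, p2, not_not.2 (k a b ha hb hbc p1 fun g => p2 (p1.trans g)),
          not_not.2 (k b a hb ha hac p1.symm p2), two_nl had ha hb hab p1 fun g => p2 g.symm⟩)
    · obtain ⟨p2, p3⟩ := h.resolve_left p1
      exact Or.inr (Or.inr ⟨p1, p2, p3,
        hN b c a hb hc ha p3 (fun g => p1 g.symm) (fun g => p2 g.symm),
        hN a c b ha hc hb p2 p1 (fun g => p3 g.symm), hN a b c ha hb hc p1 p2 p3⟩)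
  have hl : ∀ S a, Y.lam2 S₀ r e₁ S a ≠ 0 →
      ∃ e g, e ∉ S₀ ∧ g ∉ S₀ ∧ e ≠ g ∧ S = insert e (insert g S₀) := fun S a h => by
    obtain ⟨e, g, h1, h2, h3, -, h4⟩ := lam2_ne h
    exact ⟨e, g, h1, h2, h3, h4⟩
  refine ⟨fun S h => ?_, fun S t h => ?_, fun S a b hab => ?_, tri_sum (Y := Y) (S₀ := S₀)
    (fun S i => if Y.P S (Y.p i) (Y.q i) then Y.lam2 S₀ r e₁ (S.erase i) (Y.p i) +
      Y.lam2 S₀ r e₁ (S.erase i) (Y.q i) else Y.al2 S₀ r e₁ (S.erase i)) (fun S i h => ?_) ?_,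
    fun S x => tri_sum (Y := Y) (S₀ := S₀)
      (fun S i => if Y.P S (Y.p i) (Y.q i) then 0 else Y.lam2 S₀ r e₁ (S.erase i) x)
      (fun S i h => ?_) ?_ S⟩
  · obtain ⟨e, g, he, hg, -, rfl, h1⟩ := al2_ne h
    have hp := bs_par (Y := Y) (S₀ := S₀) e₁ e
    rcases hne _ _ h1 with h1 | h1 <;> rcases hne _ _ h1 with h1 | h1
    · exact ok_two (hpar _ _ he hp (eta_K (hb g hg) h1).2) (eta_K (hb g hg) h1).1
    · exact ok_two (hpar _ _ he hp (hq _ (hb e he) (eta_K (hb g hg) h1).2)) (eta_K (hb g hg) h1).1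
    · exact ok_two (eta_K (hb e he) h1).1 (eta_K (hb e he) h1).2
    · exact ok_two (eta_K (hb e he) h1).1 (hq _ hg (eta_K (hb e he) h1).2)
  · obtain ⟨e, g, he, hg, h1, h3, rfl⟩ := lam2_ne h
    rw [lam2_par he hg h1 h3] at h
    rcases hne _ _ h with h | h
    · have := eta_K (hb e he) h
      exact ⟨ok_two this.1 (hpar _ _ hg h3 this.1), this.2⟩
    · have := eta_K (hb g hg) h
      exact ⟨ok_two (hpar _ _ he h3.symm this.1) this.1, this.2⟩
  · by_contra h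
    obtain ⟨e, g, he, hg, h1, h3, rfl⟩ : ∃ e e', e ∉ S₀ ∧ e' ∉ S₀ ∧ e ≠ e' ∧ Y.Par S₀ e e' ∧
        S = insert e (insert e' S₀) := by
      by_cases h' : Y.lam2 S₀ r e₁ S a = 0
      · exact lam2_ne fun g => h (h'.trans g.symm)
      · exact lam2_ne h'
    apply h
    rw [lam2_par he hg h1 h3, lam2_par he hg h1 h3]
    have hbs := bs_congr (Y := Y) e₁ h3
    by_cases h4 : e = Y.bs S₀ e₁ e
    · rw [eta_bs h4, eta_bs h4, eta_inv (e := g) (a := a) (b := b)
        (by rwa [← hbs, ← h4, Finset.insert_comm])]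
    by_cases h5 : g = Y.bs S₀ e₁ g
    · rw [eta_bs h5, eta_bs h5, eta_inv (e := e) (a := a) (b := b) (by rwa [hbs, ← h5])]
    have hp := bs_par (Y := Y) (S₀ := S₀) e₁ e
    have h6 : Y.bs S₀ e₁ e ≠ g := fun h => h5 (hbs ▸ h.symm)
    have hb' : Y.bs S₀ e₁ e ∉ insert e (insert g S₀) := by simp [hb e he, h6, Ne.symm h4]
    have hf : ∀ a b, Y.P (insert (Y.bs S₀ e₁ e) (insert e (insert g S₀))) a b →
        Y.eta S₀ r e₁ e a + Y.eta S₀ r e₁ g a = Y.eta S₀ r e₁ e b + Y.eta S₀ r e₁ g b := by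
      intro a b hab
      rw [eta_inv (e := e) (b := b), eta_inv (e := g) (b := b)]
      · rw [← hbs]
        refine Y.split_le (i := e) (by simp [he, h1, h4])
          (hT _ _ _ _ hg (hb e he) he h6.symm h1.symm (Ne.symm h4) (had g) h3 hp.symm) ?_
        rwa [Finset.insert_comm g, Finset.insert_comm e]
      · refine Y.split_le (i := g) (by simp [hg, h1.symm, h6.symm])
          (hT _ _ _ _ he (hb e he) hg h4 h1 h6 (had e) h3.symm (hp.trans h3).symm) ?_
        rwa [Finset.insert_comm e, Finset.insert_comm g, Finset.insert_comm g]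
    refine Jn1_le (R' := Setoid.ker fun a => Y.eta S₀ r e₁ e a + Y.eta S₀ r e₁ g a) hf ?_
      ((Y.split_iff hb' (hT _ _ _ _ he hg (hb e he) h1 h4 h6.symm (had e) hp (hp.trans h3))
        a b).1 hab)
    have h7 := L.eta_p (e₁ := e₁) had hg
    rw [← hbs] at h7
    change _ + _ = _ + _
    rw [L.eta_p had he, h7]
    unfold eta
    simp only [← hbs, h4, h6.symm, (Y.P _).refl, ne_eq, not_false_eq_true, and_true]
    rw [if_congr (Q := Y.Jn S₀ S₀ᶜ r (Y.p g)) ⟨hpar _ _ hg h3, hpar _ _ he h3.symm⟩ rfl rfl, h2,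
      h2]
  · split_ifs at h
    · rcases hne _ _ h with h | h <;> exact hl _ _ h
    · obtain ⟨e, g, he, hg, h1, h3, -⟩ := al2_ne h
      exact ⟨e, g, he, hg, Par.ne h1, h3⟩
  · intro S a b c ha hb hc hab hac hbc e1 e2 e3 ma mb mc h
    rcases key S a b c ha hb hc hab hac hbc e1 e2 e3 ma mb mc h with
      ⟨p1, p2, g1, g2, g3⟩ | ⟨p1, p2, g1, g2, g3⟩ | ⟨p1, p2, p3, g1, g2, g3⟩
    · simp only [g1, g2, g3, if_false, e1, e2, e3, al2_par ha hb hab p1, al2_par ha hc hac p2,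
        al2_par hb hc hbc (p1.symm.trans p2), add_zero]
    · simp only [g1, g2, g3, if_false, if_true, e1, e2, e3, lam2_par ha hb hab p1,
        L.al2_np had ha hc p2, L.al2_np had hb hc fun g => p2 (p1.trans g), mu, bs_congr e₁ p1]
      have : ∀ u x y z w : ZMod 2, u + (x + y) + (u + (z + w)) + (z + x + (w + y)) = 0 := by decide
      exact this _ _ _ _ _
    · simp only [g1, g2, g3, if_true, e1, e2, e3, lam2_np ha hb p1, lam2_np ha hc p2,
        lam2_np hb hc p3, add_zero]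
  · split_ifs at h
    · exact absurd rfl h
    · exact hl _ _ h
  · intro S a b c ha hb hc hab hac hbc e1 e2 e3 ma mb mc h
    rcases key S a b c ha hb hc hab hac hbc e1 e2 e3 ma mb mc h with
      ⟨p1, p2, g1, g2, g3⟩ | ⟨p1, p2, g1, g2, g3⟩ | ⟨p1, p2, p3, g1, g2, g3⟩
    · simp only [g1, g2, g3, if_false, e1, e2, e3, lam2_par ha hb hab p1, lam2_par ha hc hac p2,
        lam2_par hb hc hbc (p1.symm.trans p2)]
      have : ∀ x y z : ZMod 2, y + z + (x + z) + (x + y) = 0 := by decide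
      exact this _ _ _
    · simp only [g1, g2, g3, if_false, if_true, e1, e2, lam2_np ha hc p2,
        lam2_np hb hc fun g => p2 (p1.trans g), add_zero]
    · simp only [g1, g2, g3, if_true, add_zero]

/-- The enhanced state with one circle labelled `1` in the root component. -/
noncomputable def one {S : Finset (Fin n)} (h : Y.Ok S₀ r S) (c : A) : Y.Enh :=
  ⟨(S, fun a => if Y.Jn S₀ S₀ᶜ r a then decide (Y.P S a c) else L.l a), fun a b hab => by
    have h1 := P_A h.1 _ _ hab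
    have h2 : Y.Jn S₀ S₀ᶜ r a ↔ Y.Jn S₀ S₀ᶜ r b :=
      ⟨fun g => (Y.Jn _ _).trans g h1, fun g => (Y.Jn _ _).trans g ((Y.Jn _ _).symm h1)⟩
    by_cases ha : Y.Jn S₀ S₀ᶜ r a
    · simp only [ha, h2.1 ha, if_true, decide_eq_decide]
      exact ⟨(Y.P S).trans ((Y.P S).symm hab), (Y.P S).trans hab⟩
    · simp only [ha, mt h2.2 ha, if_false]
      exact L.l_inv a b ((h.out ha b).1 hab)⟩

lemma one_out {S : Finset (Fin n)} (h : Y.Ok S₀ r S) (c : A) (a : A) (ha : ¬ Y.Jn S₀ S₀ᶜ r a) :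
    (L.one h c).1.2 a = L.l a := if_neg ha

lemma one_K {S : Finset (Fin n)} (h : Y.Ok S₀ r S) (c : A) (a : A) (ha : Y.Jn S₀ S₀ᶜ r a) :
    (L.one h c).1.2 a = true ↔ Y.P S a c := by simp [one, ha]

include L in
theorem good_inter [Fintype A] (had : Y.Adequate S₀) (hT : Y.TP) (hN : Y.NoTri S₀)
    {e e' g g' : Fin n} (he : e ∉ S₀) (hg : g ∉ S₀) (hne : e ≠ e')
    (hp : Y.Par S₀ e e') (hp' : Y.Par S₀ g g') (hge : ¬ Y.Par S₀ g e)
    (hs : ¬ Y.Par (insert e (insert e' S₀)) g g') (hK : Y.Jn S₀ S₀ᶜ r (Y.p e)) : Y.Good := by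
  have he' := L.par_type had he hp
  have hD := L.dat2 (e₁ := e) had hT hN
  have hKe' := (Y.Jn _ _).trans hK (hp.jn (Finset.mem_compl.2 he'))
  have hKq : ∀ i, i ∉ S₀ → Y.Jn S₀ S₀ᶜ r (Y.p i) → Y.Jn S₀ S₀ᶜ r (Y.q i) := fun i hi h =>
    (Y.Jn _ _).trans h (Y.Jn_edge _ (Finset.mem_compl.2 hi))
  generalize hT₀ : insert e (insert e' S₀) = T at hs
  have hsub : S₀ ⊆ T := hT₀ ▸ sub_two _ _
  have hlam : ∀ a, Y.lam2 S₀ r e T a = if Y.P T a (Y.q e) then 1 else 0 := by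
    intro a
    have h1 : Y.bs S₀ e e = e := if_pos (Par.refl _ _)
    have h2 : Y.bs S₀ e e' = e := if_pos hp.symm
    rw [← hT₀, lam2_par he he' hne hp, eta_bs h1.symm, zero_add, eta, h2, Finset.insert_comm e']
    simp only [hKe', hne.symm, ne_eq, not_false_eq_true, true_and]
  have hnot : ¬ Y.P T (Y.p e) (Y.q e) := hT₀ ▸ two_not had he he' hne hp
  have hnl : ∀ g, ¬ Y.Par S₀ g e → ¬ Y.P T (Y.p g) (Y.q g) := fun g h =>
    hT₀ ▸ two_nl had he he' hne hp h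
  have hcross := two_cross had he he' hne hp hp' hge (hT₀ ▸ hs) (Y.lam2 S₀ r e T)
    (fun a b h => hD.inv T a b (hT₀ ▸ h))
  simp only [hlam, hnot, (Y.P T).refl, if_true, if_false] at hcross
  wlog hw : ¬ Y.P T (Y.p g) (Y.q e) ∧ ¬ Y.P T (Y.q g) (Y.q e) ∧
      (Y.P T (Y.p g') (Y.q e) ∨ Y.P T (Y.q g') (Y.q e)) generalizing g g'
  · have h1 := hnl g hge
    have h2 := hnl g' fun h => hge (hp'.trans h)
    have h3 : ¬ (Y.P T (Y.p g) (Y.q e) ∧ Y.P T (Y.q g) (Y.q e)) := fun h =>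
      h1 ((Y.P T).trans h.1 ((Y.P T).symm h.2))
    have h4 : ¬ (Y.P T (Y.p g') (Y.q e) ∧ Y.P T (Y.q g') (Y.q e)) := fun h =>
      h2 ((Y.P T).trans h.1 ((Y.P T).symm h.2))
    refine this (L.par_type had hg hp') hp'.symm (fun h => hge (hp'.trans h))
      (fun h => hs h.symm) (by rw [add_comm]; exact hcross) ?_
    revert hcross
    split_ifs <;> simp_all
  obtain ⟨w1, w2, w3⟩ := hw
  have hg' := L.par_type had hg hp'
  have hg'e : ¬ Y.Par S₀ g' e := fun h => hge (hp'.trans h)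
  have hKg' : Y.Jn S₀ S₀ᶜ r (Y.p g') := by
    have h1 := fun a (h : Y.P T a (Y.q e)) =>
      (Y.Jn _ _).trans (hKq e he hK) ((Y.Jn _ _).symm (P_A hsub _ _ h))
    rcases w3 with h | h
    · exact h1 _ h
    · exact (Y.Jn _ _).trans (h1 _ h) ((Y.Jn _ _).symm (Y.Jn_edge _ (Finset.mem_compl.2 hg')))
  have hKg := (Y.Jn _ _).trans hKg' (hp'.symm.jn (Finset.mem_compl.2 hg))
  have hO : Y.Ok S₀ r T := hT₀ ▸ ok_two hK hKe'
  have hnT : ∀ γ, γ ∉ S₀ → ¬ Y.Par S₀ γ e → γ ∉ T := fun γ h1 h2 => by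
    rw [← hT₀]
    simp only [Finset.mem_insert, h1, or_false, not_or]
    exact ⟨Par.ne h2, Par.ne fun h => h2 (h.trans hp.symm)⟩
  have hcase : ∀ S i γ, γ ∉ S₀ → ¬ Y.Par S₀ γ e → S₀ ⊆ S → i ∉ S → insert i S = insert γ T →
      (S = T ∧ i = γ) ∨ (Y.P S (Y.p i) (Y.q i) ∧ ∀ a, Y.lam2 S₀ r e S a = 0) := by
    intro S i γ h1 h2 h3 h4 h5
    have h6 : S = (insert γ T).erase i := by rw [← h5, Finset.erase_insert h4]
    have k : ∀ e₁ e₂, e₁ ∉ S₀ → e₂ ∉ S₀ → e₁ ≠ e₂ → Y.Par S₀ e₁ e₂ → ¬ Y.Par S₀ γ e₂ →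
        S = (insert γ (insert e₁ (insert e₂ S₀))).erase e₁ →
        Y.P S (Y.p e₁) (Y.q e₁) ∧ ∀ a, Y.lam2 S₀ r e S a = 0 := by
      intro e₁ e₂ g1 g2 g3 g4 g5 g6
      have g7 : e₁ ≠ γ := Par.ne fun h => g5 (h.symm.trans g4)
      rw [Finset.insert_comm, Finset.erase_insert (by simp [g1, g3, g7])] at g6
      rw [g6]
      exact ⟨Y.merge_le (by simp [h1, Par.ne g5]) (fun h => g5 ((loop_par' had γ g2).1 h))
        ((loop_par' had e₁ g2).2 g4), lam2_np h1 g2 g5⟩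
    have h7 : i ∈ insert γ T := h5 ▸ Finset.mem_insert_self i S
    rw [← hT₀] at h7
    simp only [Finset.mem_insert] at h7
    rcases h7 with rfl | rfl | rfl | h7
    · exact Or.inl ⟨by rw [h6, Finset.erase_insert (hnT i h1 h2)], rfl⟩
    · exact Or.inr (k i e' he he' hne hp (fun h => h2 (h.trans hp.symm)) (by rw [h6, hT₀]))
    · exact Or.inr (k i e he' he hne.symm hp.symm h2 (by rw [h6, ← hT₀, Finset.insert_comm e]))
    · exact absurd (h3 h7) h4
  have hcase' : ∀ S i, S₀ ⊆ S → i ∉ S → insert i S ∈ ({insert g T, insert g' T} : Set _) →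
      (S = T ∧ (i = g ∨ i = g')) ∨ (Y.P S (Y.p i) (Y.q i) ∧ ∀ a, Y.lam2 S₀ r e S a = 0) := by
    rintro S i h1 h2 (h3 | h3)
    · exact (hcase S i g hg hge h1 h2 h3).imp_left fun h => ⟨h.1, Or.inl h.2⟩
    · exact (hcase S i g' hg' hg'e h1 h2 h3).imp_left fun h => ⟨h.1, Or.inr h.2⟩
  have hJ : ∀ R : Setoid A, (∀ a b, Y.P T a b → R a b) → ∀ a b, Y.P S₀ a b →
      Jn1 R (Y.p e) (Y.q e) a b := fun R hR a b h =>
    Jn1_le (R' := jn1 R (Y.p e) (Y.q e)) (fun a b g => Or.inl (hR a b (hT₀ ▸ g)))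
      (Or.inr (Or.inl ⟨R.refl _, R.refl _⟩)) ((two_iff had he he' hne hp a b).1 (Or.inl h))
  have hJe : ∀ R : Setoid A, (∀ a b, Y.P T a b → R a b) → ∀ i ∈ T \ S₀,
      Jn1 R (Y.p e) (Y.q e) (Y.p i) (Y.q i) := fun R hR i hi => by
    rw [← hT₀, sdiff_two he he'] at hi
    have h1 : Y.Par S₀ i e := by
      simp only [Finset.mem_insert, Finset.mem_singleton] at hi
      rcases hi with rfl | rfl
      · exact Par.refl _ _
      · exact hp.symm
    exact Jn1_le (R' := jn1 R (Y.p e) (Y.q e)) (hJ R hR) (Or.inr (Or.inl ⟨R.refl _, R.refl _⟩))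
      (Or.inr (h1.imp (fun h => ⟨h.1, (Y.P _).symm h.2⟩) (fun h => ⟨h.1, (Y.P _).symm h.2⟩)))
  refine L.good_of had hD {insert g T, insert g' T} ?_ (fun S T' hS => ?_) ?_
  · rintro S (rfl | rfl)
    · exact ⟨hsub.trans (Finset.subset_insert _ _), fun i hi h =>
        (Finset.mem_insert.1 hi).elim (fun g => g ▸ hKg) fun g => hO.2 i g h⟩
    · exact ⟨hsub.trans (Finset.subset_insert _ _), fun i hi h =>
        (Finset.mem_insert.1 hi).elim (fun g => g ▸ hKg') fun g => hO.2 i g h⟩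
  · by_cases h : S = T
    · subst h
      have k : ∀ γ, γ ∉ S₀ → ¬ Y.Par S₀ γ e → Y.Jn S₀ S₀ᶜ r (Y.p γ) →
          ¬ Y.Jn S₀ S (Y.p γ) (Y.q γ) := fun γ h1 h2 h3 h4 =>
        hnl γ h2 (by
          have := Y.Jn_ind (jn1 (Y.P S₀) (Y.p e) (Y.q e)) (fun a b h => Or.inl h) (fun i hi => by
            rw [← hT₀, sdiff_two he he'] at hi
            simp only [Finset.mem_insert, Finset.mem_singleton] at hi
            rcases hi with rfl | rfl
            · exact (jn1_par (had _)).2 (Par.refl _ _)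
            · exact (jn1_par (had _)).2 hp.symm) (L.jK hO h3 (hKq γ h1 h3) h4)
          exact absurd ((jn1_par (had γ)).1 this) h2)
      refine sum_tr S T' _ {g, g'} (fun i => ⟨fun h => ?_, fun hi => ?_⟩) (fun i hi => ?_)
        fun f hf => ?_
      · simpa [h.2.1] using hcase' S i hS h.1 h.2.2
      · simp only [Finset.mem_insert, Finset.mem_singleton] at hi
        rcases hi with rfl | rfl
        · exact ⟨hnT _ hg hge, hnl _ hge, Or.inl rfl⟩
        · exact ⟨hnT _ hg' hg'e, hnl _ hg'e, Or.inr rfl⟩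
      · simp only [Finset.mem_insert, Finset.mem_singleton] at hi
        rcases hi with rfl | rfl
        · exact k _ hg hge hKg
        · exact k _ hg' hg'e hKg'
      · have h2 : ∀ a : ZMod 2, a + a = 0 := by decide
        rw [Finset.sum_pair (Par.ne hs), hp'.fun f fun a b g => hf a b (Y.Jn_base _ g), h2]
    · refine Finset.sum_eq_zero fun i _ => if_neg ?_
      rintro ⟨⟨h1, h2, h3⟩, -⟩
      exact (hcase' S i hS h1 h3).elim (fun g => h g.1) fun g => h2 g.1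
  · let x : Y.Enh := L.one hO (Y.q e)
    have hx := L.one_K hO (Y.q e)
    rw [L.sum_W _ {g} (fun _ => x), Finset.sum_singleton,
      L.zf_one hD (x := x) hO (L.one_out hO _) (hKq e he hK) hx]
    · exact (hlam _).trans (if_pos ((Y.P _).refl _))
    · intro i hi
      rw [Finset.mem_singleton.1 hi]
      have h1 : x.1.2 (Y.p g) = false := by simpa [w1] using hx _ hKg
      have h2 : x.1.2 (Y.q g) = false := by simpa [w2] using hx _ (hKq g hg hKg)
      have hgT := hnT g hg hge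
      refine ⟨hgT, Or.inl rfl, L.one_out hO _, h1.trans h2.symm, ?_, fun a ha => ?_,
        fun a b ha hab h3 h4 => ?_⟩
      · rw [h1]
        exact iff_of_false (by simp) (hnl g hge)
      · by_cases h : Y.P T a (Y.q e)
        · refine ⟨Y.p e, Y.Jn_mono (F := T \ S₀) (Finset.sdiff_subset_sdiff
            (Finset.subset_insert _ _) subset_rfl) ((Y.Jn _ _).trans (P_F hsub h)
            ((Y.Jn _ _).symm (Y.Jn_edge _ (by simp [← hT₀, he])))), ?_⟩
          simpa [hnot] using hx _ hK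
        · exact ⟨a, (Y.Jn _ _).refl a, by simpa [h] using hx a ha⟩
      · have hm := Y.merge_iff hgT (hnl g hge)
        have hle := fun a b => Y.merge_le hgT (hnl g hge) (a := a) (b := b)
        have h5 : ∀ a, Y.Jn S₀ S₀ᶜ r a → x.1.2 a = false → ¬ Y.P (insert g T) a (Y.q e) := by
          intro a ha h5 h6
          rcases (hm _ _).1 h6 with h | h | h
          · exact absurd (h5.symm.trans ((hx a ha).2 h)) (by simp)
          · exact w2 h.2
          · exact w1 h.2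
        rcases Y.Jn_ind (jn1 (Y.P (insert g T)) (Y.p e) (Y.q e)) (hJ _ hle) (fun i hi => by
          rw [show x.1.1 = T from rfl, sdiff_insert' hg] at hi
          rcases Finset.mem_insert.1 hi with rfl | hi
          · exact Or.inl (Y.merge_pq hgT (hnl _ hge))
          · exact hJe _ hle i hi) hab with h | h | h
        · exact h
        · exact absurd ((Y.P _).symm h.2) (h5 b ((Y.Jn _ _).trans ha (F_A hab)) h4)
        · exact absurd h.1 (h5 a ha h3)
    · intro i y hW hz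
      obtain ⟨h1, -, h2⟩ := L.zf_ne hD hz
      have hiK : Y.Jn S₀ S₀ᶜ r (Y.p i) ∧ i ∉ S₀ := by
        have h3 : i ∉ S₀ := fun h => hW.1 (h1.1 h)
        refine ⟨?_, h3⟩
        rcases hW.2.1 with h | h
        · exact (Finset.mem_insert.1 (h ▸ Finset.mem_insert_self i y.1.1)).elim
            (fun g => by rw [g]; exact hKg) fun g => hO.2 i g h3
        · exact (Finset.mem_insert.1 (h ▸ Finset.mem_insert_self i y.1.1)).elim
            (fun g => by rw [g]; exact hKg') fun g => hO.2 i g h3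
      rcases hcase' _ i h1.1 hW.1 hW.2.1 with ⟨h3, h4⟩ | ⟨h3, h4⟩
      · rcases h2 with h2 | ⟨t, h5, h6⟩
        · exact absurd (by rw [h3, ← hT₀, al2_par he he' hne hp]) h2.1
        · rw [h3] at h5 h6
          have h7 : Y.P T t (Y.q e) := by
            by_contra h
            simp [hlam, h] at h5
          have h8 : ∀ a, Y.Jn S₀ S₀ᶜ r a → (y.1.2 a = true ↔ Y.P T a (Y.q e)) := fun a ha =>
            (h6 a ha).trans ⟨fun h => (Y.P T).trans h h7, fun h => (Y.P T).trans h ((Y.P T).symm h7)⟩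
          refine ⟨?_, L.enh_ext h3 hW.2.2.1 (L.one_out hO _) fun a ha =>
            Bool.eq_iff_iff.2 ((h8 a ha).trans (hx a ha).symm)⟩
          rcases h4 with h4 | rfl
          · simp [h4]
          · exfalso
            have h9 := hW.2.2.2.2.1
            have h10 := hW.2.2.2.1
            rw [h3] at h9
            have h11 : ¬ y.1.2 (Y.p i) = true := fun h => hnl i hg'e (h9.1 h)
            rcases w3 with h | h
            · exact h11 ((h8 _ hKg').2 h)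
            · exact h11 (h10 ▸ (h8 _ (hKq i hg' hKg')).2 h)
      · exfalso
        rcases h2 with h2 | ⟨t, h5, -⟩
        · simpa [h2.2 _ hiK.1] using hW.2.2.2.2.1.2 h3
        · exact h5 (h4 t)

lemma trip [Fintype A] (had : Y.Adequate S₀) (hT : Y.TP) (hN : Y.NoTri S₀) {i j k : Fin n}
    (hi : i ∉ S₀) (hij : i ≠ j) (hik : i ≠ k) (hjk : j ≠ k) (pj : Y.Par S₀ i j) (pk : Y.Par S₀ i k)
    (hK : Y.Jn S₀ S₀ᶜ r (Y.p i)) :
    ∑ y, (if L.W {insert i (insert j (insert k S₀))} y i then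
      L.zf (Y.al2 S₀ r e₁) (Y.lam2 S₀ r e₁) y else 0) =
      Y.eta S₀ r e₁ j (Y.p i) + Y.eta S₀ r e₁ k (Y.p i) := by
  have hD := L.dat2 (e₁ := e₁) had hT hN
  have hj := L.par_type had hi pj
  have hk := L.par_type had hi pk
  have hKj := (Y.Jn _ _).trans hK (pj.jn (Finset.mem_compl.2 hj))
  have hO := ok_two hKj ((Y.Jn _ _).trans hK (pk.jn (Finset.mem_compl.2 hk)))
  have hKq : ∀ i, i ∉ S₀ → Y.Jn S₀ S₀ᶜ r (Y.p i) → Y.Jn S₀ S₀ᶜ r (Y.q i) := fun i hi h =>
    (Y.Jn _ _).trans h (Y.Jn_edge _ (Finset.mem_compl.2 hi))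
  have pjk := pj.symm.trans pk
  rw [← lam2_par hj hk hjk pjk]
  have hl := hT _ j k i hj hk hi hjk hij.symm hik.symm (had j) pj pk
  have hn := two_not had hj hk hjk pjk
  have ht := two_iff had hj hk hjk pjk
  have hi' : i ∉ insert j (insert k S₀) := by simp [hi, hij, hik]
  have hsd : insert i (insert j (insert k S₀)) \ S₀ = {i, j, k} := by
    rw [sdiff_insert' hi, sdiff_two hj hk]
  generalize insert j (insert k S₀) = T at *
  have hx := L.one_K hO (Y.p i)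
  have hpi : Y.P T (Y.p i) (Y.p j) ∨ Y.P T (Y.p i) (Y.q j) := by
    have : Jn1 (Y.P S₀) (Y.p j) (Y.q j) (Y.p i) (Y.p j) :=
      pj.elim (fun h => Or.inl h.1) (fun h => Or.inr (Or.inr ⟨h.1, (Y.P _).refl _⟩))
    rcases (ht _ _).1 this with h | h | h
    · exact Or.inl h
    · exact Or.inl h.1
    · exact Or.inr h.1
  rw [Finset.sum_eq_single (L.one hO (Y.p i)), if_pos, L.zf_one hD hO (L.one_out hO _) hK hx]
  · rfl
  · have h1 := (hx _ hK).2 ((Y.P T).refl _)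
    refine ⟨hi', rfl, L.one_out hO _, h1.trans ((hx _ (hKq i hi hK)).2 ((Y.P T).symm hl)).symm,
      iff_of_true h1 hl, fun a ha => ?_, fun a b ha hab h3 h4 => ?_⟩
    · change ∃ b, Y.Jn S₀ (insert i T \ S₀) a b ∧ _
      by_cases h : Y.P T a (Y.p i)
      · have h2 : Y.Jn S₀ (insert i T \ S₀) a (Y.p j) := (Y.Jn _ _).trans (Y.Jn_mono
          (Finset.sdiff_subset_sdiff (Finset.subset_insert _ _) subset_rfl) (P_F hO.1 h))
          (pj.jn (by simp [hsd]))
        by_cases h3 : Y.P T (Y.p j) (Y.p i)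
        · refine ⟨Y.q j, (Y.Jn _ _).trans h2 (Y.Jn_edge _ (by simp [hsd])), ?_⟩
          have : ¬ Y.P T (Y.q j) (Y.p i) := fun g => hn ((Y.P T).trans h3 ((Y.P T).symm g))
          simpa [this] using hx _ (hKq j hj hKj)
        · exact ⟨Y.p j, h2, by simpa [h3] using hx _ hKj⟩
      · exact ⟨a, (Y.Jn _ _).refl a, by simpa [h] using hx a ha⟩
    · change Y.Jn S₀ (insert i T \ S₀) a b at hab
      have h5 : ¬ Y.P T a (Y.p i) := by simpa [h3] using hx a ha
      have h6 : ¬ Y.P T b (Y.p i) := by simpa [h4] using hx b ((Y.Jn _ _).trans ha (F_A hab))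
      have h7 := Y.Jn_ind (jn1 (Y.P S₀) (Y.p j) (Y.q j)) (fun a b h => Or.inl h) (fun m hm => by
        rw [hsd] at hm
        simp only [Finset.mem_insert, Finset.mem_singleton] at hm
        rcases hm with rfl | rfl | rfl
        · exact (jn1_par (had _)).2 pj
        · exact (jn1_par (had _)).2 (Par.refl _ _)
        · exact (jn1_par (had _)).2 pjk.symm) hab
      change Y.P (insert i T) a b
      rw [← flip_notMem hi', Y.flip_off T i h5 fun g => h5 ((Y.P T).trans g ((Y.P T).symm hl))]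
      rcases (ht _ _).1 h7 with h | h | h
      · exact h
      · exact hpi.elim (fun g => absurd ((Y.P T).trans h.1 ((Y.P T).symm g)) h5)
          fun g => absurd ((Y.P T).symm ((Y.P T).trans g h.2)) h6
      · exact hpi.elim (fun g => absurd ((Y.P T).symm ((Y.P T).trans g h.2)) h6)
          fun g => absurd ((Y.P T).trans h.1 ((Y.P T).symm g)) h5
  · intro y _ hy
    rw [ite_eq_right_iff]
    intro hW
    by_contra hz
    have h1 : y.1.1 = T := by
      rw [← Finset.erase_insert hW.1, show insert i y.1.1 = insert i T from hW.2.1,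
        Finset.erase_insert hi']
    have h2 : y.1.2 (Y.p i) = true := hW.2.2.2.2.1.2 (h1 ▸ hl)
    obtain ⟨-, -, h3 | ⟨t, -, h3⟩⟩ := L.zf_ne hD hz
    · simp [h3.2 _ hK] at h2
    · rw [h1] at h3
      have h4 := (h3 _ hK).1 h2
      exact hy (L.enh_ext h1 hW.2.2.1 (L.one_out hO _) fun a ha => Bool.eq_iff_iff.2
        (((h3 a ha).trans ⟨fun h => (Y.P T).trans h ((Y.P T).symm h4),
          fun h => (Y.P T).trans h h4⟩).trans (hx a ha).symm))
  · simp

omit L in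
lemma _root_.Pool.Agent.MP_f5aac0_gt.tri_xor {R : Setoid A} {p₁ q₁ p₂ q₂ p₃ q₃ : A}
    (h12 : ¬ Jn1 R p₂ q₂ p₁ q₁) (h13 : ¬ Jn1 R p₃ q₃ p₁ q₁) (h23 : ¬ Jn1 R p₃ q₃ p₂ q₂)
    (h32 : ¬ Jn1 R p₂ q₂ p₃ q₃)
    (a : Jn1 R p₃ q₃ p₃ p₁ ∨ Jn1 R p₃ q₃ p₃ q₁) (b : Jn1 R p₂ q₂ p₂ p₁ ∨ Jn1 R p₂ q₂ p₂ q₁)
    (c : Jn1 R p₃ q₃ p₂ p₁ ∨ Jn1 R p₃ q₃ p₂ q₁) (c' : Jn1 R p₃ q₃ q₂ p₁ ∨ Jn1 R p₃ q₃ q₂ q₁) :
    Jn1 R p₃ q₃ p₃ q₁ ↔ ¬ Jn1 R p₂ q₂ p₂ q₁ := by
  simp only [Jn1, ← Quotient.eq (r := R)] at *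
  generalize Quotient.mk R p₁ = P₁ at *
  generalize Quotient.mk R p₂ = P₂ at *
  generalize Quotient.mk R p₃ = P₃ at *
  generalize Quotient.mk R q₁ = Q₁ at *
  generalize Quotient.mk R q₂ = Q₂ at *
  generalize Quotient.mk R q₃ = Q₃ at *
  grind

include L in
theorem good_triple [Fintype A] (had : Y.Adequate S₀) (hT : Y.TP) (hN : Y.NoTri S₀)
    {i j k : Fin n} (hi : i ∉ S₀) (hij : i ≠ j) (hik : i ≠ k) (hjk : j ≠ k) (pj : Y.Par S₀ i j)
    (pk : Y.Par S₀ i k) (hK : Y.Jn S₀ S₀ᶜ r (Y.p i)) : Y.Good := by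
  have hj := L.par_type had hi pj
  have hk := L.par_type had hi pk
  have hKj := (Y.Jn _ _).trans hK (pj.jn (Finset.mem_compl.2 hj))
  have hKk := (Y.Jn _ _).trans hK (pk.jn (Finset.mem_compl.2 hk))
  have pjk := pj.symm.trans pk
  have li := hT _ j k i hj hk hi hjk hij.symm hik.symm (had j) pj pk
  have lj := hT _ i k j hi hk hj hik hij hjk.symm (had i) pj.symm pjk
  have lk := hT _ i j k hi hj hk hij hik hjk (had i) pk.symm pjk.symm
  have ni : i ∉ insert j (insert k S₀) := by simp [hi, hij, hik]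
  have nj : j ∉ insert i (insert k S₀) := by simp [hj, hij.symm, hjk]
  have nk : k ∉ insert i (insert j S₀) := by simp [hk, hik.symm, hjk.symm]
  have ej : insert i (insert j (insert k S₀)) = insert j (insert i (insert k S₀)) :=
    Finset.insert_comm _ _ _
  have ek : insert i (insert j (insert k S₀)) = insert k (insert i (insert j S₀)) := by
    rw [Finset.insert_comm j, Finset.insert_comm i]
  have hD := L.dat2 (e₁ := i) had hT hN
  have hm : ∀ S m, S₀ ⊆ S → m ∉ S → insert m S = insert i (insert j (insert k S₀)) →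
      m ∈ ({i, j, k} : Finset (Fin n)) := by
    intro S m h1 h2 h3
    have h4 : m ∈ insert i (insert j (insert k S₀)) := h3 ▸ Finset.mem_insert_self m S
    have h5 : m ∉ S₀ := fun g => h2 (h1 g)
    simpa [h5] using h4
  refine L.good_of had hD {insert i (insert j (insert k S₀))} ?_ (fun S T hS => ?_) ?_
  · rintro S rfl
    exact ⟨(sub_two j k).trans (Finset.subset_insert _ _), fun m hm h =>
      (Finset.mem_insert.1 hm).elim (fun g => by rw [g]; exact hK) fun g => (ok_two hKj hKk).2 m g h⟩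
  · refine Finset.sum_eq_zero fun m _ => if_neg ?_
    rintro ⟨⟨h1, h2, h3⟩, -⟩
    have h4 := hm S m hS h1 h3
    have h5 : S = (insert i (insert j (insert k S₀))).erase m := by
      rw [← show insert m S = _ from h3, Finset.erase_insert h1]
    simp only [Finset.mem_insert, Finset.mem_singleton] at h4
    rcases h4 with rfl | rfl | rfl
    · rw [Finset.erase_insert ni] at h5
      exact h2 (h5 ▸ li)
    · rw [ej, Finset.erase_insert nj] at h5
      exact h2 (h5 ▸ lj)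
    · rw [ek, Finset.erase_insert nk] at h5
      exact h2 (h5 ▸ lk)
  · rw [← Finset.sum_subset (Finset.subset_univ {i, j, k})]
    swap
    · intro m _ h
      refine Finset.sum_eq_zero fun y _ => ?_
      rw [ite_eq_right_iff]
      intro hW
      by_contra hz
      exact h (hm _ m (L.zf_ne hD hz).1.1 hW.1 hW.2.1)
    rw [Finset.sum_insert (by simp [hij, hik]), Finset.sum_pair hjk,
      L.trip had hT hN hi hij hik hjk pj pk hK, ej, L.trip had hT hN hj hij.symm hjk hik pj.symm pjk hKj,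
      ← ej, ek, L.trip had hT hN hk hik.symm hjk.symm hij pk.symm pjk.symm hKk]
    have bi : Y.bs S₀ i i = i := if_pos (Par.refl _ _)
    have bj : Y.bs S₀ i j = i := if_pos pj.symm
    have bk : Y.bs S₀ i k = i := if_pos pk.symm
    have z1 := L.eta_p (e₁ := i) had hj
    have z2 := L.eta_p (e₁ := i) had hk
    rw [bj] at z1
    rw [bk] at z2
    rw [z1, z2, eta_bs bi.symm, eta_bs bi.symm]
    unfold eta
    have sj := Y.split_iff nj lj
    have sk := Y.split_iff nk lk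
    rw [← ej] at sj
    rw [← ek] at sk
    have tj := two_iff had hi hj hij pj
    have tk := two_iff had hi hk hik pk
    have on : ∀ (R : Setoid A) a, Jn1 R (Y.p i) (Y.q i) a (Y.p i) → R a (Y.p i) ∨ R a (Y.q i) := by
      rintro R a (h | h | h)
      · exact Or.inl h
      · exact Or.inl h.1
      · exact Or.inr h.1
    have op : ∀ m, Y.Par S₀ m i → Jn1 (Y.P S₀) (Y.p i) (Y.q i) (Y.p m) (Y.p i) := fun m h =>
      h.elim (fun h => Or.inl h.1) (fun h => Or.inr (Or.inr ⟨h.1, (Y.P _).refl _⟩))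
    have oq : Jn1 (Y.P S₀) (Y.p i) (Y.q i) (Y.q j) (Y.p i) :=
      pj.symm.elim (fun h => Or.inr (Or.inr ⟨h.2, (Y.P _).refl _⟩)) (fun h => Or.inl h.2)
    have key := tri_xor (R := Y.P (insert i (insert j (insert k S₀)))) (p₁ := Y.p i) (q₁ := Y.q i)
      (p₂ := Y.p j) (q₂ := Y.q j) (p₃ := Y.p k) (q₃ := Y.q k)
      (by rw [← sj]; exact two_not had hi hk hik pk) (by rw [← sk]; exact two_not had hi hj hij pj)
      (by rw [← sk, Finset.insert_comm]; exact two_not had hj hi hij.symm pj.symm)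
      (by rw [← sj, Finset.insert_comm]; exact two_not had hk hi hik.symm pk.symm)
      (by rw [← sk, ← sk]; exact on _ _ ((tj _ _).1 (op k pk.symm)))
      (by rw [← sj, ← sj]; exact on _ _ ((tk _ _).1 (op j pj.symm)))
      (by rw [← sk, ← sk]; exact on _ _ ((tj _ _).1 (op j pj.symm)))
      (by rw [← sk, ← sk]; exact on _ _ ((tj _ _).1 oq))
    rw [← sk, ← sj] at key
    rw [bj, bk, Finset.insert_comm j i, Finset.insert_comm k i]
    simp only [show Y.Jn S₀ S₀ᶜ r (Y.p j) from hKj, show Y.Jn S₀ S₀ᶜ r (Y.p k) from hKk, hij.symm,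
      hik.symm, ne_eq, not_false_eq_true, true_and, key]
    by_cases h : Y.P (insert i (insert k S₀)) (Y.p j) (Y.q i) <;> simp [h]

end Lab

end Sys

end Pool.Agent.MP_f5aac0_gt

end

-- part MP_f5aac0_gt.Plan
section

/-!
If the pairing vanishes, the state graph is a forest with at most double edges, none interleaved.
-/

namespace Pool.Agent.MP_f5aac0_gt

open Classical symmDiff

namespace Sys

variable {n : ℕ} {A : Type} {Y : Sys n A} {S₀ : Finset (Fin n)} {r : A}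

variable (Y) in
/-- The circles of all states are read off the state graph of `B`. -/
def Tait (B : Finset (Fin n)) : Prop :=
  ∀ S i, i ∉ S ∆ B → Y.Jn B (S ∆ B) (Y.p i) (Y.q i) → Y.P S (Y.p i) (Y.q i)

lemma Tait.mono {B S S' : Finset (Fin n)} (h : Y.Tait B) {i : Fin n} (hi : i ∉ S' ∆ B)
    (hS : S ∆ B ⊆ S' ∆ B) (g : Y.P S (Y.p i) (Y.q i)) : Y.P S' (Y.p i) (Y.q i) :=
  h S' i hi (Y.Jn_mono hS (Y.P_le_Jn _ _ (by rwa [symmDiff_comm S, symmDiff_symmDiff_cancel_left])))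

lemma Par.nl {S : Finset (Fin n)} {i j : Fin n} (h : Y.Par S i j) (hi : ¬ Y.P S (Y.p i) (Y.q i)) :
    ¬ Y.P S (Y.p j) (Y.q j) := fun g => hi <|
  h.elim (fun h => (Y.P S).trans h.1 ((Y.P S).trans g ((Y.P S).symm h.2)))
    (fun h => (Y.P S).trans h.1 ((Y.P S).trans ((Y.P S).symm g) ((Y.P S).symm h.2)))

lemma Par.loop {S : Finset (Fin n)} {i j : Fin n} (h : Y.Par S i j) (hi : ¬ Y.P S (Y.p i) (Y.q i)) :
    Y.P (S ∆ {j}) (Y.p i) (Y.q i) := (Y.flip_merge (h.nl hi) _ _).2 ((jn1_par hi).2 h)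

lemma Tait.par {B S : Finset (Fin n)} (h : Y.Tait B) {i j : Fin n} (hj : ¬ Y.P S (Y.p j) (Y.q j))
    (hp : Y.Par S j i) (hi : i ∈ S ∆ B) : j ∈ S ∆ B := by
  by_contra g
  refine hj (h.mono g (fun k hk => ?_) (hp.loop hj))
  by_cases e : k = i
  · rwa [e]
  · simpa [Finset.mem_symmDiff, e] using hk

variable (Y) in
def TPf : Prop := ∀ S i j k, i ≠ j → i ≠ k → j ≠ k → ¬ Y.P S (Y.p i) (Y.q i) → Y.Par S k i →
  Y.Par S k j → Y.P ((S ∆ {j}) ∆ {i}) (Y.p k) (Y.q k)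

lemma tpf_of {B : Finset (Fin n)} (h : Y.Tait B) (h' : Y.Tait Bᶜ) : Y.TPf := by
  intro S i j k hij hik hjk hi pi pj
  have key : ∀ B, Y.Tait B → k ∉ S ∆ B → Y.P ((S ∆ {j}) ∆ {i}) (Y.p k) (Y.q k) := by
    intro B h hk
    have hk' := pi.symm.nl hi
    have h1 : i ∉ S ∆ B := fun g => hk (h.par hk' pi g)
    refine h.mono ?_ (fun m hm => ?_) (pj.loop hk')
    · simpa [Finset.mem_symmDiff, hik.symm, hjk.symm] using hk
    · by_cases e : m = i
      · subst e
        exact absurd (by simpa [Finset.mem_symmDiff, hij] using hm) h1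
      · simpa [Finset.mem_symmDiff, e] using hm
  by_cases hk : k ∈ S ∆ B
  · refine key Bᶜ h' ?_
    simp only [Finset.mem_symmDiff, Finset.mem_compl] at hk ⊢
    tauto
  · exact key B h hk

lemma compl_flip (S F : Finset (Fin n)) : (S ∆ F)ᶜ = Sᶜ ∆ F := by
  ext j
  simp only [Finset.mem_symmDiff, Finset.mem_compl]
  tauto

lemma TPf.tp (h : Y.TPf) : Y.TP := by
  intro S i j k hi hj _ hij hik hjk g pi pj
  have := h S i j k hij hik hjk g pi pj
  rwa [flip_notMem hj, flip_notMem (by simp [hi, hij])] at this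

lemma TPf.dual (h : Y.TPf) : Y.dual.TPf := by
  intro S i j k hij hik hjk g pi pj
  have := h Sᶜ i j k hij hik hjk g pi pj
  rwa [← compl_flip, ← compl_flip] at this

lemma av_of {S : Finset (Fin n)} {c a b : A} (ha : ¬ Y.P S a c)
    (h : Relation.ReflTransGen (fun x y => ¬ Y.P S y c ∧ ∃ k, Y.Joins S k x y) a b) :
    Y.Av S c a b ∧ ¬ Y.P S b c := by
  induction h with
  | refl => exact ⟨Relation.ReflTransGen.refl, ha⟩
  | tail _ g ih => exact ⟨ih.1.tail ⟨ih.2, g.1, Or.inr g.2⟩, g.1⟩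

lemma jn_ev {S F : Finset (Fin n)} {x y : A} (h : Y.Jn S F x y) : ∃ Z ⊆ F, ∀ f : A → ZMod 2,
    (∀ a b, Y.P S a b → f a = f b) → ∑ i ∈ Z, (f (Y.p i) + f (Y.q i)) = f x + f y := by
  have h2 : ∀ a : ZMod 2, a + a = 0 := by decide
  let Q : Setoid A := ⟨fun x y => ∃ Z ⊆ F, ∀ f : A → ZMod 2,
      (∀ a b, Y.P S a b → f a = f b) → ∑ i ∈ Z, (f (Y.p i) + f (Y.q i)) = f x + f y, by
    refine ⟨fun a => ⟨∅, by simp, fun f _ => by simp [h2]⟩, ?_, ?_⟩
    · rintro a b ⟨Z, h1, h3⟩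
      exact ⟨Z, h1, fun f hf => by rw [h3 f hf, add_comm]⟩
    · rintro a b c ⟨Z, h1, h3⟩ ⟨Z', h1', h3'⟩
      refine ⟨Z ∆ Z', symmDiff_le_sup.trans (sup_le h1 h1'), fun f hf => ?_⟩
      have h4 : ∀ a b c : ZMod 2, a + c = a + b + (b + c) := by decide
      rw [h4 _ (f b), ← h3 f hf, ← h3' f hf]
      rw [← Finset.sum_ite_mem_eq Z, ← Finset.sum_ite_mem_eq Z', ← Finset.sum_ite_mem_eq (Z ∆ Z'),
        ← Finset.sum_add_distrib]
      refine Finset.sum_congr rfl fun i _ => ?_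
      by_cases g : i ∈ Z <;> by_cases g' : i ∈ Z' <;> simp [Finset.mem_symmDiff, g, g', h2]⟩
  exact Y.Jn_ind Q (fun a b g => ⟨∅, by simp, fun f hf => by simp [hf a b g, h2]⟩)
    (fun i hi => ⟨{i}, by simpa using hi, fun f _ => by simp⟩) h

lemma Lab.ev_A [Fintype A] (L : Y.Lab S₀ r) {Z : Finset (Fin n)} (hZ : Y.Ev S₀ Z) :
    Y.Ev S₀ (Z \ S₀) := by
  let D : Finset (Fin n) → Quotient (Y.P S₀) → ZMod 2 := fun Z c => ∑ i ∈ Z,
    ((if Quotient.mk _ (Y.p i) = c then 1 else 0) + if Quotient.mk _ (Y.q i) = c then 1 else 0)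
  have h1 : ∀ (Z : Finset (Fin n)) (f : A → ZMod 2), (∀ a b, Y.P S₀ a b → f a = f b) →
      ∑ i ∈ Z, (f (Y.p i) + f (Y.q i)) = ∑ c, f c.out * D Z c := by
    intro Z f hf
    simp only [D, Finset.mul_sum]
    rw [Finset.sum_comm]
    refine Finset.sum_congr rfl fun i _ => ?_
    simp only [mul_add, Finset.sum_add_distrib, mul_ite, mul_one, mul_zero, Finset.sum_ite_eq,
      Finset.mem_univ, if_true]
    rw [hf _ _ (Quotient.mk_out (s := Y.P S₀) (Y.p i)), hf _ _ (Quotient.mk_out (s := Y.P S₀) (Y.q i))]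
  have h2 : ∀ c, D (Z \ S₀) c = D (Z ∩ S₀) c := by
    intro c
    have h3 := hZ (fun a => if Quotient.mk _ a = c then 1 else 0) fun a b g => by
      rw [Quotient.sound g]
    rw [← Finset.sum_inter_add_sum_sdiff Z S₀] at h3
    have h4 : ∀ a b : ZMod 2, a + b = 0 → b = a := by decide
    exact h4 _ _ h3
  have h3 : ∀ c, D (Z \ S₀) c = 0 := by
    by_contra hc
    push Not at hc
    obtain ⟨c, hc, hmax⟩ := Finset.exists_max_image
      (Finset.univ.filter fun c => D (Z \ S₀) c ≠ 0) (fun c => L.h c.out)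
      (by obtain ⟨a, ha⟩ := hc; exact ⟨a, by simpa using ha⟩)
    simp only [Finset.mem_filter, Finset.mem_univ, true_and] at hc hmax
    have key : ∀ F Z' : Finset (Fin n), Z' ⊆ F → (∀ c, D (Z \ S₀) c = D Z' c) →
        (∀ b, Y.Jn S₀ F c.out b → ¬ Y.P S₀ c.out b → L.h c.out < L.h b) → False := by
      intro F Z' g1 g2 g3
      have hf : ∀ a b, Y.Jn S₀ F a b → (if Y.Jn S₀ F c.out a then (1 : ZMod 2) else 0) =
          if Y.Jn S₀ F c.out b then 1 else 0 := fun a b g => if_congr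
        ⟨fun g' => (Y.Jn _ _).trans g' g, fun g' => (Y.Jn _ _).trans g' ((Y.Jn _ _).symm g)⟩ rfl rfl
      have h4 := h1 Z' _ fun a b g => hf a b (Y.Jn_base _ g)
      have h5 : ∀ a : ZMod 2, a + a = 0 := by decide
      rw [Finset.sum_eq_zero fun i hi => by rw [hf _ _ (Y.Jn_edge _ (g1 hi)), h5],
        Finset.sum_eq_single c, if_pos ((Y.Jn _ _).refl _), one_mul] at h4
      · exact hc (by rw [g2, ← h4])
      · intro c' _ hc'
        split_ifs with g
        · rw [one_mul, ← g2]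
          by_contra g'
          have := g3 _ g fun g'' => hc' (by
            rw [← c.out_eq, ← c'.out_eq]; exact (Quotient.sound g'').symm)
          have := hmax c' g'
          omega
        · simp
      · simp
    cases hl : L.l c.out
    · exact key S₀ (Z ∩ S₀) Finset.inter_subset_right h2 fun b g g' => (L.lb _ b hl g g').1
    · exact key S₀ᶜ (Z \ S₀) (fun i hi => by simpa using (Finset.mem_sdiff.1 hi).2) (fun _ => rfl)
        fun b g g' => (L.la _ b hl g g').1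
  intro f hf
  simp [h1 _ f hf, h3]

variable (Y S₀) in
structure Hyp [Fintype A] : Prop where
  had : Y.Adequate S₀
  hom : Y.Homogeneous S₀
  tp : Y.TPf
  nG : ¬ Y.Good

variable (Y S₀) in
noncomputable def NP (e : Fin n) : Finset (Fin n) := Finset.univ.filter fun i => ¬ Y.Par S₀ i e

lemma mem_NP {e i : Fin n} : i ∈ Y.NP S₀ e ↔ ¬ Y.Par S₀ i e := by simp [NP]

lemma jn_reps {S F : Finset (Fin n)} {e₁ : Fin n}
    (h : ∀ i ∈ F, Y.bs S₀ e₁ i ∈ F ∧ Y.Par S i (Y.bs S₀ e₁ i)) {a b : A} (g : Y.Jn S F a b) :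
    Y.Jn S (F.filter fun i => Y.bs S₀ e₁ i = i) a b :=
  Y.Jn_ind (Y.Jn S (F.filter fun i => Y.bs S₀ e₁ i = i)) (fun _ _ => Y.Jn_base _)
    (fun i hi => Joins.jn Y (h i hi).2
    (Finset.mem_filter.2 ⟨(h i hi).1, bs_congr e₁ (bs_par e₁ i)⟩)) g

lemma flip_two {e e' : Fin n} (h : e ≠ e') : S₀ ∆ {e, e'} = (S₀ ∆ {e'}) ∆ {e} :=
  flip_insert S₀ (by simpa using h)

lemma two_iff' (had : Y.Adequate S₀) {e e' : Fin n} (hne : e ≠ e') (h : Y.Par S₀ e e') (a b : A) :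
    Jn1 (Y.P S₀) (Y.p e) (Y.q e) a b ↔ Jn1 (Y.P (S₀ ∆ {e, e'})) (Y.p e) (Y.q e) a b := by
  rw [flip_two hne, ← Y.flip_split (h.loop (had e)), Y.flip_merge (had e')]
  exact ⟨h.jn1 fun _ _ g => g, h.symm.jn1 fun _ _ g => g⟩

lemma two_not' (had : Y.Adequate S₀) {e e' : Fin n} (hne : e ≠ e') (h : Y.Par S₀ e e') :
    ¬ Y.P (S₀ ∆ {e, e'}) (Y.p e) (Y.q e) := by
  rw [flip_two hne, flip_loop, not_not]
  exact h.loop (had e)

lemma two_nl' (had : Y.Adequate S₀) {e e' g : Fin n} (hne : e ≠ e') (h : Y.Par S₀ e e')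
    (hge : ¬ Y.Par S₀ g e) : ¬ Jn1 (Y.P (S₀ ∆ {e, e'})) (Y.p e) (Y.q e) (Y.p g) (Y.q g) := fun g' =>
  hge ((jn1_par (had g)).1 ((two_iff' had hne h _ _).2 g'))

lemma two_cross' (had : Y.Adequate S₀) {e e' g g' : Fin n} (hne : e ≠ e') (h : Y.Par S₀ e e')
    (hg : Y.Par S₀ g g') (hge : ¬ Y.Par S₀ g e) (hs : ¬ Y.Par (S₀ ∆ {e, e'}) g g') (f : A → ZMod 2)
    (hf : ∀ a b, Y.P (S₀ ∆ {e, e'}) a b → f a = f b) :
    f (Y.p g) + f (Y.q g) + (f (Y.p g') + f (Y.q g')) = f (Y.p e) + f (Y.q e) := by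
  have h1 := fun a b (g : Y.P S₀ a b) => (two_iff' had hne h a b).1 (Or.inl g)
  have h2 := two_nl' had hne h hge
  rcases hg with hg | hg
  · exact jn1_cross (h1 _ _ hg.1) (h1 _ _ hg.2) h2 (fun g => hs (Or.inl g)) f hf
  · rw [add_comm (f (Y.p g'))]
    exact jn1_cross (h1 _ _ hg.1) (h1 _ _ hg.2) h2 (fun g => hs (Or.inr g)) f hf

lemma two_par (had : Y.Adequate S₀) {e e' : Fin n} (hne : e ≠ e') (h : Y.Par S₀ e e') :
    Y.Par (S₀ ∆ {e, e'}) e e' := by
  have h1 := two_not' had hne.symm h.symm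
  rw [Finset.pair_comm] at h1
  rw [← jn1_par (two_not' had hne h), ← Y.flip_merge h1, Finset.pair_comm, flip_two hne.symm,
    symmDiff_symmDiff_cancel_right]
  exact (Y.flip_loop _ _).2 (had e)

namespace Hyp

variable [Fintype A]

lemma dual {T : Finset (Fin n)} (h : Y.Hyp Tᶜ) : Y.dual.Hyp T :=
  ⟨h.had, fun i hi j hj c a b g1 g2 g3 => h.hom.av Y (by simpa using hj) (Finset.mem_compl.2 hi)
    g2 g1 ((av_of (Y := Y) ((Joins.symm Y g1).ne Y h.had) g3).1.symm Y), h.tp.dual,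
    fun g => h.nG (Y.good_of_dual g)⟩

variable (h : Y.Hyp S₀)
include h

lemma type {i j : Fin n} (g : Y.Par S₀ i j) : i ∈ S₀ ↔ j ∈ S₀ := by
  obtain ⟨L⟩ := Y.exists_lab h.had h.hom (Y.p i)
  exact not_iff_not.1 ⟨fun hi => L.par_type h.had hi g, fun hj => L.par_type h.had hj g.symm⟩

lemma cycA {Z : Finset (Fin n)} {e : Fin n} (he : e ∈ Z) (hZ : ∀ i ∈ Z, i ∉ S₀) (hE : Y.Ev S₀ Z)
    (hP : ∀ i ∈ Z, ∀ j ∈ Z, Y.Par S₀ i j → i = j) : False := by
  obtain ⟨L⟩ := Y.exists_lab h.had h.hom (Y.p e)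
  have hE' : Y.Ev S₀ (Z.filter fun i => Y.Jn S₀ S₀ᶜ (Y.p e) (Y.p i)) := by
    intro f hf
    have hK : ∀ a b, Y.Jn S₀ S₀ᶜ a b → (Y.Jn S₀ S₀ᶜ (Y.p e) a ↔ Y.Jn S₀ S₀ᶜ (Y.p e) b) :=
      fun a b g => ⟨fun g' => (Y.Jn _ _).trans g' g, fun g' => (Y.Jn _ _).trans g' ((Y.Jn _ _).symm g)⟩
    rw [Finset.sum_filter]
    refine (Finset.sum_congr rfl fun i hi => ?_).trans
      (hE (fun a => if Y.Jn S₀ S₀ᶜ (Y.p e) a then f a else 0) fun a b g => by
        simp only [hK a b (Y.Jn_base _ g), hf a b g])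
    simp only [← hK _ _ (Y.Jn_edge S₀ (Finset.mem_compl.2 (hZ i hi)))]
    split_ifs <;> simp
  have h1 : ∀ a : ZMod 2, a = 1 ∨ a = 0 := by decide
  have h2 := fun i (hi : i ∈ Z.filter fun i => Y.Jn S₀ S₀ᶜ (Y.p e) (Y.p i)) => Finset.mem_filter.1 hi
  rcases h1 ((Z.filter fun i => Y.Jn S₀ S₀ᶜ (Y.p e) (Y.p i)).card) with g | g
  · exact h.nG (L.good_odd h.had _ (fun i hi => hZ i (h2 i hi).1) (fun i hi => (h2 i hi).2) hE' g)
  · exact h.nG (L.good_even h.had _ (fun i hi => hZ i (h2 i hi).1) (fun i hi => (h2 i hi).2) hE'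
      (fun i hi j hj => hP i (h2 i hi).1 j (h2 j hj).1)
      (Finset.mem_filter.2 ⟨he, (Y.Jn _ _).refl _⟩) g)

lemma cyc {Z : Finset (Fin n)} {e : Fin n} (he : e ∈ Z) (hE : Y.Ev S₀ Z)
    (hP : ∀ i ∈ Z, ∀ j ∈ Z, Y.Par S₀ i j → i = j) : False := by
  obtain ⟨L⟩ := Y.exists_lab h.had h.hom (Y.p e)
  by_cases g : ∃ i ∈ Z, i ∉ S₀
  · obtain ⟨i, hi, hi'⟩ := g
    exact h.cycA (Finset.mem_sdiff.2 ⟨hi, hi'⟩) (fun i hi => (Finset.mem_sdiff.1 hi).2) (L.ev_A hE)
      fun i hi j hj => hP i (Finset.mem_sdiff.1 hi).1 j (Finset.mem_sdiff.1 hj).1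
  · obtain ⟨T, rfl⟩ : ∃ T, S₀ = Tᶜ := ⟨S₀ᶜ, (compl_compl _).symm⟩
    push Not at g
    exact h.dual.cycA he (fun i hi => by simpa using g i hi) hE hP

lemma br (e : Fin n) : ¬ Y.Jn S₀ (Y.NP S₀ e) (Y.p e) (Y.q e) := by
  intro g
  obtain ⟨Z, h1, h2⟩ := jn_ev (jn_reps (S₀ := S₀) (e₁ := e) (fun i hi => ⟨mem_NP.2 fun g =>
    mem_NP.1 hi ((bs_par e i).symm.trans g), (bs_par e i).symm⟩) g)
  have h3 : ∀ i ∈ Z, ¬ Y.Par S₀ i e ∧ Y.bs S₀ e i = i := fun i hi => by
    simpa [mem_NP] using h1 hi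
  have h4 : ∀ a : ZMod 2, a + a = 0 := by decide
  refine h.cyc (Finset.mem_insert_self e Z) (fun f hf => ?_) fun i hi j hj hij => ?_
  · rw [Finset.sum_insert fun g => (h3 e g).1 (Par.refl _ _), h2 f hf, h4]
  · have h5 : ∀ i ∈ insert e Z, Y.bs S₀ e i = i := fun i hi =>
      (Finset.mem_insert.1 hi).elim (fun g => by rw [g]; exact if_pos (Par.refl _ _))
        fun g => (h3 i g).2
    rw [← h5 i hi, ← h5 j hj, bs_congr e hij]

lemma noTri : Y.NoTri S₀ := fun a b c ha hb _ _ h1 h2 g => h.br c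
  (Y.Jn_mono (by simp [sdiff_two ha hb, Finset.insert_subset_iff, mem_NP, h1, h2])
    (P_F (sub_two a b) g))

lemma tripA {i j k : Fin n} (hi : i ∉ S₀) (hij : i ≠ j) (hik : i ≠ k) (hjk : j ≠ k)
    (pj : Y.Par S₀ i j) (pk : Y.Par S₀ i k) : False := by
  obtain ⟨L⟩ := Y.exists_lab h.had h.hom (Y.p i)
  exact h.nG (L.good_triple h.had h.tp.tp h.noTri hi hij hik hjk pj pk ((Y.Jn _ _).refl _))

lemma trip {i j k : Fin n} (hij : i ≠ j) (pj : Y.Par S₀ i j) (pk : Y.Par S₀ k i) :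
    k = i ∨ k = j := by
  by_contra g
  push Not at g
  by_cases hi : i ∈ S₀
  · obtain ⟨T, rfl⟩ : ∃ T, S₀ = Tᶜ := ⟨S₀ᶜ, (compl_compl _).symm⟩
    exact h.dual.tripA (by simpa using hi) hij g.1.symm g.2.symm pj pk.symm
  · exact h.tripA hi hij g.1.symm g.2.symm pj pk.symm

lemma interA {e e' g g' : Fin n} (he : e ∉ S₀) (hg : g ∉ S₀) (hne : e ≠ e') (hp : Y.Par S₀ e e')
    (hp' : Y.Par S₀ g g') (hge : ¬ Y.Par S₀ g e) : Y.Par (S₀ ∆ {e, e'}) g g' := by
  obtain ⟨L⟩ := Y.exists_lab h.had h.hom (Y.p e)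
  have he' := L.par_type h.had he hp
  rw [flip_two hne, flip_notMem he', flip_notMem (by simp [he, hne])]
  by_contra hs
  exact h.nG (L.good_inter h.had h.tp.tp h.noTri he hg hne hp hp' hge hs ((Y.Jn _ _).refl _))

lemma interB {e e' g g' : Fin n} (he : e ∈ S₀) (hg : g ∈ S₀) (hne : e ≠ e') (hp : Y.Par S₀ e e')
    (hp' : Y.Par S₀ g g') (hge : ¬ Y.Par S₀ g e) : Y.Par (S₀ ∆ {e, e'}) g g' := by
  obtain ⟨T, rfl⟩ : ∃ T, S₀ = Tᶜ := ⟨S₀ᶜ, (compl_compl _).symm⟩
  rw [← compl_flip]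
  exact h.dual.interA (by simpa using he) (by simpa using hg) hne hp hp' hge

lemma had_two {e e' : Fin n} (hne : e ≠ e') (hp : Y.Par S₀ e e') : Y.Adequate (S₀ ∆ {e, e'}) := by
  intro i
  by_cases g : Y.Par S₀ i e
  · rcases h.trip hne hp g with rfl | rfl
    · exact two_not' h.had hne hp
    · exact (two_par h.had hne hp).nl (two_not' h.had hne hp)
  · exact fun g' => two_nl' h.had hne hp g (Or.inl g')

omit [Fintype A] h in
lemma _root_.Pool.Agent.MP_f5aac0_gt.Sys.two_le {e e' j : Fin n} (hp : Y.Par S₀ e e') (hj : ¬ Y.Par S₀ e j) {a b : A}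
    (g : Y.P (S₀ ∆ {e, e'}) a b) : Y.Jn S₀ (Y.NP S₀ j) a b :=
  Y.Jn_mono (by simp [Finset.insert_subset_iff, mem_NP, hj, mt hp.trans hj]) (Y.P_le_Jn _ _ g)

lemma interM {e e' g g' : Fin n} (he : e ∈ S₀) (hg : g ∉ S₀) (hne : e ≠ e') (hp : Y.Par S₀ e e')
    (hp' : Y.Par S₀ g g') (hge : ¬ Y.Par S₀ g e) : Y.Par (S₀ ∆ {e, e'}) g g' := by
  by_contra hs
  have he' := (h.type hp).1 he
  have hg' : g' ∉ S₀ := mt (h.type hp').2 hg
  have had := h.had_two hne hp
  have hmem : ∀ j, j ∈ S₀ ∆ {e, e'} ↔ j ∈ S₀ ∧ j ≠ e ∧ j ≠ e' := fun j => by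
    simp only [Finset.mem_symmDiff, Finset.mem_insert, Finset.mem_singleton]
    grind
  have h' : Y.Hyp (S₀ ∆ {e, e'}) := by
    refine ⟨had, fun i hi j hj c a b g1 g2 g3 => h.br j ?_, h.tp, h.nG⟩
    rw [hmem] at hi hj
    have hje : ¬ Y.Par S₀ e j := fun g => by simpa [hj.2] using h.trip hne hp g.symm
    have hle := fun a b => two_le hp hje (a := a) (b := b)
    have hJ : ∀ k x y, ¬ Y.Par S₀ k j → Y.Joins (S₀ ∆ {e, e'}) k x y →
        Y.Jn S₀ (Y.NP S₀ j) x y := fun k x y g1 g2 =>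
      Jn1_le hle (Y.Jn_edge _ (mem_NP.2 g1))
        (Or.inr (g2.imp (fun h => ⟨h.1, (Y.P _).symm h.2⟩) (fun h => ⟨h.1, (Y.P _).symm h.2⟩)))
    have hav : ∀ x y, Y.Av (S₀ ∆ {e, e'}) c x y → Y.Jn S₀ (Y.NP S₀ j) x y := by
      intro x y g
      induction g with
      | refl => exact (Y.Jn _ _).refl _
      | tail _ g ih =>
        refine (Y.Jn _ _).trans ih ?_
        rcases g.2.2 with g4 | ⟨k, g4⟩
        · exact hle _ _ g4
        · refine hJ k _ _ (fun g5 => ?_) g4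
          have g6 := g4.par (h.interB he hj.1 hne hp g5.symm fun g => hje g.symm).symm
          rcases g6 with g6 | g6 <;> rcases g2 with g2 | g2
          · exact g.1 ((Y.P _).trans g6.1 ((Y.P _).symm g2.1))
          · exact g.2.1 ((Y.P _).trans g6.2 ((Y.P _).symm g2.1))
          · exact g.2.1 ((Y.P _).trans g6.2 ((Y.P _).symm g2.1))
          · exact g.1 ((Y.P _).trans g6.1 ((Y.P _).symm g2.1))
    have hij : ¬ Y.Par S₀ i j := fun g => by
      have h1 := (h.type g).2 hj.1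
      have h2 : i = e ∨ i = e' := by tauto
      rcases h2 with rfl | rfl
      · exact hje g
      · exact hje (hp.trans g)
    have hcb := (Y.Jn _ _).trans (hJ i c a hij g1) (hav a b (av_of ((g1.symm Y).ne Y had) g3).1)
    rcases g2 with g2 | g2
    · exact (Y.Jn _ _).trans ((Y.Jn _ _).symm (hle _ _ g2.1)) ((Y.Jn _ _).trans hcb (hle _ _ g2.2))
    · exact (Y.Jn _ _).trans ((Y.Jn _ _).symm (hle _ _ g2.2))
        ((Y.Jn _ _).trans ((Y.Jn _ _).symm hcb) (hle _ _ g2.1))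
  have hn : ∀ g, ¬ Y.Par S₀ g e → ¬ Y.Par (S₀ ∆ {e, e'}) g e := fun g h1 h2 =>
    two_nl' h.had hne hp h1 ((jn1_par (had g)).2 h2)
  have n1 := hn g hge
  have n2 := hn g' fun g => hge (hp'.trans g)
  refine h'.cycA (Z := {e, g, g'}) (e := e) (by simp) ?_ (fun f hf => ?_) ?_
  · simp [hmem, hg, hg']
  · have h4 : ∀ a : ZMod 2, a + a = 0 := by decide
    rw [Finset.sum_insert (by simp [(Par.ne n1).symm, (Par.ne n2).symm]),
      Finset.sum_pair (Par.ne hs), two_cross' h.had hne hp hp' hge hs f hf, h4]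
  · simp only [Finset.mem_insert, Finset.mem_singleton]
    rintro i (rfl | rfl | rfl) j (rfl | rfl | rfl) hij
    all_goals first | rfl | exact absurd hij (by assumption) | exact absurd hij.symm (by assumption)

lemma inter {e e' g g' : Fin n} (hne : e ≠ e') (hp : Y.Par S₀ e e')
    (hp' : Y.Par S₀ g g') (hge : ¬ Y.Par S₀ g e) : Y.Par (S₀ ∆ {e, e'}) g g' := by
  by_cases he : e ∈ S₀ <;> by_cases hg : g ∈ S₀
  · exact h.interB he hg hne hp hp' hge
  · exact h.interM he hg hne hp hp' hge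
  · obtain ⟨T, rfl⟩ : ∃ T, S₀ = Tᶜ := ⟨S₀ᶜ, (compl_compl _).symm⟩
    rw [← compl_flip]
    exact h.dual.interM (by simpa using he) (by simpa using hg) hne hp hp' hge
  · exact h.interA he hg hne hp hp' hge

theorem exc (e : Fin n) : ¬ Y.Jn S₀ {e, e}ᶜ (Y.p e) (Y.q e) ∨ ∃ e', e ≠ e' ∧ Y.Par S₀ e e' ∧
    ¬ Y.Jn S₀ {e, e'}ᶜ (Y.p e) (Y.q e) ∧ ¬ Y.Jn (S₀ ∆ {e, e'}) {e, e'}ᶜ (Y.p e) (Y.q e) := by
  by_cases g : ∃ e', e ≠ e' ∧ Y.Par S₀ e e'
  · obtain ⟨e', hne, hp⟩ := g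
    have hF : ({e, e'} : Finset (Fin n))ᶜ = Y.NP S₀ e := by
      ext i
      simp only [Finset.mem_compl, mem_NP, Finset.mem_insert, Finset.mem_singleton, not_iff_not]
      exact ⟨fun g => g.elim (fun g => g ▸ Par.refl _ _) (fun g => g ▸ hp.symm), h.trip hne hp⟩
    refine Or.inr ⟨e', hne, hp, hF ▸ h.br e, hF ▸ fun g => ?_⟩
    obtain ⟨Z, h1, h2⟩ := jn_ev (jn_reps (S₀ := S₀) (e₁ := e) (fun i hi => ⟨mem_NP.2 fun g =>
      mem_NP.1 hi ((bs_par e i).symm.trans g), h.inter hne hp (bs_par e i).symm (mem_NP.1 hi)⟩) g)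
    have h3 : ∀ i ∈ Z, ¬ Y.Par S₀ i e ∧ Y.bs S₀ e i = i := fun i hi => by
      simpa [mem_NP] using h1 hi
    have h4 : ∀ a : ZMod 2, a + a = 0 := by decide
    have hf : ∀ (R : Setoid A) (c a b : A), R a b →
        (if R c a then (1 : ZMod 2) else 0) = if R c b then 1 else 0 := fun R c a b g =>
      if_congr ⟨fun g' => R.trans g' g, fun g' => R.trans g' (R.symm g)⟩ rfl rfl
    rcases Z.eq_empty_or_nonempty with rfl | ⟨k, hk⟩
    · simpa [(Y.P _).refl, two_not' h.had hne hp] using h2 _ (hf _ (Y.p e))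
    · have h5 : ¬ Y.Par S₀ e k := fun g => (h3 k hk).1 g.symm
      have h6 := h2 _ fun a b g => hf _ (Y.p k) a b (two_le hp h5 g)
      rw [hf _ _ _ _ (Y.Jn_edge _ (mem_NP.2 h5)), h4, Finset.sum_eq_single_of_mem k hk] at h6
      · simp [h.br k] at h6
      · intro i hi hik
        rw [hf _ _ _ _ (Y.Jn_edge _ (mem_NP.2 fun g => hik ?_)), h4]
        rw [← (h3 i hi).2, ← (h3 k hk).2, bs_congr e g]
  · refine Or.inl fun g' => h.br e (Y.Jn_mono (fun i hi => mem_NP.2 fun hp => g ⟨i, ?_, hp.symm⟩) g')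
    rintro rfl
    simp at hi

end Hyp

end Sys

end Pool.Agent.MP_f5aac0_gt

/-!
Planar diagrams: the checkerboard colouring, merges and splits, and the Tait graphs.
-/

namespace Pool.Agent.MP_f5aac0_gt

open Classical symmDiff

def invs {X : Type} (r : X → X → Prop) : Submodule (ZMod 2) (X → ZMod 2) where
  carrier := {f | ∀ a b, r a b → f a = f b}
  add_mem' hf hg a b h := by simp only [Pi.add_apply, hf a b h, hg a b h]
  zero_mem' _ _ _ := rfl
  smul_mem' c f hf a b h := by simp only [Pi.smul_apply, hf a b h]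

lemma finrank_invs {X : Type} [Fintype X] (r : X → X → Prop) :
    Module.finrank (ZMod 2) (invs r) = Nat.card (Quot r) := by
  let e : invs r ≃ₗ[ZMod 2] (Quot r → ZMod 2) :=
    { toFun f := Quot.lift f.1 f.2
      invFun g := ⟨fun a => g (Quot.mk r a), fun a b h => congrArg g (Quot.sound h)⟩
      map_add' f g := funext fun c => by induction c using Quot.ind; rfl
      map_smul' c f := funext fun c => by induction c using Quot.ind; rfl
      left_inv f := rfl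
      right_inv g := funext fun c => by induction c using Quot.ind; rfl }
  have : Fintype (Quot r) := Fintype.ofFinite _
  rw [e.finrank_eq, Module.finrank_fintype_fun_eq_card, Nat.card_eq_fintype_card]

lemma Sys.tait_of {n : ℕ} {A : Type} [Fintype A] (Y : Sys n A) (B : Finset (Fin n))
    (h : 2 * Nat.card (Quotient (Y.Jn B Finset.univ)) + n ≤
      Nat.card (Quotient (Y.P B)) + Nat.card (Quotient (Y.P Bᶜ))) : Y.Tait B := by
  let f : Finset (Fin n) → ℤ := fun F => 2 * Nat.card (Quotient (Y.Jn B F)) + F.card -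
    Nat.card (Quotient (Y.P (B ∆ F)))
  have step : ∀ F i, i ∉ F → f F ≤ f (insert i F) ∧
      (¬ Y.P (B ∆ F) (Y.p i) (Y.q i) → Y.Jn B F (Y.p i) (Y.q i) → f F < f (insert i F)) := by
    intro F i hi
    have h1 : Y.Jn B F (Y.p i) (Y.q i) → Y.Jn B (insert i F) = Y.Jn B F := fun g =>
      Setoid.ext fun a b => (Y.Jn_insert B F i a b).trans
        ⟨Sys.Jn1_le (fun _ _ g => g) g, Or.inl⟩
    simp only [f, Finset.card_insert_of_notMem hi, Sys.flip_insert B hi]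
    by_cases g : Y.P (B ∆ F) (Y.p i) (Y.q i)
    · have := card_join (Y.flip_split g) fun g' => (Y.flip_loop _ _).1 g' g
      rw [h1 (Y.P_le_Jn _ _ g)]
      exact ⟨by omega, fun g' => absurd g g'⟩
    · have := card_join (Y.flip_merge g) g
      by_cases g' : Y.Jn B F (Y.p i) (Y.q i)
      · rw [h1 g']
        exact ⟨by omega, fun _ _ => by omega⟩
      · have := card_join (Y.Jn_insert B F i) g'
        exact ⟨by omega, fun _ g'' => absurd g'' g'⟩
  have mono : ∀ G F, f F ≤ f (F ∪ G) := by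
    intro G F
    induction G using Finset.induction_on with
    | empty => simp
    | insert i G _ ih =>
      rw [Finset.union_insert]
      by_cases hi : i ∈ F ∪ G
      · rwa [Finset.insert_eq_of_mem hi]
      · exact ih.trans (step _ i hi).1
  intro S i hi g
  by_contra g'
  have h1 := (step _ i hi).2 (by rwa [symmDiff_comm S, symmDiff_symmDiff_cancel_left]) g
  have h2 := mono (S ∆ B) ∅
  have h3 := mono Finset.univ (insert i (S ∆ B))
  have h4 : Y.Jn B ∅ = Y.P B := Setoid.ext fun _ _ => Y.Jn_empty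
  have h5 : B ∆ Finset.univ = Bᶜ := symmDiff_top B
  rw [Finset.empty_union] at h2
  rw [Finset.union_eq_right.2 (Finset.subset_univ _)] at h3
  have h6 : f ∅ < f Finset.univ := by omega
  simp only [f, h4, h5, Sys.flip_empty, Finset.card_empty, Finset.card_univ, Fintype.card_fin] at h6
  omega

namespace Diagram

variable {D : Diagram}

def Col (col : D.Dart → Bool) : Prop :=
  (∀ d, col (D.edge d) = !col d) ∧ ∀ d, col (D.rot d) = !col d

lemma exists_col (hP : D.Planar) (o : D.Orientation) : ∃ col : D.Dart → Bool, Col col := by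
  have h2 : ∀ a : ZMod 2, a + a = 0 := by decide
  let ε : D.Dart ≃ D.Dart := Function.Involutive.toPerm D.edge D.edge_edge
  let VF := invs fun a b : D.Dart => b = D.rot (D.edge a)
  let K := invs fun a b : D.Dart => b = D.edge a
  let C := invs fun a b : D.Dart => b = D.edge a ∨ b = D.rot a
  let M : Matrix (Fin D.n) D.Dart (ZMod 2) := fun i d =>
    (if d.1 = i then 1 else 0) + if (D.edge d).1 = i then 1 else 0
  have hM : ∀ f i, M.mulVecLin f i = ∑ k : ZMod 4, (f (i, k) + f (D.edge (i, k))) := by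
    intro f i
    have h1 : ∑ d, (if (D.edge d).1 = i then f d else 0) =
        ∑ d : D.Dart, if d.1 = i then f (D.edge d) else 0 := by
      rw [← ε.sum_comp]
      simp [ε, D.edge_edge]
    simp only [Matrix.mulVecLin_apply, Matrix.mulVec, dotProduct, M, add_mul, ite_mul, one_mul,
      zero_mul, Finset.sum_add_distrib, h1]
    simp [Fintype.sum_prod_type, Finset.sum_ite_eq', Finset.sum_comm (γ := Fin D.n)]
  have hVF : ∀ f ∈ VF, ∀ d, f (D.edge d) = f (D.rot d) := fun f hf d =>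
    hf _ _ (congrArg D.rot (D.edge_edge d).symm)
  have h4 : Fintype.card D.Dart = 4 * D.n := by simp [mul_comm]
  have hK : 2 * D.n ≤ Module.finrank (ZMod 2) K := by
    let T : (D.Dart → ZMod 2) →ₗ[ZMod 2] (D.Dart → ZMod 2) :=
      LinearMap.id + LinearMap.funLeft (ZMod 2) (ZMod 2) D.edge
    have hT : ∀ f d, T f d = f d + f (D.edge d) := fun f d => rfl
    have a := T.finrank_range_add_finrank_ker
    have b : LinearMap.range T ≤ K := by
      rintro _ ⟨f, rfl⟩ d _ rfl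
      rw [hT, hT, D.edge_edge, add_comm]
    have c : LinearMap.ker T ≤ K := by
      rintro f hf d _ rfl
      have h3 : ∀ a b : ZMod 2, a + b = 0 → a = b := by decide
      exact h3 _ _ (congrFun hf d)
    have := Submodule.finrank_mono b
    have := Submodule.finrank_mono c
    rw [Module.finrank_fintype_fun_eq_card, h4] at a
    omega
  have hI : Module.finrank (ZMod 2) (VF ⊓ K : Submodule _ _) ≤ Module.finrank (ZMod 2) C := by
    refine Submodule.finrank_mono ?_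
    rintro f ⟨hf, hf'⟩ a _ (rfl | rfl)
    · exact hf' _ _ rfl
    · rw [← hVF f hf]; exact hf' _ _ rfl
  have hZ : Module.finrank (ZMod 2) (LinearMap.ker M.mulVecLin) ≤
      3 * D.n + Module.finrank (ZMod 2) C := by
    have a := M.mulVecLin.finrank_range_add_finrank_ker
    have b := M.transpose.mulVecLin.finrank_range_add_finrank_ker
    have c : Module.finrank (ZMod 2) (LinearMap.range M.transpose.mulVecLin) =
      Module.finrank (ZMod 2) (LinearMap.range M.mulVecLin) := M.rank_transpose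
    have d : Module.finrank (ZMod 2) (LinearMap.ker M.transpose.mulVecLin) ≤
        Module.finrank (ZMod 2) C := by
      let T := LinearMap.funLeft (ZMod 2) (ZMod 2) (Prod.fst : D.Dart → Fin D.n)
      have hT : Function.Injective T := LinearMap.funLeft_injective_of_surjective _ _ _
        Prod.fst_surjective
      rw [(Submodule.equivMapOfInjective T hT _).finrank_eq]
      refine Submodule.finrank_mono ?_
      rintro _ ⟨g, hg, rfl⟩ a _ (rfl | rfl)
      · have h3 : ∀ a b : ZMod 2, a + b = 0 → a = b := by decide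
        refine h3 _ _ (Eq.trans ?_ (congrFun hg a))
        simp [T, M, Matrix.vecMul, dotProduct, mul_add, Finset.sum_add_distrib]
      · rfl
    rw [Module.finrank_fintype_fun_eq_card] at a b
    rw [h4] at a
    rw [Fintype.card_fin] at b
    omega
  have hle : VF ⊔ K ≤ LinearMap.ker M.mulVecLin := by
    refine sup_le (fun f hf => funext fun i => ?_) (fun f hf => funext fun i => ?_)
    · rw [hM, Finset.sum_add_distrib]
      simp only [hVF f hf, rot]
      rw [← Equiv.sum_comp (Equiv.addRight (1 : ZMod 4)) (fun k => f (i, k))]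
      exact h2 _
    · rw [hM]
      exact Finset.sum_eq_zero fun k _ => by rw [← hf _ _ rfl, h2]
  have heq : VF ⊔ K = LinearMap.ker M.mulVecLin := by
    refine Submodule.eq_of_le_of_finrank_le hle ?_
    have a := Submodule.finrank_sup_add_finrank_inf_eq VF K
    have b : Module.finrank (ZMod 2) VF = D.n + 2 * Module.finrank (ZMod 2) C := by
      rw [finrank_invs, finrank_invs]; exact hP
    omega
  have hout : (fun d => if o.out d then (1 : ZMod 2) else 0) ∈ VF ⊔ K := by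
    rw [heq]
    funext i
    rw [hM, Finset.sum_congr rfl fun k _ => (show _ = (1 : ZMod 2) by
      rw [o.out_edge]; cases o.out (i, k) <;> simp)]
    simp only [Finset.sum_const, Finset.card_univ, ZMod.card]
    rfl
  obtain ⟨c, hc, κ, hκ, h⟩ := Submodule.mem_sup.1 hout
  have key : ∀ d, c (D.edge d) = c d + 1 := by
    intro d
    have a := congrFun h d
    have b := congrFun h (D.edge d)
    simp only [Pi.add_apply, ← hκ d _ rfl, o.out_edge] at a b
    have h3 : ∀ (x y z : ZMod 2) (t : Bool), (x + z = if t then 1 else 0) →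
        (y + z = if (!t) = true then 1 else 0) → y = x + 1 := by decide
    exact h3 _ _ _ _ a b
  have h5 : ∀ x : ZMod 2, decide (x + 1 = 1) = !decide (x = 1) := by decide
  exact ⟨fun d => decide (c d = 1), fun d => by simp only [key, h5], fun d => by
    simp only [← hVF c hc, key, h5]⟩

def par (k : ZMod 4) : Bool := decide (k = 1 ∨ k = 3)

lemma Col.eq {col : D.Dart → Bool} (h : Col col) (i : Fin D.n) (k : ZMod 4) :
    col (i, k) = xor (col (i, 0)) (par k) := by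
  have h1 : ∀ k, col (i, k + 1) = !col (i, k) := fun k => h.2 (i, k)
  have h2 : ∀ k : ZMod 4, k = 0 ∨ k = 0 + 1 ∨ k = 0 + 1 + 1 ∨ k = 0 + 1 + 1 + 1 := by decide
  rcases h2 k with rfl | rfl | rfl | rfl <;> (try simp only [h1]) <;> cases col (i, 0) <;> rfl

lemma smooth_smooth (S : Finset (Fin D.n)) (d : D.Dart) : D.smooth S (D.smooth S d) = d :=
  Prod.ext rfl (sub_sub_cancel _ _)

lemma Col.smooth {col : D.Dart → Bool} (h : Col col) (S : Finset (Fin D.n)) (d : D.Dart) :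
    col (D.smooth S d) = !col d := by
  obtain ⟨i, k⟩ := d
  have : ∀ (b : Bool) (k : ZMod 4), xor b (par (3 - k)) = !xor b (par k) ∧
    xor b (par (1 - k)) = !xor b (par k) := by decide
  rw [Diagram.smooth, h.eq i k, h.eq]
  split_ifs
  · exact (this _ _).1
  · exact (this _ _).2

variable (D) in
def sc (S : Finset (Fin D.n)) : Setoid D.Arc := Relation.EqvGen.setoid fun a b =>
  ∃ d, a = Sum.inl d ∧ (b = Sum.inl (D.edge d) ∨ b = Sum.inl (D.smooth S d))

lemma sc_edge (S : Finset (Fin D.n)) (d : D.Dart) : D.sc S (Sum.inl d) (Sum.inl (D.edge d)) :=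
  Relation.EqvGen.rel _ _ ⟨d, rfl, Or.inl rfl⟩

lemma sc_smooth (S : Finset (Fin D.n)) (d : D.Dart) : D.sc S (Sum.inl d) (Sum.inl (D.smooth S d)) :=
  Relation.EqvGen.rel _ _ ⟨d, rfl, Or.inr rfl⟩

lemma eqv_le {X : Type} {r : X → X → Prop} (R : Setoid X) (h : ∀ a b, r a b → R a b) {a b : X}
    (g : Relation.EqvGen r a b) : R a b := by
  induction g with
  | rel a b g => exact h a b g
  | refl a => exact R.refl a
  | symm a b _ ih => exact R.symm ih
  | trans a b c _ _ ih ih' => exact R.trans ih ih'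

lemma sc_le {S : Finset (Fin D.n)} (R : Setoid D.Arc)
    (h1 : ∀ d, R (Sum.inl d) (Sum.inl (D.edge d)))
    (h2 : ∀ d, R (Sum.inl d) (Sum.inl (D.smooth S d))) {a b : D.Arc} (h : D.sc S a b) : R a b :=
  eqv_le R (by rintro _ _ ⟨d, rfl, rfl | rfl⟩; exacts [h1 d, h2 d]) h

variable (D) in
/-- The state cut open at crossing `i`. -/
def cut (S : Finset (Fin D.n)) (i : Fin D.n) : Setoid D.Arc := Relation.EqvGen.setoid fun a b =>
  ∃ d, a = Sum.inl d ∧ (b = Sum.inl (D.edge d) ∨ (d.1 ≠ i ∧ b = Sum.inl (D.smooth S d)))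

lemma cut_path {col : D.Dart → Bool} (h : Col col) (S : Finset (Fin D.n)) (i : Fin D.n)
    (k : ZMod 4) : ¬ D.cut S i (Sum.inl (i, k)) (Sum.inl (i, k + 2)) ∧
      (D.cut S i (Sum.inl (i, k)) (Sum.inl (i, 1 - k)) ∨
        D.cut S i (Sum.inl (i, k)) (Sum.inl (i, 3 - k))) := by
  let π : D.Dart → D.Dart := fun d => D.smooth S (D.edge d)
  have hinj : Function.Injective π := (Function.Involutive.injective (smooth_smooth S)).comp
    (Function.Involutive.injective D.edge_edge)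
  have hex : ∃ t, (π^[t + 1] (i, k)).1 = i := by
    obtain ⟨m, hm, h1⟩ := hinj.mem_periodicPts (i, k)
    obtain ⟨t, rfl⟩ := Nat.exists_eq_succ_of_ne_zero hm.ne'
    exact ⟨t, congrArg Prod.fst h1⟩
  have hT := Nat.find_spec hex
  have hmin := fun t => Nat.find_min hex (m := t)
  generalize Nat.find hex = T at hT hmin
  have hs : ∀ t, π^[t + 1] (i, k) = D.smooth S (D.edge (π^[t] (i, k))) := fun t =>
    Function.iterate_succ_apply' π t _
  have hc : ∀ t, col (π^[t] (i, k)) = col (i, k) := by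
    intro t
    induction t with
    | zero => rfl
    | succ t ih => rw [hs, h.smooth, h.1, ih, Bool.not_not]
  constructor
  · intro g
    let W : D.Arc → Prop := fun a => ∃ t ≤ T, a = Sum.inl (π^[t] (i, k)) ∨
      a = Sum.inl (D.edge (π^[t] (i, k)))
    have w1 : ∀ d, W (Sum.inl d) → W (Sum.inl (D.edge d)) := by
      rintro d ⟨t, ht, g | g⟩ <;> rw [Sum.inl_injective g]
      · exact ⟨t, ht, Or.inr rfl⟩
      · exact ⟨t, ht, Or.inl (by rw [D.edge_edge])⟩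
    have w2 : ∀ d, d.1 ≠ i → W (Sum.inl d) → W (Sum.inl (D.smooth S d)) := by
      rintro d hd ⟨t, ht, g | g⟩ <;> rw [Sum.inl_injective g] at hd ⊢
      · cases t with
        | zero => exact absurd rfl hd
        | succ t => exact ⟨t, by omega, Or.inr (by rw [hs, smooth_smooth])⟩
      · refine ⟨t + 1, ?_, Or.inl (by rw [hs])⟩
        by_contra g
        have : t = T := by omega
        rw [← this, hs] at hT
        exact hd hT
    have := eqv_le (Setoid.ker W) (by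
      rintro _ _ ⟨d, rfl, rfl | ⟨hd, rfl⟩⟩
      · exact propext ⟨w1 d, fun g => by simpa only [D.edge_edge] using w1 _ g⟩
      · exact propext ⟨w2 d hd, fun g => by
          simpa only [smooth_smooth] using w2 (D.smooth S d) hd g⟩) g
    obtain ⟨t, ht, g | g⟩ : W (Sum.inl (i, k + 2)) := this ▸ ⟨0, T.zero_le, Or.inl rfl⟩
    · cases t with
      | zero =>
        have h3 : ∀ k : ZMod 4, k + 2 ≠ k := by decide
        exact h3 k (congrArg Prod.snd (Sum.inl_injective g))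
      | succ t => exact hmin t ht (congrArg Prod.fst (Sum.inl_injective g)).symm
    · have h3 := congrArg col (Sum.inl_injective g)
      have h4 : ∀ (b : Bool) (k : ZMod 4), xor b (par (k + 2)) ≠ !xor b (par k) := by decide
      rw [h.1, hc, h.eq, h.eq i k] at h3
      exact h4 _ _ h3
  · have h1 : ∀ t ≤ T, D.cut S i (Sum.inl (i, k)) (Sum.inl (D.edge (π^[t] (i, k)))) := by
      intro t ht
      have e : ∀ d, D.cut S i (Sum.inl d) (Sum.inl (D.edge d)) := fun d =>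
        Relation.EqvGen.rel _ _ ⟨d, rfl, Or.inl rfl⟩
      induction t with
      | zero => exact e _
      | succ t ih =>
        refine (D.cut S i).trans (ih (by omega)) ((D.cut S i).trans ?_ (e _))
        exact Relation.EqvGen.rel _ _ ⟨_, rfl, Or.inr ⟨fun g => hmin t ht (by rw [hs]; exact g),
          by rw [hs]⟩⟩
    have h2 := h1 T le_rfl
    have h3 := h.1 (π^[T] (i, k))
    rw [hs] at hT
    generalize D.edge (π^[T] (i, k)) = w at *
    obtain ⟨j, l⟩ := w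
    obtain rfl : j = i := hT
    rw [hc, h.eq, h.eq j k] at h3
    have h4 : ∀ (b : Bool) (k l : ZMod 4), xor b (par l) = !xor b (par k) →
      l = 1 - k ∨ l = 3 - k := by decide
    rcases h4 _ _ _ h3 with rfl | rfl
    · exact Or.inl h2
    · exact Or.inr h2

lemma flip_core {S S' S₀ : Finset (Fin D.n)} {i : Fin D.n} {c : ZMod 4} (hc : c = 1 ∨ c = 3)
    (h1 : ∀ d, d.1 ≠ i → D.smooth S d = D.smooth S₀ d)
    (h2 : ∀ d, d.1 ≠ i → D.smooth S' d = D.smooth S₀ d)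
    (h3 : ∀ k, D.smooth S (i, k) = (i, c - k)) (h4 : ∀ k, D.smooth S' (i, k) = (i, c + 2 - k))
    (g0 : ¬ D.cut S₀ i (D.p i) (D.q i)) (g1 : D.cut S₀ i (D.p i) (Sum.inl (i, c)))
    (g2 : D.cut S₀ i (D.q i) (Sum.inl (i, c + 2))) :
    ¬ D.sc S (D.p i) (D.q i) ∧ ∀ a b, D.sc S' a b ↔ Jn1 (D.sc S) (D.p i) (D.q i) a b := by
  have e : ∀ d, D.cut S₀ i (Sum.inl d) (Sum.inl (D.edge d)) := fun d =>
    Relation.EqvGen.rel _ _ ⟨d, rfl, Or.inl rfl⟩
  have f : ∀ d, d.1 ≠ i → D.cut S₀ i (Sum.inl d) (Sum.inl (D.smooth S₀ d)) := fun d hd =>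
    Relation.EqvGen.rel _ _ ⟨d, rfl, Or.inr ⟨hd, rfl⟩⟩
  have le : ∀ S, (∀ d, d.1 ≠ i → D.smooth S d = D.smooth S₀ d) → ∀ a b, D.cut S₀ i a b →
      D.sc S a b := fun S h a b => eqv_le _ (by
    rintro _ _ ⟨d, rfl, rfl | ⟨hd, rfl⟩⟩
    · exact sc_edge S d
    · exact h d hd ▸ sc_smooth S d)
  have hk : ∀ c k : ZMod 4, c = 1 ∨ c = 3 → (k = 0 ∧ c - k = c ∧ c + 2 - k = c + 2) ∨
    (k = c ∧ c - k = 0 ∧ c + 2 - k = 2) ∨ (k = 2 ∧ c - k = c + 2 ∧ c + 2 - k = c) ∨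
    (k = c + 2 ∧ c - k = 2 ∧ c + 2 - k = 0) := by decide
  have ge : ∀ a b, D.sc S a b → D.cut S₀ i a b := fun a b => sc_le _ e fun d => by
    by_cases hd : d.1 = i
    · obtain ⟨j, k⟩ := d
      obtain rfl : j = i := hd
      rw [h3]
      rcases hk c k hc with ⟨a, b, -⟩ | ⟨a, b, -⟩ | ⟨a, b, -⟩ | ⟨a, b, -⟩ <;> rw [b, a]
      exacts [g1, (D.cut _ _).symm g1, g2, (D.cut _ _).symm g2]
    · exact h1 d hd ▸ f d hd
  have r := (D.sc S).refl
  have g1' := le S h1 _ _ g1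
  have g2' := le S h1 _ _ g2
  refine ⟨fun g => g0 (ge _ _ g), fun a b => ⟨sc_le (jn1 _ _ _) (fun d => Or.inl (sc_edge S d))
    fun d => ?_, Sys.Jn1_le (fun a b g => le S' h2 a b (ge a b g)) ?_⟩⟩
  · by_cases hd : d.1 = i
    · obtain ⟨j, k⟩ := d
      obtain rfl : j = i := hd
      rw [h4]
      rcases hk c k hc with ⟨a, -, b⟩ | ⟨a, -, b⟩ | ⟨a, -, b⟩ | ⟨a, -, b⟩ <;> rw [b, a]
      exacts [Or.inr (Or.inl ⟨r _, g2'⟩), Or.inr (Or.inl ⟨(D.sc S).symm g1', r _⟩),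
        Or.inr (Or.inr ⟨r _, g1'⟩), Or.inr (Or.inr ⟨(D.sc S).symm g2', r _⟩)]
    · rw [h2 d hd, ← h1 d hd]
      exact Or.inl (sc_smooth S d)
  · have := sc_smooth S' (i, 0)
    rw [h4, sub_zero] at this
    exact (D.sc S').trans this ((D.sc S').symm (le S' h2 _ _ g2))

def toSys {col : D.Dart → Bool} (h : Col col) : Sys D.n D.Arc where
  P := D.sc
  p := D.p
  q := D.q
  ax S i hi := by
    obtain ⟨a1, a2⟩ := cut_path h S i 0
    obtain ⟨-, b2⟩ := cut_path h S i 2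
    have h2 : ∀ d : D.Dart, d.1 ≠ i → D.smooth (insert i S) d = D.smooth S d := fun d hd => by
      simp [smooth, hd]
    have h3 : ∀ k, D.smooth S (i, k) = (i, 1 - k) := fun k => by simp [smooth, hi]
    have h4 : ∀ k, D.smooth (insert i S) (i, k) = (i, 3 - k) := fun k => by simp [smooth]
    rcases a2 with a2 | a2 <;> rcases b2 with b2 | b2
    · exact Or.inl (flip_core (c := 1) (Or.inl rfl) (fun _ _ => rfl) h2 h3 h4 a1 a2 b2)
    · exact absurd ((D.cut S i).trans a2 ((D.cut S i).symm b2)) a1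
    · exact absurd ((D.cut S i).trans a2 ((D.cut S i).symm b2)) a1
    · exact Or.inr (flip_core (c := 3) (Or.inr rfl) h2 (fun _ _ => rfl) h4 h3 a1 a2 b2)

lemma card_jn {col : D.Dart → Bool} (h : Col col) (S : Finset (Fin D.n)) :
    Nat.card (Quotient ((toSys h).Jn S Finset.univ)) ≤
      Nat.card (Quot fun a b : D.Dart => b = D.edge a ∨ b = D.rot a) + D.free := by
  have h1 : ∀ a b : D.Dart, b = D.edge a ∨ b = D.rot a →
      (toSys h).Jn S Finset.univ (Sum.inl a) (Sum.inl b) := by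
    rintro ⟨i, k⟩ _ (rfl | rfl)
    · exact (toSys h).Jn_base _ (sc_edge S _)
    · have a : ∀ k, (toSys h).Jn S Finset.univ (Sum.inl (i, k)) (Sum.inl (D.smooth S (i, k))) :=
        fun k => (toSys h).Jn_base _ (sc_smooth S _)
      have b : (toSys h).Jn S Finset.univ (Sum.inl (i, 0)) (Sum.inl (i, 2)) :=
        (toSys h).Jn_edge S (Finset.mem_univ i)
      have c : ∀ k, (toSys h).Jn S Finset.univ (Sum.inl (i, 0)) (Sum.inl (i, k)) := by
        intro k
        have hk : ∀ k c : ZMod 4, c = 1 ∨ c = 3 → k = 0 ∨ k = 2 ∨ k = c - 0 ∨ k = c - 2 := by decide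
        rcases hk k (if i ∈ S then 3 else 1) (by split_ifs <;> simp) with rfl | rfl | g | g
        · exact Setoid.refl' _ _
        · exact b
        · exact g ▸ a 0
        · exact g ▸ Setoid.trans' _ b (a 2)
      exact Setoid.trans' _ (Setoid.symm' _ (c k)) (c _)
  have := Nat.card_le_card_of_surjective (β := Quotient ((toSys h).Jn S Finset.univ))
    (Sum.elim (Quot.lift (fun d => Quotient.mk _ (Sum.inl d)) fun a b g => Quotient.sound (h1 a b g))
      fun f : Fin D.free => Quotient.mk _ (Sum.inr f)) (by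
      rintro ⟨d | f⟩
      · exact ⟨Sum.inl (Quot.mk _ d), rfl⟩
      · exact ⟨Sum.inr f, rfl⟩)
  simpa using this

lemma face_map {col : D.Dart → Bool} (h : Col col) (B : Finset (Fin D.n))
    (hB : ∀ i, i ∈ B ↔ col (i, 0) = true) :
    ∃ g : Quotient (D.sc B) → (Quot fun a b : D.Dart => b = D.rot (D.edge a)) ⊕ Fin D.free,
      (∀ d, col d = true → g (Quotient.mk _ (Sum.inl d)) = Sum.inl (Quot.mk _ d)) ∧
      ∀ f, g (Quotient.mk _ (Sum.inr f)) = Sum.inr f := by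
  have h1 : ∀ d, col d = false → D.smooth B d = D.rot d := by
    rintro ⟨i, k⟩ hd
    have : ∀ (b : Bool) (k : ZMod 4), xor b (par k) = false →
      (if b = true then 3 else 1) - k = k + 1 := by decide
    rw [h.eq] at hd
    simp only [smooth, rot, hB, this _ _ hd]
  let g : D.Arc → (Quot fun a b : D.Dart => b = D.rot (D.edge a)) ⊕ Fin D.free :=
    Sum.map (fun d => Quot.mk _ (if col d then d else D.edge d)) id
  have h2 : ∀ d, col d = false → g (Sum.inl d) = g (Sum.inl (D.smooth B d)) := by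
    intro d hd
    simp only [g, Sum.map_inl, h1 d hd, h.2, hd, Bool.not_false, if_true, Bool.false_eq_true, if_false]
    exact congrArg _ (Quot.sound (by rw [D.edge_edge]))
  refine ⟨Quotient.lift g fun a b => sc_le (Setoid.ker g) (fun d => ?_) fun d => ?_,
    fun d hd => by simp [g, hd], fun f => rfl⟩
  · change g _ = g _
    cases hd : col d <;> simp [g, h.1, hd, D.edge_edge]
  · cases hd : col d
    · exact h2 d hd
    · have := h2 (D.smooth B d) (by rw [h.smooth, hd]; rfl)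
      rw [smooth_smooth] at this
      exact this.symm

lemma tait {col : D.Dart → Bool} (h : Col col) (hP : D.Planar) (B : Finset (Fin D.n))
    (hB : ∀ i, i ∈ B ↔ col (i, 0) = true) : (toSys h).Tait B ∧ (toSys h).Tait Bᶜ := by
  obtain ⟨g, g1, g2⟩ := face_map h B hB
  obtain ⟨g', g1', g2'⟩ := face_map (col := fun d => !col d)
    ⟨fun d => by simp only [h.1], fun d => by simp only [h.2]⟩ Bᶜ (fun i => by simp [hB])
  have := Nat.card_le_card_of_surjective
    (β := ((Quot fun a b : D.Dart => b = D.rot (D.edge a)) ⊕ Fin D.free) ⊕ Fin D.free)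
    (Sum.elim (fun x => Sum.inl (g x)) fun x => Sum.map Sum.inl id (g' x)) (by
      rintro ((d | f) | f)
      · obtain ⟨d, rfl⟩ := Quot.exists_rep d
        cases hd : col d
        · exact ⟨Sum.inr (Quotient.mk _ (Sum.inl d)), by simp [g1' d (by simp [hd])]⟩
        · exact ⟨Sum.inl (Quotient.mk _ (Sum.inl d)), by simp [g1 d hd]⟩
      · exact ⟨Sum.inl (Quotient.mk _ (Sum.inr f)), by simp [g2]⟩
      · exact ⟨Sum.inr (Quotient.mk _ (Sum.inr f)), by simp [g2']⟩)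
  simp only [Nat.card_sum, Nat.card_fin] at this
  rw [hP] at this
  have a := card_jn h B
  have b := card_jn h Bᶜ
  refine ⟨Sys.tait_of _ _ ?_, Sys.tait_of _ _ ?_⟩
  · change _ ≤ Nat.card (Quotient (D.sc B)) + Nat.card (Quotient (D.sc Bᶜ))
    omega
  · change _ ≤ Nat.card (Quotient (D.sc Bᶜ)) + Nat.card (Quotient (D.sc Bᶜᶜ))
    rw [compl_compl]
    omega

end Diagram

end Pool.Agent.MP_f5aac0_gt

end
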